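import Pool.Agent.W5h55.MO.Un2

set_option autoImplicit false

/-!
# The sums with a sharp cutoff, uniformly in `M`
-/

namespace Pool.Agent.W5h55.MO

open Finset Complex MeasureTheory Filter Pool.Agent.W5h65.MD Pool.Agent.W5h55.MC

/-- The asymptotic formula for the moments, uniformly in `M`. -/
def SharpMomentsU {k : ℕ} (Λ : ℕ → ℂ → ℂ) (σ : Fin k → ℝ) (c : ℝ) : Prop :=
  ∃ δ > 0, ∃ (C : ℝ) (N : ℕ), ∀ M : ℕ, 1 ≤ M → ∀ t : Fin k → ℝ,
    Function.Injective (fun J : Finset (Fin k) => ∑ j ∈ J, t j) → ∃ R : Finset (Fin k) → ℂ,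
    ∀ X : ℝ, 1 ≤ X → ‖sharpMoment Λ M σ t X - ∑ J : Finset (Fin k),
      R J * (X : ℂ) ^ (1 + (J.card : ℂ) / 2 - ∑ j ∈ J, ((σ j : ℂ) + t j * I))‖ ≤
      C * (M * (1 + ‖t‖)) ^ N * X ^ (c - δ)

theorem SharpMomentsU.to {k : ℕ} {Λ : ℕ → ℂ → ℂ} {σ : Fin k → ℝ} {c : ℝ}
    (h : SharpMomentsU Λ σ c) {M : ℕ} (hM : 1 ≤ M) : SharpMoments Λ M σ c := by
  obtain ⟨δ, hδ, C, N, h⟩ := h
  refine ⟨δ, hδ, C * (M : ℝ) ^ N, N, ?_⟩
  filter_upwards [nul k] with t hinj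
  obtain ⟨R, hR⟩ := h M hM t hinj
  refine ⟨R, fun X hX => (hR X hX).trans (le_of_eq ?_)⟩
  rw [mul_pow]
  ring

theorem fibU_sharp {Λ : ℕ → ℂ → ℂ}
    (hΛ : IsCont Λ) (hLi : ∀ ε : ℝ, 0 < ε → ∃ (C : ℝ) (A : ℕ), 0 ≤ C ∧ ∀ (d : ℕ) (t : ℝ),
      IsFund d → 1 < d → ‖Λ d (1 / 2 + t * I)‖ ≤ C * (1 + |t|) ^ A * (d : ℝ) ^ ε)
    {k : ℕ} (hF : FibU Λ k) :
    SharpMomentsU Λ (fun _ : Fin k => 1 / 2) 1 := by
  obtain ⟨δ, hδ, C, N, f, hC, hf⟩ := hF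
  obtain ⟨δ1, hδ1⟩ : ∃ δ1 : ℝ, δ1 = min δ (1 / 2) := ⟨_, rfl⟩
  have h1 : 0 < δ1 := by rw [hδ1]; exact lt_min hδ (by norm_num)
  have h2 : δ1 ≤ δ := by rw [hδ1]; exact min_le_left _ _
  have h3 : δ1 ≤ 1 / 2 := by rw [hδ1]; exact min_le_right _ _
  obtain ⟨δ', hδ', ε, hε, Z, hZ, hcore⟩ := score inve shifte erre sdiff (ι := Finset (Fin k))
    (b := 1 - δ1) (b' := 1 - δ1 / 2) (κ := k) (L := k) (by linarith) (by linarith) (by linarith)
    (by positivity) (by positivity) N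
  have hk1 : (0 : ℝ) < (k : ℝ) + 1 := by positivity
  obtain ⟨C1, A1, hC1, hL1⟩ := hLi (ε / (k + 1)) (by positivity)
  refine ⟨δ', hδ', (C1 ^ k + C) * Z, N + (A1 * k + (N + 2)), fun M hM t hinj => ?_⟩
  obtain ⟨B, _, hal⟩ := al_bound hΛ M (σ := fun _ : Fin k => 1 / 2) (fun _ => by norm_num)
  obtain ⟨hd, hfr, hfb⟩ := hf M hM t
  have hinj' : Function.Injective (ex (sp (fun _ : Fin k => 1 / 2) t)) := by
    intro J J' h
    apply hinj
    have h1 := congrArg Complex.im h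
    rw [ex_im, ex_im] at h1
    exact neg_injective h1
  have ht0 := norm_nonneg t
  have hτ1 : (1 : ℝ) ≤ 1 + ‖t‖ := by linarith
  have hM1 : (1 : ℝ) ≤ M := by exact_mod_cast hM
  refine ⟨fun J => f M t (ex (sp (fun _ : Fin k => 1 / 2) t) J) /
    ex (sp (fun _ : Fin k => 1 / 2) t) J /
    ∏ J' ∈ univ.erase J, (ex (sp (fun _ : Fin k => 1 / 2) t) J -
      ex (sp (fun _ : Fin k => 1 / 2) t) J'), fun X hX => ?_⟩
  have hX0 : 0 < X := by linarith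
  have hmain := hcore (ex (sp (fun _ : Fin k => 1 / 2) t)) (al Λ M (sp (fun _ : Fin k => 1 / 2) t))
    ((C1 * (1 + ‖t‖) ^ A1) ^ k) ((B * (1 + ‖t‖)) ^ k) (f M t) (C * (M : ℝ) ^ N) ‖t‖ hinj' (ex_re t)
    (fun J => by
      rw [ex_im, abs_neg]
      calc |∑ j ∈ J, t j| ≤ ∑ j ∈ J, |t j| := abs_sum_le_sum_abs _ _
        _ ≤ ∑ _j ∈ J, ‖t‖ := sum_le_sum fun j _ => norm_le_pi_norm t j
        _ = J.card * ‖t‖ := by rw [sum_const, nsmul_eq_mul]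
        _ ≤ k * ‖t‖ := by
            refine mul_le_mul_of_nonneg_right ?_ ht0
            have := J.card_le_univ
            rw [Fintype.card_fin] at this
            exact_mod_cast this)
    (al_zero _ _ _) (hal t) (by positivity)
    (fun d => by
      by_cases hd0 : d = 0
      · subst hd0
        rw [al_zero, norm_zero]
        positivity
      · have hd1 : (1 : ℝ) ≤ d := by exact_mod_cast Nat.one_le_iff_ne_zero.2 hd0
        refine (al_lind M (by positivity) hC1 hL1 t d).trans ?_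
        refine mul_le_mul_of_nonneg_left (Real.rpow_le_rpow_of_exponent_le hd1 ?_) (by positivity)
        rw [div_mul_eq_mul_div, div_le_iff₀ hk1]
        nlinarith)
    (hd.mono fun w (hw : 1 - δ1 < w.re) => by
      show 1 - δ < w.re
      linarith)
    (fun w hw => (hfr w hw).trans (FX_fibre Λ M _ t w))
    (fun w hw => hfb w (by linarith))
    ht0 (by positivity) (Real.log X) (Real.log_nonneg hX)
  rw [Real.exp_log hX0] at hmain
  have h4 : X ^ (1 - δ') = Real.exp ((1 - δ') * Real.log X) := by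
    rw [Real.rpow_def_of_pos hX0, mul_comm]
  rw [← h4] at hmain
  have h5 : sharpMoment Λ M (fun _ : Fin k => 1 / 2) t X =
      SC (al Λ M (sp (fun _ : Fin k => 1 / 2) t)) X := rfl
  have h6 : ∀ J : Finset (Fin k), (X : ℂ) ^ (1 + (J.card : ℂ) / 2 -
      ∑ j ∈ J, ((((fun _ => 1 / 2 : Fin k → ℝ) j : ℝ) : ℂ) + t j * I)) =
      Complex.exp (ex (sp (fun _ : Fin k => 1 / 2) t) J * (Real.log X : ℝ)) := by
    intro J
    have hne : (X : ℂ) ≠ 0 := by exact_mod_cast hX0.ne'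
    rw [Complex.cpow_def_of_ne_zero hne, ← Complex.ofReal_log hX0.le, mul_comm]
    rfl
  rw [h5]
  simp_rw [h6]
  refine hmain.trans ?_
  refine mul_le_mul_of_nonneg_right ?_ (Real.rpow_nonneg hX0.le _)
  have hP : (1 : ℝ) ≤ (1 + ‖t‖) ^ (A1 * k) := one_le_pow₀ hτ1
  have hMN : (1 : ℝ) ≤ (M : ℝ) ^ N := one_le_pow₀ hM1
  have e1 : (C1 * (1 + ‖t‖) ^ A1) ^ k + C * (M : ℝ) ^ N ≤
      (C1 ^ k + C) * ((M : ℝ) ^ N * (1 + ‖t‖) ^ (A1 * k)) := by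
    rw [mul_pow, ← pow_mul, add_mul]
    have e2 : C1 ^ k * (1 + ‖t‖) ^ (A1 * k) ≤ C1 ^ k * ((M : ℝ) ^ N * (1 + ‖t‖) ^ (A1 * k)) :=
      mul_le_mul_of_nonneg_left (le_mul_of_one_le_left (by positivity) hMN) (by positivity)
    have e3 : C * (M : ℝ) ^ N ≤ C * ((M : ℝ) ^ N * (1 + ‖t‖) ^ (A1 * k)) :=
      mul_le_mul_of_nonneg_left (le_mul_of_one_le_right (by positivity) hP) hC
    linarith
  calc ((C1 * (1 + ‖t‖) ^ A1) ^ k + C * (M : ℝ) ^ N) * Z * (1 + ‖t‖) ^ (N + 2)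
      ≤ ((C1 ^ k + C) * ((M : ℝ) ^ N * (1 + ‖t‖) ^ (A1 * k))) * Z * (1 + ‖t‖) ^ (N + 2) := by
        gcongr
    _ = (C1 ^ k + C) * Z * ((M : ℝ) ^ N * (1 + ‖t‖) ^ (A1 * k + (N + 2))) := by
        rw [pow_add (1 + ‖t‖) (A1 * k)]
        ring
    _ ≤ (C1 ^ k + C) * Z * (M * (1 + ‖t‖)) ^ (N + (A1 * k + (N + 2))) := by
        refine mul_le_mul_of_nonneg_left ?_ (by positivity)
        rw [mul_pow]
        refine mul_le_mul (pow_le_pow_right₀ hM1 (by omega)) (pow_le_pow_right₀ hτ1 (by omega))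
          (by positivity) (by positivity)

/-- The equivalence of Q1 for all `k`, `M` with the asymptotic formula for the moments. -/
theorem global7 {Λ : ℕ → ℂ → ℂ} (hΛ : IsCont Λ) :
    [∀ k M : ℕ, 1 ≤ k → 1 ≤ M → MC.Q1 k M,
     ∀ n : ℕ, ∃ k : ℕ, n ≤ k ∧ SharpMoments Λ 1 (fun _ : Fin k => 1 / 2) 1,
     ∀ k : ℕ, SharpMomentsU Λ (fun _ : Fin k => 1 / 2) 1].TFAE := by
  have hU : S_U := fun k M hM z h1 h2 => FM_eq63 k M hM z h1 h2
  tfae_have 1 → 3 := fun h k => by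
    refine fibU_sharp hΛ (lind_crit crit_lind (fun n => ⟨n + 1, by omega, h (n + 1) 1 (by omega)
      le_rfl⟩) hΛ)
      (fibU_of_unif hU hΛ ?_)
    exact Pool.Agent.W5h63.MD.main le_rfl
      (Pool.Agent.W5h63.MD.Q1_of_Q1C (q1C_of_q1 hU le_rfl (h (k + 1) 1 (by omega) le_rfl)))
  tfae_have 3 → 2 := fun h n => ⟨n, le_rfl, (h n).to le_rfl⟩
  tfae_have 2 → 1 := fun h k M _ hM => all_of_inf hU (fun n => by
    obtain ⟨k, hk, h1⟩ := h n
    exact ⟨k, hk, q1_of_sharp hΛ h1⟩) k M hM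
  tfae_finish

end Pool.Agent.W5h55.MO
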