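import Pool.Agent.W5h55.MO.Defs

set_option autoImplicit false

/-!
# Interpolation of a polynomial of small degree
-/

namespace Pool.Agent.W5h55.MO

open Finset Polynomial

theorem intp : S_A := by
  intro ι _ _ a c x hx w
  classical
  -- the polynomial
  set P : ℂ[X] := ∑ i, C (c i) * ∏ i' ∈ univ.erase i, (X - C (a i')) with hP
  have hev : ∀ z : ℂ, P.eval z = ∑ i, c i * ∏ i' ∈ univ.erase i, (z - a i') := by
    intro z
    rw [hP, eval_finsetSum]
    refine sum_congr rfl fun i _ => ?_
    rw [eval_mul, eval_C, eval_prod]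
    simp
  have hinj : Set.InjOn x (univ : Finset (Fin (Fintype.card ι))) := by
    intro m _ m' _ h
    by_contra hne
    have := hx m m' hne
    rw [h, sub_self, norm_zero] at this
    linarith
  have hdeg : P.degree < (univ : Finset (Fin (Fintype.card ι))).card := by
    rw [card_univ, Fintype.card_fin]
    refine lt_of_le_of_lt (degree_sum_le _ _) ?_
    rw [Finset.sup_lt_iff (by exact WithBot.bot_lt_coe _)]
    intro i _
    refine lt_of_le_of_lt (degree_mul_le _ _) ?_
    have h1 : (∏ i' ∈ univ.erase i, (X - C (a i')) : ℂ[X]).degree = ((Fintype.card ι - 1 : ℕ) : WithBot ℕ) := by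
      rw [degree_prod]
      simp only [degree_X_sub_C, sum_const, nsmul_eq_mul, mul_one]
      rw [card_erase_of_mem (mem_univ i), card_univ]
    rw [h1]
    have h2 : (C (c i) : ℂ[X]).degree ≤ 0 := degree_C_le
    have h3 : 0 < Fintype.card ι := Fintype.card_pos_iff.2 ⟨i⟩
    calc (C (c i) : ℂ[X]).degree + ((Fintype.card ι - 1 : ℕ) : WithBot ℕ)
        ≤ 0 + ((Fintype.card ι - 1 : ℕ) : WithBot ℕ) := by gcongr
      _ = ((Fintype.card ι - 1 : ℕ) : WithBot ℕ) := zero_add _
      _ < (Fintype.card ι : WithBot ℕ) := by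
          exact_mod_cast Nat.sub_lt h3 one_pos
  have hint := Lagrange.eq_interpolate hinj hdeg
  rw [← hev w, hint, Lagrange.interpolate_apply, eval_finsetSum]
  refine (norm_sum_le _ _).trans (sum_le_sum fun m _ => ?_)
  rw [eval_mul, eval_C, norm_mul, hev (x m)]
  refine mul_le_mul_of_nonneg_left ?_ (norm_nonneg _)
  rw [Lagrange.basis, eval_prod, norm_prod]
  refine prod_le_prod (fun _ _ => norm_nonneg _) fun m' hm' => ?_
  have hne : m ≠ m' := fun h => (mem_erase.1 hm').1 h.symm
  rw [Lagrange.basisDivisor, eval_mul, eval_C, eval_sub, eval_X, eval_C, norm_mul, norm_inv]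
  have h1 := hx m m' hne
  calc ‖x m - x m'‖⁻¹ * ‖w - x m'‖ ≤ 1 * ‖w - x m'‖ := by
        refine mul_le_mul_of_nonneg_right ?_ (norm_nonneg _)
        exact inv_le_one_of_one_le₀ h1
    _ = ‖w - x m'‖ := one_mul _

end Pool.Agent.W5h55.MO
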