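import Pool.Agent.W5h55.MO.Defs

set_option autoImplicit false

/-!
# (B) Smoothed sums with Gaussian weights
-/

namespace Pool.Agent.W5h55.MO.B

open Finset Complex MeasureTheory Filter Topology

/-- The Gaussian weight of `d`. -/
noncomputable def tm (v : ℝ) (d : ℕ) (u : ℝ) : ℂ :=
  Complex.exp (-((Real.log d - u : ℝ) : ℂ) ^ 2 - I * v * ((Real.log d - u : ℝ) : ℂ))

lemma SS_eq (α : ℕ → ℂ) (v u : ℝ) : SS α v u = ∑' d : ℕ, α d * tm v d u := rfl

lemma norm_tm (v : ℝ) (d : ℕ) (u : ℝ) : ‖tm v d u‖ = Real.exp (-(Real.log d - u) ^ 2) := by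
  unfold tm
  generalize Real.log d - u = x
  rw [Complex.norm_exp]
  congr 1
  rw [← Complex.ofReal_pow, Complex.sub_re, Complex.neg_re, Complex.ofReal_re]
  simp [Complex.mul_re]

lemma continuous_tm (v : ℝ) (d : ℕ) : Continuous (tm v d) := by
  unfold tm
  fun_prop

/-- Summability of the Gaussian majorants. -/
lemma summable_gauss (κ u : ℝ) :
    Summable (fun d : ℕ => (d : ℝ) ^ κ * Real.exp (-(Real.log d - u) ^ 2)) := by
  rw [← summable_nat_add_iff 1]
  have h2 : Summable (fun d : ℕ => (1 : ℝ) / ((d + 1 : ℕ) : ℝ) ^ 2) :=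
    (summable_nat_add_iff (f := fun d : ℕ => (1 : ℝ) / (d : ℝ) ^ 2) 1).2
      (Real.summable_one_div_nat_pow.2 (by norm_num))
  refine Summable.of_nonneg_of_le (fun d => by positivity) (fun d => ?_)
    (h2.mul_left (Real.exp ((κ + 2) * u + (κ + 2) ^ 2 / 4)))
  have hd : (0 : ℝ) < ((d + 1 : ℕ) : ℝ) := by positivity
  set x : ℝ := ((d + 1 : ℕ) : ℝ) with hx
  have e1 : x ^ κ = Real.exp (κ * Real.log x) := by
    rw [Real.rpow_def_of_pos hd, mul_comm]
  have e2 : (1 : ℝ) / x ^ 2 = Real.exp (-2 * Real.log x) := by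
    rw [show -2 * Real.log x = Real.log x * (-2 : ℝ) by ring, ← Real.rpow_def_of_pos hd,
      Real.rpow_neg hd.le]
    norm_num
  rw [e1, e2, ← Real.exp_add, ← Real.exp_add]
  apply Real.exp_le_exp.2
  nlinarith [sq_nonneg (Real.log x - u - (κ + 2) / 2)]

lemma summable_terms {κ A : ℝ} {α : ℕ → ℂ} (hα : ∀ d : ℕ, ‖α d‖ ≤ A * (d : ℝ) ^ κ) (v u : ℝ) :
    Summable (fun d : ℕ => ‖α d * tm v d u‖) := by
  refine Summable.of_nonneg_of_le (fun d => norm_nonneg _) (fun d => ?_)
    ((summable_gauss κ u).mul_left A)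
  rw [norm_mul, norm_tm, ← mul_assoc]
  exact mul_le_mul_of_nonneg_right (hα d) (Real.exp_pos _).le

lemma measurable_SS {κ A : ℝ} {α : ℕ → ℂ} (hα : ∀ d : ℕ, ‖α d‖ ≤ A * (d : ℝ) ^ κ) (v : ℝ) :
    Measurable (SS α v) := by
  have hlim : Tendsto (fun n : ℕ => fun u : ℝ => ∑ d ∈ range n, α d * tm v d u) atTop
      (𝓝 (SS α v)) := by
    rw [tendsto_pi_nhds]
    intro u
    exact ((summable_terms hα v u).of_norm).hasSum.tendsto_sum_nat
  refine measurable_of_tendsto_metrizable (fun n => ?_) hlim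
  refine Finset.measurable_sum _ (fun d _ => ?_)
  exact (continuous_const.mul (continuous_tm v d)).measurable

/-- The exponent. -/
lemma tm_mul (v : ℝ) (d : ℕ) (w : ℂ) (u : ℝ) :
    tm v d u * Complex.exp (-w * u) = Complex.exp ((-1) * (u : ℂ) ^ 2 +
      (2 * (Real.log d : ℂ) + I * v - w) * u + (-(Real.log d : ℂ) ^ 2 - I * v * Real.log d)) := by
  unfold tm
  rw [← Complex.exp_add]
  congr 1
  push_cast
  ring

lemma integrable_tm (v : ℝ) (d : ℕ) (w : ℂ) :
    Integrable (fun u : ℝ => tm v d u * Complex.exp (-w * u)) := by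
  simp_rw [tm_mul]
  exact integrable_cexp_quadratic' (by simp) _ _

lemma integral_tm (v : ℝ) (d : ℕ) (hd : d ≠ 0) (w : ℂ) :
    ∫ u : ℝ, tm v d u * Complex.exp (-w * u) =
      (Real.sqrt Real.pi : ℂ) * Complex.exp ((w - I * v) ^ 2 / 4) * (d : ℂ) ^ (-w) := by
  simp_rw [tm_mul]
  rw [integral_cexp_quadratic (by simp)]
  have hd' : (d : ℂ) ≠ 0 := by exact_mod_cast hd
  rw [Complex.cpow_def_of_ne_zero hd', ← Complex.natCast_log,
    mul_assoc (Real.sqrt Real.pi : ℂ), ← Complex.exp_add]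
  congr 1
  · rw [Real.sqrt_eq_rpow, Complex.ofReal_cpow Real.pi_pos.le]
    norm_num
  · congr 1
    ring

lemma integral_norm_tm (v : ℝ) (d : ℕ) (hd : d ≠ 0) (w : ℂ) :
    ∫ u : ℝ, ‖tm v d u * Complex.exp (-w * u)‖ =
      Real.sqrt Real.pi * Real.exp (w.re ^ 2 / 4) * (d : ℝ) ^ (-w.re) := by
  have h1 : ∀ u : ℝ, ((‖tm v d u * Complex.exp (-w * u)‖ : ℝ) : ℂ) =
      tm 0 d u * Complex.exp (-(w.re : ℂ) * u) := by
    intro u
    rw [norm_mul, norm_tm, Complex.norm_exp]
    have : (-w * (u : ℂ)).re = -w.re * u := by simp [Complex.mul_re]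
    rw [this]
    unfold tm
    push_cast
    simp
  have h2 : ((∫ u : ℝ, ‖tm v d u * Complex.exp (-w * u)‖ : ℝ) : ℂ) =
      ((Real.sqrt Real.pi * Real.exp (w.re ^ 2 / 4) * (d : ℝ) ^ (-w.re) : ℝ) : ℂ) := by
    rw [← integral_complex_ofReal]
    simp_rw [h1]
    rw [integral_tm 0 d hd]
    push_cast
    rw [Complex.ofReal_cpow (Nat.cast_nonneg d)]
    simp
  exact_mod_cast h2

lemma integrable_tsum {F : ℕ → ℝ → ℂ} (hF : ∀ i, Integrable (F i))
    (hs : Summable fun i => ∫ a, ‖F i a‖)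
    (hm : AEStronglyMeasurable (fun a => ∑' i, F i a)) :
    Integrable (fun a => ∑' i, F i a) := by
  refine ⟨hm, ?_⟩
  have h1 : ∀ a, ‖∑' i, F i a‖ₑ ≤ ∑' i, ‖F i a‖ₑ := fun a => enorm_tsum_le_tsum_enorm
  unfold HasFiniteIntegral
  refine lt_of_le_of_lt (lintegral_mono h1) ?_
  rw [lintegral_tsum (fun i => (hF i).1.enorm)]
  have h2 (i : ℕ) : ∫⁻ a, ‖F i a‖ₑ = ‖∫ a, ‖F i a‖‖ₑ := by
    dsimp [enorm]
    rw [lintegral_coe_eq_integral _ (hF i).norm, ENNReal.coe_nnreal_eq, coe_nnnorm,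
      Real.norm_of_nonneg (integral_nonneg (fun a => norm_nonneg (F i a)))]
    simp only [coe_nnnorm]
  rw [funext h2]
  exact lt_top_iff_ne_top.2 (ENNReal.tsum_coe_ne_top_iff_summable.2 <| NNReal.summable_coe.1 hs.abs)

end Pool.Agent.W5h55.MO.B

namespace Pool.Agent.W5h55.MO

open Finset Complex MeasureTheory Filter Topology B

/-- **(B)** -/
theorem gauss : S_B := by
  intro κ hκ
  set Z0 : ℝ := ∑' d : ℕ, (d : ℝ) ^ κ * Real.exp (-(Real.log d - 0) ^ 2) with hZ0
  have hZ0' : 0 ≤ Z0 := tsum_nonneg fun d => by positivity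
  refine ⟨1 + Z0, by linarith, ?_⟩
  intro α A hA hα0 hα
  refine ⟨fun v => measurable_SS hα v, ?_, ?_⟩
  · intro v u hu
    rw [SS_eq]
    have hb : ∀ d : ℕ, ‖α d * tm v d u‖ ≤ A * Real.exp (-u ^ 2) *
        ((d : ℝ) ^ κ * Real.exp (-(Real.log d - 0) ^ 2)) := by
      intro d
      rw [norm_mul, norm_tm]
      have h1 : Real.exp (-(Real.log d - u) ^ 2) ≤
          Real.exp (-u ^ 2) * Real.exp (-(Real.log d - 0) ^ 2) := by
        rw [← Real.exp_add]
        apply Real.exp_le_exp.2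
        have h0 : 0 ≤ Real.log d := Real.log_natCast_nonneg d
        nlinarith [mul_nonneg h0 (neg_nonneg.2 hu)]
      calc ‖α d‖ * Real.exp (-(Real.log d - u) ^ 2)
          ≤ (A * (d : ℝ) ^ κ) * (Real.exp (-u ^ 2) * Real.exp (-(Real.log d - 0) ^ 2)) :=
            mul_le_mul (hα d) h1 (Real.exp_pos _).le (by positivity)
        _ = _ := by ring
    have hsum := (summable_gauss κ 0).mul_left (A * Real.exp (-u ^ 2))
    calc ‖∑' d : ℕ, α d * tm v d u‖ ≤ ∑' d : ℕ, ‖α d * tm v d u‖ :=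
          norm_tsum_le_tsum_norm (summable_terms hα v u)
      _ ≤ ∑' d : ℕ, A * Real.exp (-u ^ 2) *
            ((d : ℝ) ^ κ * Real.exp (-(Real.log d - 0) ^ 2)) :=
          Summable.tsum_le_tsum hb (summable_terms hα v u) hsum
      _ = A * Real.exp (-u ^ 2) * Z0 := by rw [tsum_mul_left]
      _ ≤ A * (1 + Z0) * Real.exp (-u ^ 2) := by
          have : 0 ≤ A * Real.exp (-u ^ 2) := by positivity
          nlinarith
  · intro v w hw
    set F : ℕ → ℝ → ℂ := fun d u => α d * (tm v d u * Complex.exp (-w * u)) with hF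
    have hFi : ∀ d, Integrable (F d) := fun d => (integrable_tm v d w).const_mul (α d)
    have hFn : ∀ d, ∫ u, ‖F d u‖ ≤ A * (Real.sqrt Real.pi * Real.exp (w.re ^ 2 / 4)) *
        (d : ℝ) ^ (κ - w.re) := by
      intro d
      by_cases hd : d = 0
      · subst hd
        simp only [hF, hα0, zero_mul, norm_zero, integral_zero]
        positivity
      · simp only [hF]
        simp_rw [norm_mul (α d)]
        rw [integral_const_mul, integral_norm_tm v d hd w]
        have hd' : (0 : ℝ) < d := by exact_mod_cast Nat.pos_of_ne_zero hd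
        rw [sub_eq_add_neg, Real.rpow_add hd']
        calc ‖α d‖ * (Real.sqrt Real.pi * Real.exp (w.re ^ 2 / 4) * (d : ℝ) ^ (-w.re))
            ≤ (A * (d : ℝ) ^ κ) * (Real.sqrt Real.pi * Real.exp (w.re ^ 2 / 4) *
              (d : ℝ) ^ (-w.re)) := mul_le_mul_of_nonneg_right (hα d) (by positivity)
          _ = _ := by ring
    have hFs : Summable fun d => ∫ u, ‖F d u‖ := by
      refine Summable.of_nonneg_of_le (fun d => integral_nonneg fun u => norm_nonneg _) hFn ?_
      exact (Real.summable_nat_rpow.2 (by linarith)).mul_left _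
    have hfun : (fun u : ℝ => SS α v u * Complex.exp (-w * u)) = fun u => ∑' d, F d u := by
      funext u
      rw [SS_eq, ← tsum_mul_right]
      exact tsum_congr fun d => by simp only [hF]; ring
    have hmeas : AEStronglyMeasurable (fun u => ∑' d, F d u) := by
      rw [← hfun]
      exact ((measurable_SS hα v).mul (by fun_prop)).aestronglyMeasurable
    rw [hfun]
    refine ⟨integrable_tsum hFi hFs hmeas, ?_⟩
    rw [← integral_tsum_of_summable_integral_norm hFi hFs]
    unfold DS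
    rw [← tsum_mul_left]
    refine tsum_congr fun d => ?_
    by_cases hd : d = 0
    · subst hd
      simp [hF, hα0]
    · simp only [hF]
      rw [integral_const_mul, integral_tm v d hd w]
      ring

end Pool.Agent.W5h55.MO
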