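import Pool.Agent.W5h55.MO.Defs4

set_option autoImplicit false

/-!
# The Laplace transform of sums with a sharp cutoff
-/

namespace Pool.Agent.W5h55.MO

open Finset Complex MeasureTheory Filter Topology

theorem SC_bound {κ A : ℝ} {α : ℕ → ℂ} (hκ : 0 ≤ κ) (hA : 0 ≤ A)
    (h : ∀ d : ℕ, ‖α d‖ ≤ A * (d : ℝ) ^ κ) (n : ℕ) :
    ‖∑ d ∈ Icc 1 n, α d‖ ≤ A * (n : ℝ) ^ (κ + 1) := by
  rcases Nat.eq_zero_or_pos n with rfl | hn
  · rw [Finset.Icc_eq_empty (by norm_num), Finset.sum_empty, norm_zero]
    positivity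
  · have h1 : ∀ d ∈ Icc 1 n, ‖α d‖ ≤ A * (n : ℝ) ^ κ := by
      intro d hd
      refine (h d).trans ?_
      have h2 : (d : ℝ) ≤ n := by exact_mod_cast (Finset.mem_Icc.1 hd).2
      gcongr
    refine (norm_sum_le_of_le _ h1).trans ?_
    rw [Finset.sum_const, Nat.card_Icc, Nat.add_sub_cancel, nsmul_eq_mul,
      Real.rpow_add (by exact_mod_cast hn), Real.rpow_one]
    apply le_of_eq
    ring

theorem meas_SC (α : ℕ → ℂ) : Measurable (fun u : ℝ => SC α (Real.exp u)) := by
  have h1 : Measurable (fun n : ℕ => ∑ d ∈ Icc 1 n, α d) := measurable_from_top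
  exact h1.comp (Nat.measurable_floor.comp Real.measurable_exp)

theorem abel : S_C := by
  intro κ A α hκ hA h0 h
  refine ⟨meas_SC α, fun w hw => ?_⟩
  have hpos : 0 < w.re := by linarith
  have hw0 : w ≠ 0 := by
    intro h1
    rw [h1, Complex.zero_re] at hpos
    exact lt_irrefl _ hpos
  have hind : (fun u : ℝ => (if 0 ≤ u then SC α (Real.exp u) else 0) * Complex.exp (-w * u)) =
      (Set.Ici (0 : ℝ)).indicator fun u => SC α (Real.exp u) * Complex.exp (-w * u) := by
    funext u
    by_cases hu : 0 ≤ u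
    · rw [if_pos hu, Set.indicator_of_mem (Set.mem_Ici.2 hu)]
    · rw [if_neg hu, zero_mul, Set.indicator_of_notMem (fun h => hu (Set.mem_Ici.1 h))]
  have hm : Measurable fun u : ℝ => SC α (Real.exp u) * Complex.exp (-w * u) :=
    (meas_SC α).mul (by fun_prop)
  rw [hind]
  constructor
  · rw [integrable_indicator_iff measurableSet_Ici]
    have h1 : IntegrableOn (fun u : ℝ => A * Real.exp (-(w.re - (κ + 1)) * u)) (Set.Ici 0) := by
      rw [integrableOn_Ici_iff_integrableOn_Ioi]
      exact (exp_neg_integrableOn_Ioi 0 (by linarith)).const_mul A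
    refine Integrable.mono' h1 hm.aestronglyMeasurable ?_
    refine (ae_restrict_iff' measurableSet_Ici).2 (ae_of_all _ fun u hu => ?_)
    have h2 := SC_bound hκ hA h ⌊Real.exp u⌋₊
    have h3 : ((⌊Real.exp u⌋₊ : ℕ) : ℝ) ^ (κ + 1) ≤ Real.exp u ^ (κ + 1) :=
      Real.rpow_le_rpow (Nat.cast_nonneg _) (Nat.floor_le (Real.exp_pos u).le) (by linarith)
    have h4 : ‖Complex.exp (-w * u)‖ = Real.exp (-w.re * u) := by
      rw [Complex.norm_exp]
      congr 1
      simp
    rw [norm_mul, h4]
    calc ‖SC α (Real.exp u)‖ * Real.exp (-w.re * u)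
        ≤ (A * Real.exp u ^ (κ + 1)) * Real.exp (-w.re * u) := by
          refine mul_le_mul_of_nonneg_right (h2.trans ?_) (Real.exp_pos _).le
          exact mul_le_mul_of_nonneg_left h3 hA
      _ = A * Real.exp (-(w.re - (κ + 1)) * u) := by
          rw [← Real.exp_mul, mul_assoc, ← Real.exp_add]
          congr 2
          ring
  · rw [integral_indicator measurableSet_Ici, integral_Ici_eq_integral_Ioi]
    have hS : LSeriesSummable α w := by
      refine LSeriesSummable_of_le_const_mul_rpow (x := κ + 1) hw ⟨A, fun n _ => ?_⟩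
      rw [add_sub_cancel_right]
      exact h n
    have hO : (fun n : ℕ => ∑ k ∈ Icc 1 n, α k) =O[atTop] fun n : ℕ => (n : ℝ) ^ (κ + 1) := by
      refine Asymptotics.IsBigO.of_bound A (Eventually.of_forall fun n => ?_)
      refine (SC_bound hκ hA h n).trans ?_
      rw [Real.norm_of_nonneg (Real.rpow_nonneg (Nat.cast_nonneg n) _)]
    have h1 := LSeries_eq_mul_integral α (r := κ + 1) (by linarith) hw hS hO
    have hDS : DS α w = LSeries α w := by
      unfold DS LSeries
      refine tsum_congr fun d => ?_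
      rcases eq_or_ne d 0 with rfl | hd
      · rw [h0, zero_mul, LSeries.term_zero]
      · rw [LSeries.term_of_ne_zero hd, Complex.cpow_neg, div_eq_mul_inv]
    have himg : Real.exp '' Set.Ioi 0 = Set.Ioi 1 := by
      ext x
      constructor
      · rintro ⟨u, hu, rfl⟩
        exact Real.one_lt_exp_iff.2 hu
      · intro hx
        exact ⟨Real.log x, Real.log_pos hx, Real.exp_log (lt_trans one_pos hx)⟩
    have h2 := integral_image_eq_integral_abs_deriv_smul (s := Set.Ioi (0 : ℝ)) (f := Real.exp)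
      (f' := Real.exp) measurableSet_Ioi (fun x _ => (Real.hasDerivAt_exp x).hasDerivWithinAt)
      Real.exp_injective.injOn
      (fun t : ℝ => (∑ k ∈ Icc 1 ⌊t⌋₊, α k) * (t : ℂ) ^ (-(w + 1)))
    rw [himg] at h2
    rw [hDS, h1, h2, mul_div_cancel_left₀ _ hw0]
    refine setIntegral_congr_fun measurableSet_Ioi fun u _ => ?_
    have h3 : ((Real.exp u : ℝ) : ℂ) ^ (-(w + 1)) = Complex.exp (-(w + 1) * u) := by
      rw [Complex.cpow_def_of_ne_zero (by exact_mod_cast (Real.exp_pos u).ne'),
        ← Complex.ofReal_log (Real.exp_pos u).le, Real.log_exp]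
      congr 1
      ring
    have h4 : (Real.exp u : ℝ) • ((∑ k ∈ Icc 1 ⌊Real.exp u⌋₊, α k) *
        ((Real.exp u : ℝ) : ℂ) ^ (-(w + 1))) = SC α (Real.exp u) * Complex.exp (-w * u) := by
      rw [h3, Complex.real_smul, SC, Complex.ofReal_exp]
      have h5 : Complex.exp (-w * u) = Complex.exp u * Complex.exp (-(w + 1) * u) := by
        rw [← Complex.exp_add]
        congr 1
        ring
      rw [h5]
      ring
    rw [abs_of_pos (Real.exp_pos u)]
    exact h4.symm

end Pool.Agent.W5h55.MO
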