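import Pool.Agent.W5h55.MO.Defs

set_option autoImplicit false

/-!
# (D) A two-sided Laplace transform
-/

namespace Pool.Agent.W5h55.MO

open MeasureTheory Set Filter Topology Metric

/-- The Gaussian integral with a linear term. -/
theorem gauss_lin (c : ℝ) : Integrable (fun u : ℝ => Real.exp (-u ^ 2 - c * u)) ∧
    ∫ u : ℝ, Real.exp (-u ^ 2 - c * u) = Real.sqrt Real.pi * Real.exp (c ^ 2 / 4) := by
  have h1 : (fun u : ℝ => Real.exp (-u ^ 2 - c * u)) =
      fun u : ℝ => Real.exp (c ^ 2 / 4) * Real.exp (-1 * (u + c / 2) ^ 2) := by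
    funext u
    rw [← Real.exp_add]
    congr 1
    ring
  rw [h1]
  constructor
  · exact ((integrable_exp_neg_mul_sq one_pos).comp_add_right (c / 2)).const_mul _
  · rw [integral_const_mul, integral_add_right_eq_self (fun u : ℝ => Real.exp (-1 * u ^ 2)) (c / 2),
      integral_gaussian, div_one, mul_comm]

/-- The majorant. -/
noncomputable def maj (K K2 a c u : ℝ) : ℝ :=
  (Ici (0 : ℝ)).indicator (fun u => K * Real.exp (-a * u)) u + K2 * Real.exp (-u ^ 2 - c * u)

theorem maj_int (K K2 c : ℝ) {a : ℝ} (ha : 0 < a) : Integrable (maj K K2 a c) ∧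
    ∫ u : ℝ, maj K K2 a c u = K / a + K2 * (Real.sqrt Real.pi * Real.exp (c ^ 2 / 4)) := by
  have hneg : -a < 0 := by linarith
  have h1 : Integrable ((Ici (0 : ℝ)).indicator (fun u => K * Real.exp (-a * u))) := by
    rw [integrable_indicator_iff measurableSet_Ici, integrableOn_Ici_iff_integrableOn_Ioi]
    exact (integrableOn_exp_mul_Ioi hneg 0).const_mul K
  have h2 := (gauss_lin c).1.const_mul K2
  refine ⟨h1.add h2, ?_⟩
  have h3 : ∫ u : ℝ, maj K K2 a c u =
      (∫ u : ℝ, (Ici (0 : ℝ)).indicator (fun u => K * Real.exp (-a * u)) u) +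
        ∫ u : ℝ, K2 * Real.exp (-u ^ 2 - c * u) := integral_add h1 h2
  rw [h3, integral_indicator measurableSet_Ici, integral_Ici_eq_integral_Ioi, integral_const_mul,
    integral_const_mul, (gauss_lin c).2, integral_exp_mul_Ioi hneg]
  congr 1
  rw [mul_zero, Real.exp_zero, neg_div_neg_eq, mul_one_div]

theorem le_maj_left {K K2 a c u x : ℝ} (hK2 : 0 ≤ K2) (hu : 0 ≤ u)
    (h : x ≤ K * Real.exp (-a * u)) : x ≤ maj K K2 a c u := by
  unfold maj
  rw [indicator_of_mem (mem_Ici.2 hu)]
  have := mul_nonneg hK2 (Real.exp_pos (-u ^ 2 - c * u)).le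
  linarith

theorem le_maj_right {K K2 a c u x : ℝ} (hu : u < 0)
    (h : x ≤ K2 * Real.exp (-u ^ 2 - c * u)) : x ≤ maj K K2 a c u := by
  unfold maj
  rw [indicator_of_notMem (by simpa using hu)]
  linarith

theorem norm_cexp (w : ℂ) (u : ℝ) : ‖Complex.exp (-w * u)‖ = Real.exp (-w.re * u) := by
  rw [Complex.norm_exp]
  congr 1
  simp

theorem lapl : S_D := by
  intro b E B1 B2 hE hpos hneg
  have hB1 : 0 ≤ B1 := by
    have h := hpos 0 le_rfl
    rw [mul_zero, Real.exp_zero, mul_one] at h
    exact (norm_nonneg _).trans h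
  have hB2 : 0 ≤ B2 := by
    have h := (norm_nonneg _).trans (hneg (-1) (by norm_num))
    by_contra hc
    push Not at hc
    have := mul_neg_of_neg_of_pos hc (Real.exp_pos (-(-1 : ℝ) ^ 2))
    linarith
  have hmeas : ∀ w : ℂ, AEStronglyMeasurable (fun u : ℝ => E u * Complex.exp (-w * u)) volume := by
    intro w
    refine (hE.mul ?_).aestronglyMeasurable
    fun_prop
  -- the bound
  have hle : ∀ (w : ℂ) (u : ℝ), ‖E u * Complex.exp (-w * u)‖ ≤ maj B1 B2 (w.re - b) w.re u := by
    intro w u
    rw [norm_mul, norm_cexp]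
    rcases le_or_gt 0 u with hu | hu
    · refine le_maj_left hB2 hu ?_
      calc ‖E u‖ * Real.exp (-w.re * u) ≤ B1 * Real.exp (b * u) * Real.exp (-w.re * u) := by
            gcongr
            exact hpos u hu
        _ = B1 * Real.exp (-(w.re - b) * u) := by
            rw [mul_assoc, ← Real.exp_add]
            congr 2
            ring
    · refine le_maj_right hu ?_
      calc ‖E u‖ * Real.exp (-w.re * u) ≤ B2 * Real.exp (-u ^ 2) * Real.exp (-w.re * u) := by
            gcongr
            exact hneg u hu
        _ = B2 * Real.exp (-u ^ 2 - w.re * u) := by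
            rw [mul_assoc, ← Real.exp_add]
            congr 2
            ring
  have hint : ∀ w : ℂ, b < w.re → Integrable (fun u : ℝ => E u * Complex.exp (-w * u)) := by
    intro w hw
    exact (maj_int B1 B2 w.re (sub_pos.2 hw)).1.mono' (hmeas w) (Eventually.of_forall (hle w))
  refine ⟨?_, fun w hw => ⟨hint w hw, ?_⟩⟩
  · intro w0 hw0
    have hw0' : b < w0.re := hw0
    refine DifferentiableAt.differentiableWithinAt ?_
    set δ : ℝ := (w0.re - b) / 3 with hδ
    have hδ0 : 0 < δ := by rw [hδ]; linarith
    have hb : b = w0.re - 3 * δ := by rw [hδ]; ring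
    have key := hasDerivAt_integral_of_dominated_loc_of_deriv_le (μ := (volume : Measure ℝ))
      (F := fun (w : ℂ) (u : ℝ) => E u * Complex.exp (-w * u))
      (F' := fun (w : ℂ) (u : ℝ) => E u * (Complex.exp (-w * u) * (-(u : ℂ))))
      (x₀ := w0) (s := ball w0 δ) (bound := maj (B1 / δ) B2 δ (w0.re + δ + 1))
      (ball_mem_nhds w0 hδ0) (Eventually.of_forall hmeas) (hint w0 hw0') ?_ ?_
      (maj_int _ _ _ hδ0).1 ?_
    · exact key.2.differentiableAt
    · refine (hE.mul ?_).aestronglyMeasurable
      fun_prop
    · refine Eventually.of_forall fun u w hw => ?_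
      have hre : |w.re - w0.re| < δ := by
        rw [mem_ball, dist_eq_norm] at hw
        have := Complex.abs_re_le_norm (w - w0)
        rw [Complex.sub_re] at this
        linarith
      obtain ⟨h1, h2⟩ := abs_lt.1 hre
      rw [norm_mul, norm_mul, norm_cexp, norm_neg, Complex.norm_real, Real.norm_eq_abs]
      rcases le_or_gt 0 u with hu | hu
      · refine le_maj_left hB2 hu ?_
        rw [abs_of_nonneg hu]
        have h3 : u ≤ Real.exp (δ * u) / δ := by
          rw [le_div_iff₀ hδ0]
          have := Real.add_one_le_exp (δ * u)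
          linarith [mul_comm u δ]
        calc ‖E u‖ * (Real.exp (-w.re * u) * u)
            ≤ B1 * Real.exp (b * u) * (Real.exp (-(w0.re - δ) * u) * (Real.exp (δ * u) / δ)) := by
              gcongr
              · exact hpos u hu
              · linarith
          _ = B1 / δ * Real.exp (-δ * u) := by
              rw [hb]
              have h4 : Real.exp (-δ * u) = Real.exp ((w0.re - 3 * δ) * u) *
                  (Real.exp (-(w0.re - δ) * u) * Real.exp (δ * u)) := by
                rw [← Real.exp_add, ← Real.exp_add]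
                congr 1
                ring
              rw [h4]
              ring
      · refine le_maj_right hu ?_
        rw [abs_of_neg hu]
        have h3 : -u ≤ Real.exp (-u) := by
          have := Real.add_one_le_exp (-u)
          linarith
        calc ‖E u‖ * (Real.exp (-w.re * u) * -u)
            ≤ B2 * Real.exp (-u ^ 2) * (Real.exp (-(w0.re + δ) * u) * Real.exp (-u)) := by
              refine mul_le_mul (hneg u hu) (mul_le_mul (Real.exp_le_exp.2 ?_) h3 (by linarith)
                (Real.exp_pos _).le) (mul_nonneg (Real.exp_pos _).le (by linarith))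
                (mul_nonneg hB2 (Real.exp_pos _).le)
              nlinarith
          _ = B2 * Real.exp (-u ^ 2 - (w0.re + δ + 1) * u) := by
              rw [mul_assoc, ← Real.exp_add, ← Real.exp_add]
              congr 2
              ring
    · refine Eventually.of_forall fun u w _ => ?_
      have h1 : HasDerivAt (fun w : ℂ => -w * (u : ℂ)) (-(u : ℂ)) w := by
        simpa using ((hasDerivAt_id w).neg).mul_const (u : ℂ)
      exact h1.cexp.const_mul (E u)
  · have h1 := maj_int B1 B2 w.re (sub_pos.2 hw)
    rw [← h1.2]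
    exact norm_integral_le_of_norm_le h1.1 (Eventually.of_forall (hle w))

end Pool.Agent.W5h55.MO
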