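import Pool.Agent.W5h55.MO.Defs5

set_option autoImplicit false

/-!
# Bounds for divided differences
-/

namespace Pool.Agent.W5h55.MO

open Finset Complex MeasureTheory

namespace DDx

variable {ι : Type} [DecidableEq ι]

/-- the divided difference -/
noncomputable def Dv (a : ι → ℂ) (s : Finset ι) (g : ℂ → ℂ) : ℂ :=
  ∑ i ∈ s, g (a i) * Lagrange.nodalWeight s a i

theorem weight_sum {a : ι → ℂ} (ha : Function.Injective a) {s : Finset ι} (hs : s.Nonempty)
    {j : ι} (hj : j ∉ s) :
    ∑ i ∈ s, Lagrange.nodalWeight s a i * (a j - a i)⁻¹ = ∏ i ∈ s, (a j - a i)⁻¹ := by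
  have h1 := congrArg (Polynomial.eval (a j)) (Lagrange.sum_basis (v := a) ha.injOn hs)
  rw [Polynomial.eval_finset_sum, Polynomial.eval_one] at h1
  have h2 : ∀ i ∈ s, Polynomial.eval (a j) (Lagrange.basis s a i) =
      Polynomial.eval (a j) (Lagrange.nodal s a) *
        (Lagrange.nodalWeight s a i * (a j - a i)⁻¹) := by
    intro i hi
    apply Lagrange.eval_basis_not_at_node hi
    intro h
    exact hj (ha h ▸ hi)
  rw [Finset.sum_congr rfl h2, ← Finset.mul_sum, Lagrange.eval_nodal] at h1
  rw [Finset.prod_inv_distrib]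
  exact eq_inv_of_mul_eq_one_right h1

theorem Dv_insert {a : ι → ℂ} (ha : Function.Injective a) {s : Finset ι} (hs : s.Nonempty)
    {j : ι} (hj : j ∉ s) (g : ℂ → ℂ) :
    Dv a (insert j s) g = Dv a s (dslope g (a j)) := by
  have hne : ∀ i ∈ s, a i ≠ a j := fun i hi h => hj (ha h ▸ hi)
  unfold Dv
  rw [Finset.sum_insert hj]
  have h1 : Lagrange.nodalWeight (insert j s) a j = ∏ i ∈ s, (a j - a i)⁻¹ := by
    unfold Lagrange.nodalWeight
    rw [Finset.erase_insert hj]
  have h2 : ∀ i ∈ s, Lagrange.nodalWeight (insert j s) a i =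
      (a i - a j)⁻¹ * Lagrange.nodalWeight s a i := by
    intro i hi
    unfold Lagrange.nodalWeight
    have hij : i ≠ j := fun h => hj (h ▸ hi)
    rw [Finset.erase_insert_of_ne hij.symm, Finset.prod_insert]
    intro h
    exact hj (Finset.mem_of_mem_erase h)
  rw [h1, ← weight_sum ha hs hj, Finset.mul_sum, ← Finset.sum_add_distrib]
  refine Finset.sum_congr rfl fun i hi => ?_
  rw [h2 i hi, dslope_of_ne _ (hne i hi), slope_def_field]
  have h3 : a i - a j ≠ 0 := sub_ne_zero.2 (hne i hi)
  have h4 : a j - a i ≠ 0 := sub_ne_zero.2 (hne i hi).symm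
  have h5 : (a j - a i)⁻¹ = -(a i - a j)⁻¹ := by
    rw [← inv_neg, neg_sub]
  rw [h5]
  field_simp
  ring

theorem bound (a : ι → ℂ) (ha : Function.Injective a) (K : Set ℂ) (hK : Convex ℝ K)
    (haK : ∀ i, a i ∈ K) (δ : ℝ) (hδ : 0 < δ) (m : ℕ) :
    ∀ (s : Finset ι) (ρ B : ℝ) (g : ℂ → ℂ), s.card = m + 1 → m * δ < ρ →
      DifferentiableOn ℂ g (Metric.thickening ρ K) → (∀ w ∈ Metric.thickening ρ K, ‖g w‖ ≤ B) →
      ‖Dv a s g‖ ≤ B / δ ^ m := by
  induction m with
  | zero =>
    intro s ρ B g hs hρ hg hB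
    obtain ⟨i, rfl⟩ := Finset.card_eq_one.1 (by simpa using hs)
    have h1 : a i ∈ Metric.thickening ρ K :=
      Metric.self_subset_thickening (by simpa using hρ) K (haK i)
    unfold Dv
    simp only [Finset.sum_singleton]
    have h2 : Lagrange.nodalWeight {i} a i = 1 := by
      unfold Lagrange.nodalWeight
      simp
    rw [h2, mul_one, pow_zero, div_one]
    exact hB _ h1
  | succ m ih =>
    intro s ρ B g hs hρ hg hB
    have hρ' : (m : ℝ) * δ < ρ - δ := by push_cast at hρ; linarith
    have hρ0 : 0 < ρ - δ := lt_of_le_of_lt (by positivity) hρ'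
    obtain ⟨j, hj⟩ : s.Nonempty := Finset.card_pos.1 (by omega)
    have hs' : (s.erase j).card = m + 1 := by rw [Finset.card_erase_of_mem hj]; omega
    have hne : (s.erase j).Nonempty := Finset.card_pos.1 (by omega)
    have e : s = insert j (s.erase j) := (Finset.insert_erase hj).symm
    rw [e, Dv_insert ha hne (Finset.notMem_erase j s)]
    have hopen : IsOpen (Metric.thickening ρ K) := Metric.isOpen_thickening
    have hsub : Metric.thickening (ρ - δ) K ⊆ Metric.thickening ρ K :=
      Metric.thickening_mono (by linarith) K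
    -- closed balls
    have hball : ∀ v ∈ Metric.thickening (ρ - δ) K, ∀ r < δ, Metric.closedBall v r ⊆
        Metric.thickening ρ K := by
      intro v hv r hr x hx
      rw [Metric.mem_thickening_iff] at hv ⊢
      obtain ⟨z, hz, hvz⟩ := hv
      refine ⟨z, hz, ?_⟩
      have h1 := dist_triangle x v z
      rw [Metric.mem_closedBall] at hx
      linarith
    have haρ : a j ∈ Metric.thickening ρ K :=
      Metric.self_subset_thickening (by linarith) K (haK j)
    have haρ' : a j ∈ Metric.thickening (ρ - δ) K :=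
      Metric.self_subset_thickening hρ0 K (haK j)
    have hB0 : 0 ≤ B := (norm_nonneg _).trans (hB _ haρ)
    -- the derivative
    have hderiv : ∀ v ∈ Metric.thickening (ρ - δ) K, ‖deriv g v‖ ≤ B / δ := by
      intro v hv
      have h1 : ∀ r, 0 < r → r < δ → ‖deriv g v‖ ≤ B / r := by
        intro r hr hrδ
        apply Complex.norm_deriv_le_of_forall_mem_sphere_norm_le hr
        · have h2 : DifferentiableOn ℂ g (Metric.closedBall v r) := hg.mono (hball v hv r hrδ)
          refine DifferentiableOn.diffContOnCl ?_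
          rw [closure_ball v hr.ne']
          exact h2
        · intro x hx
          exact hB x (hball v hv r hrδ (Metric.sphere_subset_closedBall hx))
      have h2 : Filter.Tendsto (fun r : ℝ => B / r) (nhdsWithin δ (Set.Iio δ)) (nhds (B / δ)) := by
        apply Filter.Tendsto.mono_left _ nhdsWithin_le_nhds
        exact (continuousAt_const.div continuousAt_id hδ.ne').tendsto
      refine ge_of_tendsto h2 ?_
      have h3 : ∀ᶠ r in nhdsWithin δ (Set.Iio δ), r ∈ Set.Ioo 0 δ := Ioo_mem_nhdsLT hδ
      filter_upwards [h3] with r hr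
      exact h1 r hr.1 hr.2
    have hconv : Convex ℝ (Metric.thickening (ρ - δ) K) := hK.thickening _
    have hbd : ∀ w ∈ Metric.thickening (ρ - δ) K, ‖dslope g (a j) w‖ ≤ B / δ := by
      intro w hw
      by_cases hwa : w = a j
      · rw [hwa, dslope_same]
        exact hderiv _ haρ'
      · rw [dslope_of_ne _ hwa, slope_def_field, norm_div]
        have h1 := hconv.norm_image_sub_le_of_norm_deriv_le (𝕜 := ℂ) (f := g) (C := B / δ)
          (fun x hx => hg.differentiableAt (hopen.mem_nhds (hsub hx))) hderiv haρ' hw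
        rw [div_le_iff₀ (norm_pos_iff.2 (sub_ne_zero.2 hwa))]
        exact h1
    have hdiff : DifferentiableOn ℂ (dslope g (a j)) (Metric.thickening ρ K) :=
      (Complex.differentiableOn_dslope (hopen.mem_nhds haρ)).2 hg
    have h1 := ih (s.erase j) (ρ - δ) (B / δ) (dslope g (a j)) hs' hρ' (hdiff.mono hsub) hbd
    refine h1.trans (le_of_eq ?_)
    rw [div_div, pow_succ, mul_comm]

end DDx

open DDx

theorem dd : S_DD := by
  intro ι _ _ _ a K ρ B g ha hK haK hρ hg hB
  have hn : 0 < Fintype.card ι := Fintype.card_pos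
  obtain ⟨m, hm⟩ : ∃ m, Fintype.card ι = m + 1 := ⟨Fintype.card ι - 1, by omega⟩
  have h1 := bound a ha K hK haK (ρ / (m + 1)) (by positivity) m univ ρ B g
    (by rw [Finset.card_univ, hm]) (by
      rw [mul_div_assoc', div_lt_iff₀ (by positivity)]
      nlinarith) hg hB
  have e : ∑ i, g (a i) / ∏ i' ∈ univ.erase i, (a i - a i') = Dv a univ g := by
    unfold Dv Lagrange.nodalWeight
    refine Finset.sum_congr rfl fun i _ => ?_
    rw [Finset.prod_inv_distrib, div_eq_mul_inv]
  rw [e]
  refine h1.trans (le_of_eq ?_)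
  rw [hm, Nat.add_sub_cancel, div_pow, div_div_eq_mul_div]
  push_cast
  rw [div_pow]
  ring

end Pool.Agent.W5h55.MO
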