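import Mathlib

set_option autoImplicit false

/-!
# Smoothed sums with Gaussian weights (in the logarithm), and the statements of five lemmas
-/

namespace Pool.Agent.W5h55.MO

open Finset Complex MeasureTheory

/-- The smoothed sum `∑ α(d) exp(-(log d - u)² - i v (log d - u))`, that is `∑ α(d) g(d / X)` for
`X = e^u` and `g(x) = x^{-iv} exp(-(log x)²)`. -/
noncomputable def SS (α : ℕ → ℂ) (v u : ℝ) : ℂ :=
  ∑' d : ℕ, α d * Complex.exp (-((Real.log d - u : ℝ) : ℂ) ^ 2 - I * v * ((Real.log d - u : ℝ) : ℂ))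

/-- The Dirichlet series. -/
noncomputable def DS (α : ℕ → ℂ) (w : ℂ) : ℂ := ∑' d : ℕ, α d * (d : ℂ) ^ (-w)

/-- (A) Interpolation. -/
def S_A : Prop := ∀ (ι : Type) [Fintype ι] [DecidableEq ι] (a c : ι → ℂ)
  (x : Fin (Fintype.card ι) → ℂ), (∀ m m', m ≠ m' → 1 ≤ ‖x m - x m'‖) → ∀ w : ℂ,
  ‖∑ i, c i * ∏ i' ∈ univ.erase i, (w - a i')‖ ≤
    ∑ m, ‖∑ i, c i * ∏ i' ∈ univ.erase i, (x m - a i')‖ * ∏ m' ∈ univ.erase m, ‖w - x m'‖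

/-- (B) The smoothed sums. -/
def S_B : Prop := ∀ κ : ℝ, 0 ≤ κ → ∃ Z : ℝ, 0 < Z ∧ ∀ (α : ℕ → ℂ) (A : ℝ), 0 ≤ A → α 0 = 0 →
  (∀ d : ℕ, ‖α d‖ ≤ A * (d : ℝ) ^ κ) →
  (∀ v : ℝ, Measurable (SS α v)) ∧
  (∀ v u : ℝ, u ≤ 0 → ‖SS α v u‖ ≤ A * Z * Real.exp (-u ^ 2)) ∧
  ∀ (v : ℝ) (w : ℂ), κ + 1 < w.re →
    Integrable (fun u : ℝ => SS α v u * Complex.exp (-w * u)) ∧
    ∫ u : ℝ, SS α v u * Complex.exp (-w * u) =
      (Real.sqrt Real.pi : ℂ) * Complex.exp ((w - I * v) ^ 2 / 4) * DS α w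

/-- (D) A two-sided Laplace transform. -/
def S_D : Prop := ∀ (b : ℝ) (E : ℝ → ℂ) (B1 B2 : ℝ), Measurable E →
  (∀ u : ℝ, 0 ≤ u → ‖E u‖ ≤ B1 * Real.exp (b * u)) →
  (∀ u : ℝ, u < 0 → ‖E u‖ ≤ B2 * Real.exp (-u ^ 2)) →
  DifferentiableOn ℂ (fun w : ℂ => ∫ u : ℝ, E u * Complex.exp (-w * u)) {w | b < w.re} ∧
  ∀ w : ℂ, b < w.re → Integrable (fun u : ℝ => E u * Complex.exp (-w * u)) ∧
    ‖∫ u : ℝ, E u * Complex.exp (-w * u)‖ ≤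
      B1 / (w.re - b) + B2 * (Real.sqrt Real.pi * Real.exp (w.re ^ 2 / 4))

/-- The kernel. -/
noncomputable def KK (v u : ℝ) (w : ℂ) : ℂ := Complex.exp ((w - I * v) ^ 2 / 4 + w * u)

/-- (H) Moving the line of integration across simple poles `a i`. -/
def S_H : Prop := ∀ (ι : Type) [Fintype ι] [DecidableEq ι] (a : ι → ℂ) (b b' T : ℝ) (f : ℂ → ℂ)
  (C : ℝ) (N : ℕ) (v u : ℝ), Function.Injective a → b < b' → (∀ i, b' < (a i).re) →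
  (∀ i, (a i).re < T) → b' < T → DifferentiableOn ℂ f {w | b < w.re} →
  (∀ w : ℂ, b < w.re → w.re ≤ T → ‖f w‖ ≤ C * (1 + ‖w‖) ^ N) →
  ∫ y : ℝ, KK v u (T + y * I) * f (T + y * I) / ∏ i, (T + y * I - a i) =
    (∫ y : ℝ, KK v u (b' + y * I) * f (b' + y * I) / ∏ i, (b' + y * I - a i)) +
    2 * Real.pi * ∑ i, KK v u (a i) * f (a i) / ∏ i' ∈ univ.erase i, (a i - a i')

/-- (I) Inversion. -/
def S_I : Prop := ∀ (κ : ℝ) (α : ℕ → ℂ) (A : ℝ), 0 ≤ κ → α 0 = 0 →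
  (∀ d : ℕ, ‖α d‖ ≤ A * (d : ℝ) ^ κ) → ∀ (T v u : ℝ), κ + 1 < T →
  ∫ y : ℝ, KK v u (T + y * I) * DS α (T + y * I) = 2 * (Real.sqrt Real.pi : ℂ) * SS α v u

end Pool.Agent.W5h55.MO
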