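import Pool.Agent.W5h55.MO.Defs

set_option autoImplicit false

/-!
# Two more statements
-/

namespace Pool.Agent.W5h55.MO

open Finset Complex MeasureTheory

/-- (E) The integral over a vertical line. -/
def S_E : Prop := ∀ (b : ℝ) (N : ℕ), ∃ Z : ℝ, 0 ≤ Z ∧ ∀ (v u τ C : ℝ) (h : ℝ → ℂ), 0 ≤ τ → 0 ≤ C →
  (∀ y : ℝ, ‖h y‖ ≤ C * (1 + τ + |y|) ^ N) →
  ‖∫ y : ℝ, KK v u (b + y * I) * h y‖ ≤ C * Z * (1 + τ + |v|) ^ N * Real.exp (b * u)

/-- (N) For almost all `t` the sums over subsets are distinct. -/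
def S_N : Prop := ∀ k : ℕ, ∀ᵐ t : Fin k → ℝ,
  Function.Injective (fun J : Finset (Fin k) => ∑ j ∈ J, t j)

end Pool.Agent.W5h55.MO
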