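import Mathlib

set_option autoImplicit false

/-!
# The weight functions
-/

namespace Pool.Agent.W5h55.MO

open Complex MeasureTheory

/-- The weight function `g_v(x) = x^{-iv} exp(-(log x)²)`. -/
noncomputable def gw (v x : ℝ) : ℂ :=
  (x : ℂ) ^ (-((v : ℂ) * I)) * (Real.exp (-(Real.log x) ^ 2) : ℂ)

/-- (M) Its Mellin transform. -/
def S_M : Prop := ∀ (v : ℝ) (a : ℂ),
  mellin (gw v) a = (Real.sqrt Real.pi : ℂ) * Complex.exp ((a - I * v) ^ 2 / 4)

end Pool.Agent.W5h55.MO
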