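import Pool.Agent.W5h55.MO.Defs

set_option autoImplicit false

/-!
# Sums with a sharp cutoff
-/

namespace Pool.Agent.W5h55.MO

open Finset Complex MeasureTheory

/-- The sum over `1 ≤ d ≤ x`. -/
noncomputable def SC (α : ℕ → ℂ) (x : ℝ) : ℂ := ∑ d ∈ Icc 1 ⌊x⌋₊, α d

/-- (C) The Laplace transform of the sums. -/
def S_C : Prop := ∀ (κ A : ℝ) (α : ℕ → ℂ), 0 ≤ κ → 0 ≤ A → α 0 = 0 →
  (∀ d : ℕ, ‖α d‖ ≤ A * (d : ℝ) ^ κ) →
  Measurable (fun u : ℝ => SC α (Real.exp u)) ∧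
  ∀ w : ℂ, κ + 1 < w.re →
    Integrable (fun u : ℝ => (if 0 ≤ u then SC α (Real.exp u) else 0) * Complex.exp (-w * u)) ∧
    ∫ u : ℝ, (if 0 ≤ u then SC α (Real.exp u) else 0) * Complex.exp (-w * u) = DS α w / w

end Pool.Agent.W5h55.MO
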