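import Pool.Agent.W5h55.MO.Defs4

set_option autoImplicit false

/-!
# From the continuation to sums with a sharp cutoff: statements
-/

namespace Pool.Agent.W5h55.MO

open Finset Complex MeasureTheory

/-- The smoothed step. -/
noncomputable def St (η y : ℝ) : ℝ :=
  (Real.sqrt Real.pi)⁻¹ * ∫ r in Set.Ioi (y / η), Real.exp (-r ^ 2)

/-- The smoothed sum. -/
noncomputable def SE (α : ℕ → ℂ) (η u : ℝ) : ℂ := ∑' d : ℕ, α d * (St η (Real.log d - u) : ℂ)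

/-- The kernel of width `η`. -/
noncomputable def KE (η u : ℝ) (w : ℂ) : ℂ := Complex.exp ((η : ℂ) ^ 2 * w ^ 2 / 4 + w * u)

/-- (DD) Divided differences. -/
def S_DD : Prop := ∀ (ι : Type) [Fintype ι] [DecidableEq ι] [Nonempty ι] (a : ι → ℂ) (K : Set ℂ)
  (ρ B : ℝ) (g : ℂ → ℂ), Function.Injective a → Convex ℝ K → (∀ i, a i ∈ K) → 0 < ρ →
  DifferentiableOn ℂ g (Metric.thickening ρ K) → (∀ w ∈ Metric.thickening ρ K, ‖g w‖ ≤ B) →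
  ‖∑ i, g (a i) / ∏ i' ∈ univ.erase i, (a i - a i')‖ ≤
    ((Fintype.card ι : ℝ) / ρ) ^ (Fintype.card ι - 1) * B

/-- (IV) Inversion for the smoothed step. -/
def S_IV : Prop := ∀ (κ : ℝ) (α : ℕ → ℂ) (A : ℝ), 0 ≤ κ → α 0 = 0 →
  (∀ d : ℕ, ‖α d‖ ≤ A * (d : ℝ) ^ κ) → ∀ (T u η : ℝ), κ + 1 < T → 0 < η →
  ∫ y : ℝ, KE η u (T + y * I) * (DS α (T + y * I) / (T + y * I)) = 2 * Real.pi * SE α η u

/-- (KH) Moving the line of integration, kernel of width `η`. -/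
def S_KH : Prop := ∀ (ι : Type) [Fintype ι] [DecidableEq ι] (a : ι → ℂ) (b b' T : ℝ) (f : ℂ → ℂ)
  (C : ℝ) (N : ℕ) (u η : ℝ), Function.Injective a → b < b' → (∀ i, b' < (a i).re) →
  (∀ i, (a i).re < T) → b' < T → 0 < η → DifferentiableOn ℂ f {w | b < w.re} →
  (∀ w : ℂ, b < w.re → w.re ≤ T → ‖f w‖ ≤ C * (1 + ‖w‖) ^ N) →
  ∫ y : ℝ, KE η u (T + y * I) * f (T + y * I) / ∏ i, (T + y * I - a i) =
    (∫ y : ℝ, KE η u (b' + y * I) * f (b' + y * I) / ∏ i, (b' + y * I - a i)) +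
    2 * Real.pi * ∑ i, KE η u (a i) * f (a i) / ∏ i' ∈ univ.erase i, (a i - a i')

/-- (EB) The integral over a vertical line, kernel of width `η`. -/
def S_EB : Prop := ∀ (b : ℝ) (N : ℕ), ∃ Z : ℝ, 0 ≤ Z ∧ ∀ (u τ C η : ℝ) (h : ℝ → ℂ), 0 ≤ τ →
  0 ≤ C → 0 < η → η ≤ 1 → (∀ y : ℝ, ‖h y‖ ≤ C * (1 + τ + |y|) ^ N) →
  ‖∫ y : ℝ, KE η u (b + y * I) * h y‖ ≤ C * Z * (1 + τ) ^ N * Real.exp (b * u) * (1 / η) ^ (N + 1)

/-- (SD) The smoothed sum against the sharp one. -/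
def S_SD : Prop := ∀ ε : ℝ, 0 ≤ ε → ε ≤ 1 → ∃ Z : ℝ, 0 ≤ Z ∧ ∀ (α : ℕ → ℂ) (A : ℝ), 0 ≤ A →
  α 0 = 0 → (∀ d : ℕ, ‖α d‖ ≤ A * (d : ℝ) ^ ε) → ∀ u η : ℝ, 0 ≤ u → 0 < η → η ≤ 1 →
  ‖SE α η u - SC α (Real.exp u)‖ ≤
    A * Z * (η * Real.exp ((1 + ε) * u) + Real.exp (ε * u))

end Pool.Agent.W5h55.MO
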