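import Pool.Agent.W5h55.MC.Ser

set_option autoImplicit false

/-!
# The Lindelöf bound on the critical line: statement
-/

namespace Pool.Agent.W5h55.MO

open Complex Pool.Agent.W5h65.MD Pool.Agent.W5h55.MC

/-- (L2) From `Re s ≥ 1/2 + ε` to `Re s = 1/2` (functional equation, Phragmén–Lindelöf). -/
def S_L2 : Prop := ∀ Λ : ℕ → ℂ → ℂ, IsCont Λ →
  (∀ ε B : ℝ, 0 < ε → ∃ (C : ℝ) (A : ℕ), ∀ (d : ℕ) (s : ℂ), IsFund d → 1 < d →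
    1 / 2 + ε ≤ s.re → s.re ≤ B → ‖Λ d s‖ ≤ C * (1 + ‖s‖) ^ A * (d : ℝ) ^ ε) →
  ∀ ε : ℝ, 0 < ε → ∃ (C : ℝ) (A : ℕ), 0 ≤ C ∧ ∀ (d : ℕ) (t : ℝ), IsFund d → 1 < d →
    ‖Λ d (1 / 2 + t * I)‖ ≤ C * (1 + |t|) ^ A * (d : ℝ) ^ ε

end Pool.Agent.W5h55.MO
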