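import Pool.Agent.W5h55.MO.Defs2

set_option autoImplicit false

/-!
# The integral of the kernel against a function of polynomial growth on a vertical line
-/

namespace Pool.Agent.W5h55.MO

open Finset Complex MeasureTheory Filter

namespace ErrE

/-- The norm of the kernel on a vertical line. -/
theorem norm_KK_line (v u b y : ℝ) : ‖KK v u (b + y * I)‖ =
    Real.exp (b ^ 2 / 4) * Real.exp (-(y - v) ^ 2 / 4) * Real.exp (b * u) := by
  rw [KK, Complex.norm_exp, ← Real.exp_add, ← Real.exp_add]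
  congr 1
  simp [sq]
  ring

/-- Polynomial times Gaussian is integrable. -/
theorem int_poly_gauss (N : ℕ) : Integrable fun y : ℝ => (1 + |y|) ^ N * Real.exp (-y ^ 2 / 4) := by
  refine Integrable.mono' ((integrable_exp_neg_mul_sq (b := 1 / 8) (by norm_num)).const_mul
    (N.factorial * Real.exp 3)) (Continuous.aestronglyMeasurable (by fun_prop))
    (Eventually.of_forall fun y => ?_)
  have h0 : 0 ≤ |y| := abs_nonneg y
  rw [Real.norm_of_nonneg (by positivity)]
  have h1 := Real.pow_div_factorial_le_exp (1 + |y|) (by linarith) N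
  rw [div_le_iff₀ (by positivity)] at h1
  calc (1 + |y|) ^ N * Real.exp (-y ^ 2 / 4)
      ≤ (Real.exp (1 + |y|) * N.factorial) * Real.exp (-y ^ 2 / 4) := by gcongr
    _ = N.factorial * Real.exp (1 + |y| + -y ^ 2 / 4) := by rw [Real.exp_add (1 + |y|)]; ring
    _ ≤ N.factorial * Real.exp (3 + -(1 / 8) * y ^ 2) := by
        refine mul_le_mul_of_nonneg_left (Real.exp_le_exp.2 ?_) (by positivity)
        have : y ^ 2 = |y| ^ 2 := (sq_abs y).symm
        rw [this]
        nlinarith [sq_nonneg (|y| - 4)]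
    _ = N.factorial * Real.exp 3 * Real.exp (-(1 / 8) * y ^ 2) := by rw [Real.exp_add]; ring

end ErrE

open ErrE

theorem errb : S_E := by
  intro b N
  refine ⟨Real.exp (b ^ 2 / 4) * ∫ y : ℝ, (1 + |y|) ^ N * Real.exp (-y ^ 2 / 4), ?_, ?_⟩
  · exact mul_nonneg (Real.exp_pos _).le (integral_nonneg fun y => by positivity)
  intro v u τ C h hτ hC hh
  have hI := (int_poly_gauss N).comp_sub_right v
  have hI2 := hI.const_mul (C * (1 + τ + |v|) ^ N * Real.exp (b * u) * Real.exp (b ^ 2 / 4))
  have hle : ∀ y : ℝ, ‖KK v u (b + y * I) * h y‖ ≤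
      (C * (1 + τ + |v|) ^ N * Real.exp (b * u) * Real.exp (b ^ 2 / 4)) *
      ((1 + |y - v|) ^ N * Real.exp (-(y - v) ^ 2 / 4)) := by
    intro y
    rw [norm_mul, norm_KK_line]
    have h1 : 1 + τ + |y| ≤ (1 + τ + |v|) * (1 + |y - v|) := by
      have h2 : |y| ≤ |y - v| + |v| := by
        calc |y| = |y - v + v| := by ring_nf
          _ ≤ |y - v| + |v| := abs_add_le _ _
      have h3 : 0 ≤ |v| := abs_nonneg v
      have h4 : 0 ≤ |y - v| := abs_nonneg _
      nlinarith [mul_nonneg hτ h4, mul_nonneg h3 h4]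
    calc Real.exp (b ^ 2 / 4) * Real.exp (-(y - v) ^ 2 / 4) * Real.exp (b * u) * ‖h y‖
        ≤ Real.exp (b ^ 2 / 4) * Real.exp (-(y - v) ^ 2 / 4) * Real.exp (b * u) *
          (C * ((1 + τ + |v|) * (1 + |y - v|)) ^ N) := by
          gcongr
          refine (hh y).trans ?_
          gcongr
      _ = _ := by rw [mul_pow]; ring
  have hmain := norm_integral_le_of_norm_le hI2 (Eventually.of_forall hle)
  rw [integral_const_mul, integral_sub_right_eq_self (μ := (volume : Measure ℝ))
    (fun y : ℝ => (1 + |y|) ^ N * Real.exp (-y ^ 2 / 4)) v] at hmain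
  refine hmain.trans (le_of_eq ?_)
  ring

end Pool.Agent.W5h55.MO
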