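import Pool.Agent.W5h55.MO.Defs5
import Pool.Agent.W5h55.MO.E

set_option autoImplicit false

/-!
# The integral over a vertical line, kernel of width `η`
-/

namespace Pool.Agent.W5h55.MO

open Finset Complex MeasureTheory Filter

namespace ErrEB

/-- The norm of the kernel on a vertical line. -/
theorem norm_KE_line (η u b y : ℝ) : ‖KE η u (b + y * I)‖ =
    Real.exp (η ^ 2 * b ^ 2 / 4) * Real.exp (-(η * y) ^ 2 / 4) * Real.exp (b * u) := by
  rw [KE, Complex.norm_exp, ← Real.exp_add, ← Real.exp_add]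
  congr 1
  have h1 : ((η : ℂ) ^ 2 * ((b : ℂ) + y * I) ^ 2 / 4 + ((b : ℂ) + y * I) * u) =
      ((η ^ 2 * b ^ 2 / 4 + -(η * y) ^ 2 / 4 + b * u : ℝ) : ℂ) +
        ((η ^ 2 * (2 * b * y) / 4 + y * u : ℝ) : ℂ) * I := by
    push_cast
    linear_combination ((η : ℂ) ^ 2 * (y : ℂ) ^ 2 / 4) * Complex.I_sq
  rw [h1, Complex.add_re, Complex.ofReal_re, Complex.re_ofReal_mul, Complex.I_re, mul_zero, add_zero]

end ErrEB

open ErrEB ErrE

theorem erre : S_EB := by
  intro b N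
  refine ⟨Real.exp (b ^ 2 / 4) * ∫ y : ℝ, (1 + |y|) ^ N * Real.exp (-y ^ 2 / 4), ?_, ?_⟩
  · exact mul_nonneg (Real.exp_pos _).le (integral_nonneg fun y => by positivity)
  intro u τ C η h hτ hC hη hη1 hh
  have hI := (int_poly_gauss N).comp_mul_left' hη.ne'
  have hI2 := hI.const_mul (C * (1 + τ) ^ N * Real.exp (b * u) * Real.exp (b ^ 2 / 4) *
    (1 / η) ^ N)
  have hle : ∀ y : ℝ, ‖KE η u (b + y * I) * h y‖ ≤
      (C * (1 + τ) ^ N * Real.exp (b * u) * Real.exp (b ^ 2 / 4) * (1 / η) ^ N) *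
      ((1 + |η * y|) ^ N * Real.exp (-(η * y) ^ 2 / 4)) := by
    intro y
    rw [norm_mul, norm_KE_line]
    have hy0 : 0 ≤ |y| := abs_nonneg y
    have h1 : 1 + τ + |y| ≤ (1 + τ) * ((1 / η) * (1 + |η * y|)) := by
      have h2 : (1 / η) * (1 + |η * y|) = 1 / η + |y| := by
        rw [abs_mul, abs_of_pos hη]
        field_simp
      rw [h2]
      have h3 : 1 ≤ 1 / η := by rw [le_div_iff₀ hη]; linarith
      nlinarith [mul_nonneg hτ hy0, mul_nonneg (by linarith : (0:ℝ) ≤ 1 + τ) (sub_nonneg.2 h3)]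
    have h4 : Real.exp (η ^ 2 * b ^ 2 / 4) ≤ Real.exp (b ^ 2 / 4) := by
      refine Real.exp_le_exp.2 ?_
      have h5 : η ^ 2 ≤ 1 := by nlinarith
      have h6 : 0 ≤ b ^ 2 := sq_nonneg b
      nlinarith
    calc Real.exp (η ^ 2 * b ^ 2 / 4) * Real.exp (-(η * y) ^ 2 / 4) * Real.exp (b * u) * ‖h y‖
        ≤ Real.exp (b ^ 2 / 4) * Real.exp (-(η * y) ^ 2 / 4) * Real.exp (b * u) *
          (C * ((1 + τ) * ((1 / η) * (1 + |η * y|))) ^ N) := by
          gcongr
          refine (hh y).trans ?_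
          gcongr
      _ = _ := by rw [mul_pow (1 + τ), mul_pow (1 / η)]; ring
  have hmain := norm_integral_le_of_norm_le hI2 (Eventually.of_forall hle)
  rw [integral_const_mul, Measure.integral_comp_mul_left
    (fun y : ℝ => (1 + |y|) ^ N * Real.exp (-y ^ 2 / 4)) η] at hmain
  refine hmain.trans (le_of_eq ?_)
  rw [abs_of_pos (inv_pos.2 hη), smul_eq_mul, pow_succ, one_div]
  ring

end Pool.Agent.W5h55.MO
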