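import Pool.Agent.W5h55.MO.One2
import Pool.Agent.W5h55.MO.Defs4

set_option autoImplicit false

/-!
# From asymptotic formulas for sums with a sharp cutoff to continuation
-/

namespace Pool.Agent.W5h55.MO

open Finset Complex MeasureTheory Filter Topology

variable {ι : Type} [Fintype ι] [DecidableEq ι]

/-- The remainder. -/
noncomputable def EC (α : ℕ → ℂ) (a c : ι → ℂ) (u : ℝ) : ℂ :=
  if 0 ≤ u then SC α (Real.exp u) - ∑ i, c i * Complex.exp (a i * u) else 0

/-- Its Laplace transform. -/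
noncomputable def HC (α : ℕ → ℂ) (a c : ι → ℂ) (w : ℂ) : ℂ :=
  ∫ u : ℝ, EC α a c u * Complex.exp (-w * u)

theorem HC_eq {α : ℕ → ℂ} {w : ℂ} (a c : ι → ℂ) (hw0 : w ≠ 0)
    (hS : Integrable (fun u : ℝ => (if 0 ≤ u then SC α (Real.exp u) else 0) *
      Complex.exp (-w * u)))
    (hS' : ∫ u : ℝ, (if 0 ≤ u then SC α (Real.exp u) else 0) * Complex.exp (-w * u) = DS α w / w)
    (ha : ∀ i, (a i).re < w.re) :
    w * (Pr a w * HC α a c w + Qr a c w) = DS α w * Pr a w := by
  have h1 : HC α a c w = DS α w / w - ∑ i, c i * (1 / (w - a i)) := by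
    have e : (fun u : ℝ => EC α a c u * Complex.exp (-w * u)) = fun u : ℝ =>
        (if 0 ≤ u then SC α (Real.exp u) else 0) * Complex.exp (-w * u) - ∑ i, c i *
          ((if 0 ≤ u then Complex.exp (a i * u) else 0) * Complex.exp (-w * u)) := by
      funext u
      unfold EC
      by_cases hu : 0 ≤ u
      · simp only [if_pos hu]
        rw [sub_mul, sum_mul]
        congr 1
        refine sum_congr rfl fun i _ => ?_
        ring
      · simp only [if_neg hu, sub_zero, zero_mul, mul_zero, sum_const_zero]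
    have h2 : ∀ i, Integrable (fun u : ℝ => c i *
        ((if 0 ≤ u then Complex.exp (a i * u) else 0) * Complex.exp (-w * u))) := fun i =>
      (pole_int (ha i)).1.const_mul _
    unfold HC
    rw [e, integral_sub hS (integrable_finsetSum _ fun i _ => h2 i), hS',
      integral_finsetSum _ fun i _ => h2 i]
    congr 1
    refine sum_congr rfl fun i _ => ?_
    rw [integral_const_mul, (pole_int (ha i)).2]
  have h3 : ∀ i, w - a i ≠ 0 := by
    intro i h0
    have := congrArg Complex.re h0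
    rw [Complex.sub_re, Complex.zero_re] at this
    linarith [ha i]
  have h4 : Pr a w * ∑ i, c i * (1 / (w - a i)) = Qr a c w := by
    unfold Pr Qr
    rw [mul_sum]
    refine sum_congr rfl fun i _ => ?_
    rw [← mul_prod_erase univ (fun i => w - a i) (mem_univ i)]
    field_simp [h3 i]
  rw [h1, mul_sub, h4]
  field_simp
  ring

theorem sharp (hC : S_C) (ι : Type) [Fintype ι] [DecidableEq ι] {κ b b' T : ℝ} (hκ : 0 ≤ κ)
    (hb : b < b') (hbκ : b < κ + 1) : ∃ C' : ℝ, 0 ≤ C' ∧ ∀ (α : ℕ → ℂ) (A : ℝ) (a R : ι → ℂ),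
    1 ≤ A → α 0 = 0 → (∀ d : ℕ, ‖α d‖ ≤ A * (d : ℝ) ^ κ) → (∀ i, ‖a i‖ ≤ A) →
    (∀ u : ℝ, 0 ≤ u → ‖SC α (Real.exp u) - ∑ i, R i * Complex.exp (a i * u)‖ ≤
      A * Real.exp (b * u)) →
    ∃ f : ℂ → ℂ, DifferentiableOn ℂ f {w | b < w.re} ∧
      (∀ w : ℂ, κ + 1 < w.re → f w = DS α w * ∏ i, (w - a i)) ∧
      ∀ w : ℂ, b' < w.re → w.re ≤ T → ‖f w‖ ≤ C' * (A + ‖w‖) ^ (Fintype.card ι + 1 + 1) := by
  set n : ℕ := Fintype.card ι with hn
  set T1 : ℝ := max (max T b') (κ + 2) with hT1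
  have hT1a : κ + 2 ≤ T1 := le_max_right _ _
  have hT1b : b' ≤ T1 := (le_max_right T b').trans (le_max_left _ _)
  have hT1T : T ≤ T1 := (le_max_left T b').trans (le_max_left _ _)
  have hT11 : 1 ≤ T1 := by linarith
  set X : ℝ := |b'| + |T| + |T1| with hX
  have hX0 : 0 ≤ X := by positivity
  have hbb : 0 < b' - b := by linarith
  set K1 : ℝ := 1 / (b' - b) with hK1
  have hK10 : 0 ≤ K1 := by positivity
  set Z3 : ℝ := ∑' d : ℕ, (d : ℝ) ^ (-(2 : ℝ)) with hZ3
  have hZ30 : 0 ≤ Z3 := tsum_nonneg fun _ => by positivity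
  set K3 : ℝ := |T1| + n + 1 with hK3
  have hK30 : 0 ≤ K3 := by positivity
  set K2 : ℝ := X + n + 1 with hK2
  have hK21 : 1 ≤ K2 := by
    have : (0 : ℝ) ≤ n := Nat.cast_nonneg n
    linarith
  refine ⟨K1 + n * (K3 ^ n * (Z3 + K1)) * K2 ^ n, by positivity, ?_⟩
  intro α A a R hA h0 hα ha hR
  have hA0 : 0 ≤ A := by linarith
  obtain ⟨hm, hint⟩ := hC κ A α hκ hA0 h0 hα
  have hmeas : Measurable (EC α a R) := by
    unfold EC
    refine Measurable.ite measurableSet_Ici (hm.sub ?_) measurable_const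
    exact Finset.measurable_sum _ fun i _ => by fun_prop
  have hL := lapl b (EC α a R) A 0 hmeas
    (fun u hu => by
      unfold EC
      rw [if_pos hu]
      exact hR u hu)
    (fun u hu => by
      unfold EC
      rw [if_neg (not_le.2 hu), norm_zero, zero_mul])
  have hHd : DifferentiableOn ℂ (HC α a R) {w | b < w.re} := hL.1
  have hHn : ∀ w : ℂ, b' ≤ w.re → ‖HC α a R w‖ ≤ A * K1 := by
    intro w hw
    refine (hL.2 w (by linarith)).2.trans ?_
    rw [zero_mul, add_zero, div_eq_mul_one_div]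
    refine mul_le_mul_of_nonneg_left ?_ hA0
    exact one_div_le_one_div_of_le hbb (by linarith)
  set F : ℂ → ℂ := fun w => w * (Pr a w * HC α a R w + Qr a R w) with hF
  have hFd : DifferentiableOn ℂ F {w | b < w.re} := by
    refine DifferentiableOn.mul differentiableOn_id ?_
    exact ((Pr_diff a).differentiableOn.mul hHd).add (Qr_diff a R).differentiableOn
  have hFeq : ∀ w : ℂ, κ + 1 < w.re → F w = DS α w * Pr a w := by
    refine half_eq (b := κ + 1) (ρ := A) (f := F) (g := fun w => DS α w * Pr a w)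
      (hFd.mono fun w hw => lt_trans hbκ hw) ((DS_diff h0 hα).mul (Pr_diff a).differentiableOn)
      fun w hw1 hw2 => ?_
    obtain ⟨e1, e2⟩ := hint w hw1
    have hw0 : w ≠ 0 := by
      rintro rfl
      rw [Complex.zero_re] at hw1
      linarith
    exact HC_eq a R hw0 e1 e2 fun i =>
      lt_of_le_of_lt ((Complex.re_le_norm _).trans (ha i)) hw2
  refine ⟨F, hFd, hFeq, fun w hw1 hw2 => ?_⟩
  set v : ℝ := w.im with hv
  set Y : ℝ := A + ‖w‖ with hY
  have hw0 := norm_nonneg w
  have hY1 : 1 ≤ Y := by linarith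
  have hAY : A ≤ Y := by linarith
  have hwY : ‖w‖ ≤ Y := by linarith
  have hPw : ‖Pr a w‖ ≤ Y ^ n := by
    refine (Pr_norm a ha w).trans (le_of_eq ?_)
    rw [hY, add_comm]
  set x : Fin n → ℂ := fun m => (T1 : ℂ) + ((v + m : ℝ) : ℂ) * I with hx
  have hxre : ∀ m, (x m).re = T1 := fun m => by simp [hx]
  have hxn : ∀ m, ‖x m‖ + A ≤ K3 * Y := by
    intro m
    have e1 : ‖x m‖ ≤ |T1| + (|v| + n) := by
      have h1 : ‖x m‖ ≤ ‖(T1 : ℂ)‖ + ‖((v + m : ℝ) : ℂ) * I‖ := norm_add_le _ _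
      rw [norm_mul, Complex.norm_I, mul_one, Complex.norm_real, Complex.norm_real,
        Real.norm_eq_abs, Real.norm_eq_abs] at h1
      have h2 : |v + m| ≤ |v| + n := by
        refine (abs_add_le _ _).trans ?_
        rw [Nat.abs_cast]
        have : (m : ℝ) ≤ n := by exact_mod_cast m.2.le
        linarith
      linarith
    have e2 : |v| ≤ ‖w‖ := Complex.abs_im_le_norm w
    have e3 : (0 : ℝ) ≤ |T1| + n := by positivity
    calc ‖x m‖ + A ≤ (|T1| + n) * 1 + (A + ‖w‖) := by linarith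
      _ ≤ (|T1| + n) * Y + Y := by
          have := mul_le_mul_of_nonneg_left hY1 e3
          linarith
      _ = _ := by rw [hK3]; ring
  have hPx : ∀ m, ‖Pr a (x m)‖ ≤ K3 ^ n * Y ^ n := by
    intro m
    refine (Pr_norm a ha (x m)).trans ?_
    rw [← mul_pow]
    exact pow_le_pow_left₀ (by positivity) (hxn m) _
  have hQx : ∀ m, ‖Qr a R (x m)‖ ≤ K3 ^ n * (Z3 + K1) * Y ^ (n + 1) := by
    intro m
    have h1 := hFeq (x m) (by rw [hxre]; linarith)
    have hxm : x m ≠ 0 := by
      intro h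
      have := congrArg Complex.re h
      rw [hxre, Complex.zero_re] at this
      linarith
    have h2 : Qr a R (x m) = Pr a (x m) * (DS α (x m) / x m - HC α a R (x m)) := by
      have h3 : x m * (Pr a (x m) * HC α a R (x m) + Qr a R (x m)) = DS α (x m) * Pr a (x m) := h1
      field_simp
      linear_combination h3
    have h4 : ‖DS α (x m)‖ ≤ A * Z3 := DS_norm hA0 h0 hα (by rw [hxre]; exact hT1a)
    have h5 : ‖HC α a R (x m)‖ ≤ A * K1 := hHn _ (by rw [hxre]; exact hT1b)
    have h6 : 1 ≤ ‖x m‖ := by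
      have := Complex.re_le_norm (x m)
      rw [hxre] at this
      linarith
    have h7 : ‖DS α (x m) / x m‖ ≤ A * Z3 := by
      rw [norm_div]
      exact (div_le_self (norm_nonneg _) h6).trans h4
    rw [h2, norm_mul]
    calc ‖Pr a (x m)‖ * ‖DS α (x m) / x m - HC α a R (x m)‖
        ≤ (K3 ^ n * Y ^ n) * (A * Z3 + A * K1) :=
          mul_le_mul (hPx m) ((norm_sub_le _ _).trans (add_le_add h7 h5)) (norm_nonneg _)
            (by positivity)
      _ = K3 ^ n * (Z3 + K1) * (Y ^ n * A) := by ring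
      _ ≤ K3 ^ n * (Z3 + K1) * (Y ^ n * Y) := by gcongr
      _ = _ := by rw [pow_succ]
  have hdist : ∀ m m', m ≠ m' → 1 ≤ ‖x m - x m'‖ := by
    intro m m' hmm
    have e : x m - x m' = (((m : ℝ) - (m' : ℝ) : ℝ) : ℂ) * I := by
      rw [hx]
      push_cast
      ring
    rw [e, norm_mul, Complex.norm_I, mul_one, Complex.norm_real, Real.norm_eq_abs]
    have h1 : ((m : ℕ) : ℤ) - ((m' : ℕ) : ℤ) ≠ 0 := by
      intro h
      apply hmm
      ext
      omega
    have h2 : (1 : ℤ) ≤ |((m : ℕ) : ℤ) - ((m' : ℕ) : ℤ)| := Int.one_le_abs h1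
    have h3 : ((1 : ℤ) : ℝ) ≤ ((|((m : ℕ) : ℤ) - ((m' : ℕ) : ℤ)| : ℤ) : ℝ) := by exact_mod_cast h2
    push_cast at h3
    exact h3
  have hwx : ∀ m, ‖w - x m‖ ≤ K2 := by
    intro m
    have e : w - x m = ((w.re - T1 : ℝ) : ℂ) - ((m : ℝ) : ℂ) * I := by
      apply Complex.ext
      · simp [hx]
      · simp [hx, hv]
    rw [e]
    refine (norm_sub_le _ _).trans ?_
    rw [norm_mul, Complex.norm_I, mul_one, Complex.norm_real, Complex.norm_real,
      Real.norm_eq_abs, Real.norm_eq_abs, Nat.abs_cast]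
    have h1 : |w.re - T1| ≤ |w.re| + |T1| := abs_sub _ _
    have h2 : (m : ℝ) ≤ n := by exact_mod_cast m.2.le
    have h3 : |w.re| + |T1| ≤ X := by
      have e1 : |w.re| ≤ |b'| + |T| := by
        rcases abs_cases w.re with ⟨h1, -⟩ | ⟨h1, -⟩
        · rw [h1]
          have := le_abs_self T
          have := abs_nonneg b'
          linarith
        · rw [h1]
          have := neg_abs_le b'
          have := abs_nonneg T
          linarith
      rw [hX]
      linarith
    rw [hK2]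
    linarith
  have hQ : ‖Qr a R w‖ ≤ n * (K3 ^ n * (Z3 + K1)) * K2 ^ n * Y ^ (n + 1) := by
    refine (intp ι a R x hdist w).trans ?_
    calc ∑ m, ‖∑ i, R i * ∏ i' ∈ univ.erase i, (x m - a i')‖ * ∏ m' ∈ univ.erase m, ‖w - x m'‖
        ≤ ∑ _m : Fin n, (K3 ^ n * (Z3 + K1) * Y ^ (n + 1)) * K2 ^ n := by
          refine sum_le_sum fun m _ => ?_
          refine mul_le_mul (hQx m) ?_ (prod_nonneg fun _ _ => norm_nonneg _) (by positivity)
          calc ∏ m' ∈ univ.erase m, ‖w - x m'‖ ≤ ∏ _m' ∈ univ.erase m, K2 :=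
                prod_le_prod (fun _ _ => norm_nonneg _) fun m' _ => hwx m'
            _ = K2 ^ (univ.erase m).card := by simp
            _ ≤ K2 ^ n := by
                refine pow_le_pow_right₀ hK21 ?_
                rw [card_erase_of_mem (mem_univ m), card_univ, Fintype.card_fin]
                omega
      _ = _ := by
          rw [sum_const, card_univ, Fintype.card_fin, nsmul_eq_mul]
          ring
  show ‖w * (Pr a w * HC α a R w + Qr a R w)‖ ≤ _
  rw [norm_mul]
  have hsum : ‖Pr a w * HC α a R w + Qr a R w‖ ≤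
      (K1 + n * (K3 ^ n * (Z3 + K1)) * K2 ^ n) * Y ^ (n + 1) := by
    have h1 : ‖Pr a w * HC α a R w‖ ≤ K1 * Y ^ (n + 1) := by
      rw [norm_mul]
      calc ‖Pr a w‖ * ‖HC α a R w‖ ≤ Y ^ n * (A * K1) :=
            mul_le_mul hPw (hHn w hw1.le) (norm_nonneg _) (by positivity)
        _ ≤ Y ^ n * (Y * K1) := by gcongr
        _ = _ := by
            rw [pow_succ]
            ring
    refine (norm_add_le _ _).trans ?_
    rw [add_mul]
    exact add_le_add h1 hQ
  calc ‖w‖ * ‖Pr a w * HC α a R w + Qr a R w‖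
      ≤ Y * ((K1 + n * (K3 ^ n * (Z3 + K1)) * K2 ^ n) * Y ^ (n + 1)) :=
        mul_le_mul hwY hsum (norm_nonneg _) (by linarith)
    _ = _ := by
        rw [pow_succ Y (n + 1)]
        ring

end Pool.Agent.W5h55.MO
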