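import Pool.Agent.W5h55.MO.Final3
import Pool.Agent.W5h55.MO.Sh2
import Pool.Agent.W5h55.MO.C

set_option autoImplicit false

/-!
# The final theorem, with sharp cutoffs
-/

namespace Pool.Agent.W5h55.MO

open Finset Complex MeasureTheory Pool.Agent.W5h65.MD Pool.Agent.W5h55.MC

variable {k : ℕ}

/-- The moment with a sharp cutoff. -/
noncomputable def sharpMoment (Λ : ℕ → ℂ → ℂ) (M : ℕ) (σ t : Fin k → ℝ) (X : ℝ) : ℂ :=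
  open Classical in ∑ d ∈ Finset.Icc 1 ⌊X⌋₊, if IsFund d ∧ 1 < d then
    ((kr d M : ℤ) : ℂ) * ∏ j : Fin k, Λ d ((σ j : ℂ) + t j * I) else 0

/-- The asymptotic formula for it. -/
def SharpMoments (Λ : ℕ → ℂ → ℂ) (M : ℕ) (σ : Fin k → ℝ) (c : ℝ) : Prop :=
  ∃ δ > 0, ∃ (C : ℝ) (N : ℕ), ∀ᵐ t : Fin k → ℝ, ∃ R : Finset (Fin k) → ℂ, ∀ X : ℝ, 1 ≤ X →
    ‖sharpMoment Λ M σ t X - ∑ J : Finset (Fin k),
      R J * (X : ℂ) ^ (1 + (J.card : ℂ) / 2 - ∑ j ∈ J, ((σ j : ℂ) + t j * I))‖ ≤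
      C * (1 + ‖t‖) ^ N * X ^ (c - δ)

theorem sharpMoments_imp {Λ : ℕ → ℂ → ℂ} {M : ℕ} {σ : Fin k → ℝ} {c : ℝ}
    (h : SharpMoments Λ M σ c) : Sharp Λ M σ c := by
  obtain ⟨δ, hδ, C, N, h⟩ := h
  refine ⟨δ, hδ, C, N, ?_⟩
  filter_upwards [h] with t ⟨R, hR⟩
  refine ⟨R, fun u hu => ?_⟩
  have hX : 1 ≤ Real.exp u := Real.one_le_exp hu
  have h1 := hR (Real.exp u) hX
  have h2 : (Real.exp u) ^ (c - δ) = Real.exp ((c - δ) * u) := by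
    rw [← Real.exp_mul, mul_comm]
  rw [h2] at h1
  refine le_trans (le_of_eq ?_) h1
  congr 2
  refine sum_congr rfl fun J _ => ?_
  have h3 : ((Real.exp u : ℝ) : ℂ) ^ (1 + (J.card : ℂ) / 2 - ∑ j ∈ J, ((σ j : ℂ) + t j * I)) =
      Complex.exp (ex (sp σ t) J * u) := by
    have hne : ((Real.exp u : ℝ) : ℂ) ≠ 0 := by exact_mod_cast (Real.exp_pos u).ne'
    rw [Complex.cpow_def_of_ne_zero hne, ← Complex.ofReal_log (Real.exp_pos u).le, Real.log_exp,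
      mul_comm]
    rfl
  rw [h3]

theorem final4 (k M : ℕ) :
    (∃ Λ : ℕ → ℂ → ℂ, IsCont Λ) ∧
    ∀ Λ : ℕ → ℂ → ℂ, IsCont Λ →
      (Q1 k M ↔ ∃ U, Extends (FF (k := k) M) U ∧ ∃ p ∈ U, cen p ≤ 1) ∧
      (Q1 k M ↔ Fib Λ M (fun _ : Fin k => 1 / 2) 1) ∧
      (Q1 k M ↔ Moments Λ M (fun _ : Fin k => 1 / 2) 1) ∧
      (∀ σ : Fin k → ℝ, (∀ j, 0 < σ j) → (Fib Λ M σ (1 - (∑ j, (σ j - 1 / 2)) / 2) ∨
        Moments Λ M σ (1 - (∑ j, (σ j - 1 / 2)) / 2) ∨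
        SharpMoments Λ M σ (1 - (∑ j, (σ j - 1 / 2)) / 2)) → Q1 k M) ∧
      ∃ D : Set (Fin (k + 1) → ℝ), Extends (FF (k := k) M) D ∧ Convex ℝ D ∧
        (∀ U, Extends (FF (k := k) M) U → U ⊆ D) ∧
        (∀ p ∈ D, ∀ j : Fin k, 0 < p j.succ → p j.succ < 1 → refl j p ∈ D) ∧
        (∀ p ∈ D, crit k (cen p) ∈ D) ∧
        (∀ σ : Fin k → ℝ, (∀ j, 0 < σ j) → ∀ c : ℝ,
          ((Fin.cons c σ : Fin (k + 1) → ℝ) ∈ D ↔ Fib Λ M σ c)) ∧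
        ∀ c : ℝ, c ≤ 1 → (crit k c ∈ D ↔ Moments Λ M (fun _ : Fin k => 1 / 2) c) := by
  obtain ⟨h1, h2⟩ := final3 k M
  have hk : (0 : ℝ) ≤ k := Nat.cast_nonneg k
  refine ⟨h1, fun Λ hΛ => ?_⟩
  obtain ⟨a1, a2, a3, a4, a5⟩ := h2 Λ hΛ
  refine ⟨a1, a2, a3, fun σ hσ h => ?_, a5⟩
  rcases h with h | h | h
  · exact a4 σ hσ (Or.inl h)
  · exact a4 σ hσ (Or.inr h)
  · refine a4 σ hσ (Or.inl (sharp_fib abel hΛ M hσ ?_ (sharpMoments_imp h)))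
    have e1 : -((k : ℝ) * (1 / 2)) ≤ ∑ j : Fin k, (σ j - 1 / 2) := by
      calc -((k : ℝ) * (1 / 2)) = ∑ _j : Fin k, (-(1 / 2) : ℝ) := by
            rw [sum_const, card_univ, Fintype.card_fin, nsmul_eq_mul]
            ring
        _ ≤ _ := sum_le_sum fun j _ => by linarith [hσ j]
    linarith

end Pool.Agent.W5h55.MO
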