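import Pool.Agent.W5h55.MC.Final
import Pool.Agent.W5h55.MO.Defs6
import Pool.Agent.W5h65.LH.F6
import Pool.Agent.W5h65.SM.P6

set_option autoImplicit false

/-!
# From the continuation for all even `k` to the Lindelöf bound
-/

namespace Pool.Agent.W5h55.MO

open Complex MeasureTheory Pool.Agent.W5h65.MD Pool.Agent.W5h55.MC

theorem cmb_cont {k : ℕ} : Continuous (fun p : (Fin k → ℝ) × ℝ =>
    (Fin.cons p.2 p.1 : Fin (k + 1) → ℝ)) := by
  refine continuous_pi fun i => ?_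
  refine Fin.cases ?_ (fun j => ?_) i
  · simp only [Fin.cons_zero]
    exact continuous_snd
  · simp only [Fin.cons_succ]
    exact (continuous_apply j).comp continuous_fst

theorem cmb_diff {k : ℕ} : Differentiable ℂ (fun p : (Fin k → ℂ) × ℂ =>
    (Fin.cons p.2 p.1 : Fin (k + 1) → ℂ)) := by
  refine differentiable_pi.2 fun i => ?_
  refine Fin.cases ?_ (fun j => ?_) i
  · simp only [Fin.cons_zero]
    exact differentiable_snd
  · simp only [Fin.cons_succ]
    fun_prop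

theorem cmb_re {k : ℕ} (z : (Fin k → ℂ) × ℂ) :
    (fun i => ((Fin.cons z.2 z.1 : Fin (k + 1) → ℂ) i).re) =
      (Fin.cons (rez z).2 (rez z).1 : Fin (k + 1) → ℝ) := by
  funext i
  refine Fin.cases ?_ (fun j => ?_) i
  · simp [rez]
  · simp [rez]

theorem cmb_im {k : ℕ} (z : (Fin k → ℂ) × ℂ) :
    ‖fun i => ((Fin.cons z.2 z.1 : Fin (k + 1) → ℂ) i).im‖ ≤ ‖imz z‖ := by
  refine (pi_norm_le_iff_of_nonneg (norm_nonneg _)).2 fun i => ?_
  refine Fin.cases ?_ (fun j => ?_) i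
  · simp only [Fin.cons_zero]
    exact norm_snd_le (imz z)
  · simp only [Fin.cons_succ]
    exact (norm_le_pi_norm (imz z).1 j).trans (norm_fst_le (imz z))

theorem mom_of_Q1 {k : ℕ} (m : ℕ) (hm : 2 * m ≤ k) (h : MC.Q1 k 1) :
    Pool.Agent.W5h65.LH.Mom m := by
  obtain ⟨U, ⟨hU, hUc, hR, G, hd, heq, hb⟩, hcr⟩ := h
  obtain ⟨c, hc⟩ : ∃ c : (Fin k → ℝ) × ℝ → (Fin (k + 1) → ℝ), c = fun p => Fin.cons p.2 p.1 :=
    ⟨_, rfl⟩
  have hcc : Continuous c := by rw [hc]; exact cmb_cont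
  have hinv : Continuous (fun p : Fin (k + 1) → ℝ => ((fun j : Fin k => p j.succ), p 0)) := by
    refine Continuous.prodMk (continuous_pi fun j => continuous_apply _) (continuous_apply _)
  have hUe : c ⁻¹' U = (fun p : Fin (k + 1) → ℝ => ((fun j : Fin k => p j.succ), p 0)) '' U := by
    ext p
    constructor
    · intro hp
      refine ⟨c p, hp, ?_⟩
      rw [hc]
      simp
    · rintro ⟨q, hq, rfl⟩
      have e : c ((fun j : Fin k => q j.succ), q 0) = q := by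
        rw [hc]
        funext i
        refine Fin.cases ?_ (fun j => ?_) i
        · simp
        · simp
      show c _ ∈ U
      rw [e]
      exact hq
  refine Pool.Agent.W5h65.LH.mom_of_ext k m hm (Pool.Agent.W5h65.LH.boch _) (c ⁻¹' U)
    (hU.preimage hcc) (by rw [hUe]; exact hUc.image _ hinv.continuousOn) (fun p h1 h2 => ?_)
    (fun z => G (Fin.cons z.2 z.1)) ?_ (fun z h1 h2 => ?_) (fun K hK hKc => ?_) (subset_closure ?_)
  · refine hR _ fun i => ?_
    rw [hc]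
    refine Fin.cases ?_ (fun j => ?_) i
    · simpa using h2
    · simpa using h1 j
  · refine hd.comp cmb_diff.differentiableOn fun z hz => ?_
    show (fun i => ((Fin.cons z.2 z.1 : Fin (k + 1) → ℂ) i).re) ∈ U
    rw [cmb_re]
    have hz' : c (rez z) ∈ U := hz
    rw [hc] at hz'
    exact hz'
  · show G (Fin.cons z.2 z.1) = _
    rw [heq _ (fun i => ?_)]
    · unfold FF
      simp
    · refine Fin.cases ?_ (fun j => ?_) i
      · simpa using h2
      · simpa using h1 j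
  · have hKc' : IsCompact (c '' K) := hKc.image hcc
    obtain ⟨C, N, h1⟩ := hb (c '' K) (by
      rintro _ ⟨p, hp, rfl⟩
      exact hK hp) hKc'
    refine ⟨|C|, N, fun z hz => ?_⟩
    have h2 := h1 (Fin.cons z.2 z.1) (by
      rw [cmb_re]
      refine ⟨rez z, hz, ?_⟩
      rw [hc])
    refine h2.trans ?_
    calc C * (1 + ‖fun i => ((Fin.cons z.2 z.1 : Fin (k + 1) → ℂ) i).im‖) ^ N
        ≤ |C| * (1 + ‖fun i => ((Fin.cons z.2 z.1 : Fin (k + 1) → ℂ) i).im‖) ^ N :=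
          mul_le_mul_of_nonneg_right (le_abs_self C) (by positivity)
      _ ≤ |C| * (1 + ‖imz z‖) ^ N := by
          refine mul_le_mul_of_nonneg_left (pow_le_pow_left₀ (by positivity) ?_ N) (abs_nonneg C)
          have := cmb_im z
          linarith
  · show c _ ∈ U
    have e : c ((fun _ => 1 / 2, 1) : (Fin k → ℝ) × ℝ) = crit k 1 := by
      rw [hc]
      rfl
    rw [e]
    exact hcr

/-- The Lindelöf bound for `Re s ≥ 1/2 + ε`. -/
theorem lind_of_Q1 (h : ∀ n : ℕ, ∃ k : ℕ, n ≤ k ∧ MC.Q1 k 1) {Λ : ℕ → ℂ → ℂ} (hΛ : IsCont Λ) :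
    ∀ ε B : ℝ, 0 < ε → ∃ (C : ℝ) (A : ℕ), ∀ (d : ℕ) (s : ℂ), IsFund d → 1 < d →
      1 / 2 + ε ≤ s.re → s.re ≤ B → ‖Λ d s‖ ≤ C * (1 + ‖s‖) ^ A * (d : ℝ) ^ ε := by
  have hL : Pool.Agent.W5h65.LH.Lind := Pool.Agent.W5h65.LH.lind_iff.2 fun m _ => by
    obtain ⟨k, hk, h1⟩ := h (2 * m)
    exact mom_of_Q1 m hk h1
  intro ε B hε
  obtain ⟨C, A, h1⟩ := hL ε B hε
  refine ⟨C, A, fun d s hd hd1 hs1 hs2 => ?_⟩
  obtain ⟨h2, h3⟩ := hΛ d hd hd1
  have h4 : Λ d s = Ld d s :=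
    Pool.Agent.W5h65.SM.L_unique h2.differentiableOn (Ld_diff hd hd1) (fun z hz => by
      rw [h3 z hz, Ld_eq d hz]) s (by linarith)
  rw [h4]
  exact h1 d s hd hd1 hs1 hs2

end Pool.Agent.W5h55.MO
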