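import Pool.Agent.W5h55.MO.SCore
import Pool.Agent.W5h55.MO.Final4
import Pool.Agent.W5h55.MO.Lin

set_option autoImplicit false

/-!
# From the continuation to sums with a sharp cutoff
-/

namespace Pool.Agent.W5h55.MO

open Finset Complex MeasureTheory Filter Pool.Agent.W5h65.MD Pool.Agent.W5h55.MC

/-- The size of the coefficients on the critical line, from the Lindelöf bound. -/
theorem al_lind {Λ : ℕ → ℂ → ℂ} (M : ℕ) {k : ℕ} {ε C : ℝ} {A : ℕ} (hε : 0 < ε) (hC : 0 ≤ C)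
    (h : ∀ (d : ℕ) (t : ℝ), IsFund d → 1 < d →
      ‖Λ d (1 / 2 + t * I)‖ ≤ C * (1 + |t|) ^ A * (d : ℝ) ^ ε) (t : Fin k → ℝ) (d : ℕ) :
    ‖al Λ M (sp (fun _ : Fin k => 1 / 2) t) d‖ ≤
      (C * (1 + ‖t‖) ^ A) ^ k * (d : ℝ) ^ (ε * k) := by
  classical
  unfold al
  by_cases hd : IsFund d ∧ 1 < d
  · have hd0 : (0 : ℝ) ≤ d := Nat.cast_nonneg d
    rw [if_pos hd, norm_mul, norm_prod, Real.rpow_mul hd0, Real.rpow_natCast, ← mul_pow]
    have h2 : ∀ j : Fin k, ‖Λ d (sp (fun _ : Fin k => 1 / 2) t j)‖ ≤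
        C * (1 + ‖t‖) ^ A * (d : ℝ) ^ ε := by
      intro j
      have e : sp (fun _ : Fin k => 1 / 2) t j = 1 / 2 + t j * I := by
        simp [sp]
      rw [e]
      refine (h d (t j) hd.1 hd.2).trans ?_
      have h3 : |t j| ≤ ‖t‖ := norm_le_pi_norm t j
      gcongr
    calc ‖((kr d M : ℤ) : ℂ)‖ * ∏ j : Fin k, ‖Λ d (sp (fun _ : Fin k => 1 / 2) t j)‖
        ≤ 1 * ∏ _j : Fin k, (C * (1 + ‖t‖) ^ A * (d : ℝ) ^ ε) :=
          mul_le_mul (kr_norm d M) (prod_le_prod (fun _ _ => norm_nonneg _) fun j _ => h2 j)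
            (prod_nonneg fun _ _ => norm_nonneg _) zero_le_one
      _ = _ := by simp
  · rw [if_neg hd, norm_zero]
    positivity

/-- **From the continuation to the sums with a sharp cutoff.** -/
theorem fib_sharp (hIV : S_IV) (hKH : S_KH) (hEB : S_EB) (hSD : S_SD) {Λ : ℕ → ℂ → ℂ}
    (hΛ : IsCont Λ) (hLi : ∀ ε : ℝ, 0 < ε → ∃ (C : ℝ) (A : ℕ), 0 ≤ C ∧ ∀ (d : ℕ) (t : ℝ),
      IsFund d → 1 < d → ‖Λ d (1 / 2 + t * I)‖ ≤ C * (1 + |t|) ^ A * (d : ℝ) ^ ε)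
    {k : ℕ} (M : ℕ) (hF : Fib Λ M (fun _ : Fin k => 1 / 2) 1) :
    Sharp Λ M (fun _ : Fin k => 1 / 2) 1 := by
  obtain ⟨δ, hδ, C, N, f, hf⟩ := hF
  obtain ⟨B, _, hal⟩ := al_bound hΛ M (σ := fun _ : Fin k => 1 / 2) (fun _ => by norm_num)
  obtain ⟨δ1, hδ1⟩ : ∃ δ1 : ℝ, δ1 = min δ (1 / 2) := ⟨_, rfl⟩
  have h1 : 0 < δ1 := by rw [hδ1]; exact lt_min hδ (by norm_num)
  have h2 : δ1 ≤ δ := by rw [hδ1]; exact min_le_left _ _
  have h3 : δ1 ≤ 1 / 2 := by rw [hδ1]; exact min_le_right _ _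
  obtain ⟨δ', hδ', ε, hε, Z, hZ, hcore⟩ := score hIV hKH hEB hSD (ι := Finset (Fin k))
    (b := 1 - δ1) (b' := 1 - δ1 / 2) (κ := k) (L := k) (by linarith) (by linarith) (by linarith)
    (by positivity) (by positivity) N
  have hk1 : (0 : ℝ) < (k : ℝ) + 1 := by positivity
  obtain ⟨C1, A1, hC1, hL1⟩ := hLi (ε / (k + 1)) (by positivity)
  refine ⟨δ', hδ', (C1 ^ k + |C|) * Z, A1 * k + (N + 2), ?_⟩
  filter_upwards [hf, nul k] with t ht hinj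
  obtain ⟨hd, hfr, hfb⟩ := ht
  have hinj' : Function.Injective (ex (sp (fun _ : Fin k => 1 / 2) t)) := by
    intro J J' h
    apply hinj
    have h1 := congrArg Complex.im h
    rw [ex_im, ex_im] at h1
    exact neg_injective h1
  have ht0 := norm_nonneg t
  have hτ1 : (1 : ℝ) ≤ 1 + ‖t‖ := by linarith
  refine ⟨fun J => f t (ex (sp (fun _ : Fin k => 1 / 2) t) J) /
    ex (sp (fun _ : Fin k => 1 / 2) t) J /
    ∏ J' ∈ univ.erase J, (ex (sp (fun _ : Fin k => 1 / 2) t) J -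
      ex (sp (fun _ : Fin k => 1 / 2) t) J'), fun u hu => ?_⟩
  have hmain := hcore (ex (sp (fun _ : Fin k => 1 / 2) t)) (al Λ M (sp (fun _ : Fin k => 1 / 2) t))
    ((C1 * (1 + ‖t‖) ^ A1) ^ k) ((B * (1 + ‖t‖)) ^ k) (f t) |C| ‖t‖ hinj' (ex_re t)
    (fun J => by
      rw [ex_im, abs_neg]
      calc |∑ j ∈ J, t j| ≤ ∑ j ∈ J, |t j| := abs_sum_le_sum_abs _ _
        _ ≤ ∑ _j ∈ J, ‖t‖ := sum_le_sum fun j _ => norm_le_pi_norm t j
        _ = J.card * ‖t‖ := by rw [sum_const, nsmul_eq_mul]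
        _ ≤ k * ‖t‖ := by
            refine mul_le_mul_of_nonneg_right ?_ ht0
            have := J.card_le_univ
            rw [Fintype.card_fin] at this
            exact_mod_cast this)
    (al_zero _ _ _) (hal t) (by positivity)
    (fun d => by
      by_cases hd0 : d = 0
      · subst hd0
        rw [al_zero, norm_zero]
        positivity
      · have hd1 : (1 : ℝ) ≤ d := by exact_mod_cast Nat.one_le_iff_ne_zero.2 hd0
        refine (al_lind M (by positivity) hC1 hL1 t d).trans ?_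
        refine mul_le_mul_of_nonneg_left (Real.rpow_le_rpow_of_exponent_le hd1 ?_) (by positivity)
        rw [div_mul_eq_mul_div, div_le_iff₀ hk1]
        nlinarith)
    (hd.mono fun w (hw : 1 - δ1 < w.re) => by
      show 1 - δ < w.re
      linarith)
    (fun w hw => (hfr w hw).trans (FX_fibre Λ M _ t w))
    (fun w hw => (hfb w (by linarith)).trans
      (mul_le_mul_of_nonneg_right (le_abs_self C) (by positivity)))
    ht0 (abs_nonneg C) u hu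
  refine hmain.trans ?_
  refine mul_le_mul_of_nonneg_right ?_ (Real.exp_pos _).le
  have e1 : (C1 * (1 + ‖t‖) ^ A1) ^ k + |C| ≤ (C1 ^ k + |C|) * (1 + ‖t‖) ^ (A1 * k) := by
    have e2 : 1 ≤ (1 + ‖t‖) ^ (A1 * k) := one_le_pow₀ hτ1
    rw [mul_pow, ← pow_mul, add_mul]
    have e3 : |C| ≤ |C| * (1 + ‖t‖) ^ (A1 * k) := le_mul_of_one_le_right (abs_nonneg C) e2
    linarith
  calc ((C1 * (1 + ‖t‖) ^ A1) ^ k + |C|) * Z * (1 + ‖t‖) ^ (N + 2)
      ≤ ((C1 ^ k + |C|) * (1 + ‖t‖) ^ (A1 * k)) * Z * (1 + ‖t‖) ^ (N + 2) := by gcongr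
    _ = _ := by rw [pow_add]; ring

/-- From `Sharp` to `SharpMoments`. -/
theorem sharpMoments_of {k : ℕ} {Λ : ℕ → ℂ → ℂ} {M : ℕ} {σ : Fin k → ℝ} {c : ℝ}
    (h : Sharp Λ M σ c) : SharpMoments Λ M σ c := by
  obtain ⟨δ, hδ, C, N, h⟩ := h
  refine ⟨δ, hδ, C, N, ?_⟩
  filter_upwards [h] with t ⟨R, hR⟩
  refine ⟨R, fun X hX => ?_⟩
  have hX0 : 0 < X := by linarith
  have h1 := hR (Real.log X) (Real.log_nonneg hX)
  rw [Real.exp_log hX0] at h1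
  have h2 : X ^ (c - δ) = Real.exp ((c - δ) * Real.log X) := by
    rw [Real.rpow_def_of_pos hX0, mul_comm]
  rw [h2]
  refine le_trans (le_of_eq ?_) h1
  congr 2
  refine sum_congr rfl fun J _ => ?_
  have h3 : (X : ℂ) ^ (1 + (J.card : ℂ) / 2 - ∑ j ∈ J, ((σ j : ℂ) + t j * I)) =
      Complex.exp (ex (sp σ t) J * (Real.log X : ℝ)) := by
    have hne : (X : ℂ) ≠ 0 := by exact_mod_cast hX0.ne'
    rw [Complex.cpow_def_of_ne_zero hne, ← Complex.ofReal_log hX0.le, mul_comm]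
    rfl
  rw [h3]

/-- The Lindelöf bound on the critical line. -/
theorem lind_crit (hL2 : S_L2) (h : ∀ n : ℕ, ∃ k : ℕ, n ≤ k ∧ MC.Q1 k 1) {Λ : ℕ → ℂ → ℂ}
    (hΛ : IsCont Λ) : ∀ ε : ℝ, 0 < ε → ∃ (C : ℝ) (A : ℕ), 0 ≤ C ∧ ∀ (d : ℕ) (t : ℝ),
      IsFund d → 1 < d → ‖Λ d (1 / 2 + t * I)‖ ≤ C * (1 + |t|) ^ A * (d : ℝ) ^ ε :=
  hL2 Λ hΛ (lind_of_Q1 h hΛ)

end Pool.Agent.W5h55.MO
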