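import Pool.Agent.W5h55.MC.Fib
import Pool.Agent.W5h55.MO.Defs2

set_option autoImplicit false

/-!
# The moment condition
-/

namespace Pool.Agent.W5h55.MO

open Finset Complex MeasureTheory Pool.Agent.W5h65.MD Pool.Agent.W5h55.MC

variable {k : ℕ}

/-- The coefficients `χ_d(M) ∏ L(s_j, χ_d)`, `d > 1` a fundamental discriminant. -/
noncomputable def al (Λ : ℕ → ℂ → ℂ) (M : ℕ) (s : Fin k → ℂ) (d : ℕ) : ℂ :=
  open Classical in
  if IsFund d ∧ 1 < d then ((kr d M : ℤ) : ℂ) * ∏ j : Fin k, Λ d (s j) else 0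

/-- The point `σ + i t`. -/
noncomputable def sp (σ t : Fin k → ℝ) : Fin k → ℂ := fun j => (σ j : ℂ) + t j * I

/-- The exponents of the main terms. -/
noncomputable def ex (s : Fin k → ℂ) (J : Finset (Fin k)) : ℂ := 1 + (J.card : ℂ) / 2 - ∑ j ∈ J, s j

/-- The asymptotic formula with an error of order `X^(c - δ)`, `X = e^u`, for almost all `t`. -/
def Mom (Λ : ℕ → ℂ → ℂ) (M : ℕ) (σ : Fin k → ℝ) (c : ℝ) : Prop :=
  ∃ δ > 0, ∃ (C : ℝ) (N : ℕ), ∀ᵐ t : Fin k → ℝ, ∃ R : Finset (Fin k) → ℂ, ∀ v u : ℝ, 0 ≤ u →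
    ‖SS (al Λ M (sp σ t)) v u - ∑ J : Finset (Fin k), R J *
      Complex.exp ((ex (sp σ t) J - I * v) ^ 2 / 4) * Complex.exp (ex (sp σ t) J * u)‖ ≤
      C * (1 + ‖t‖ + |v|) ^ N * Real.exp ((c - δ) * u)

/-- The size of the coefficients. -/
theorem al_bound {Λ : ℕ → ℂ → ℂ} (hΛ : IsCont Λ) (M : ℕ) {σ : Fin k → ℝ} (hσ : ∀ j, 0 < σ j) :
    ∃ B : ℝ, 0 ≤ B ∧ ∀ (t : Fin k → ℝ) (d : ℕ),
      ‖al Λ M (sp σ t) d‖ ≤ (B * (1 + ‖t‖)) ^ k * (d : ℝ) ^ (k : ℝ) := by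
  classical
  obtain ⟨δ, hδ, h1⟩ := exists_gap (fun _ => (0 : ℝ)) σ hσ
  have hσ0 := norm_nonneg σ
  refine ⟨2 * (‖σ‖ + 1) / δ, by positivity, fun t d => ?_⟩
  have ht0 := norm_nonneg t
  unfold al
  by_cases hd : IsFund d ∧ 1 < d
  · rw [if_pos hd, norm_mul, norm_prod, Real.rpow_natCast, ← mul_pow]
    have hd0' : (1 : ℝ) ≤ d := by exact_mod_cast hd.2.le
    have h2 : ∀ j : Fin k, ‖Λ d (sp σ t j)‖ ≤ 2 * (‖σ‖ + 1) / δ * (1 + ‖t‖) * d := by
      intro j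
      have hre : (sp σ t j).re = σ j := by simp [sp]
      have hσj : δ < σ j := by
        have := h1 j
        linarith
      refine ((hΛ.prop hd.1 hd.2).1 _ (by rw [hre]; exact hσ j)).trans ?_
      rw [hre]
      have h5 : ‖sp σ t j‖ ≤ (‖σ‖ + 1) * (1 + ‖t‖) := by
        unfold sp
        have h6 := norm_le_pi_norm t j
        have h7 := norm_le_pi_norm σ j
        have h8 : ‖(σ j : ℂ) + t j * I‖ ≤ ‖σ j‖ + ‖t j‖ := by
          refine (norm_add_le _ _).trans ?_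
          rw [norm_mul, Complex.norm_I, mul_one, Complex.norm_real, Complex.norm_real]
        nlinarith [mul_nonneg hσ0 ht0]
      have h6 : ((d : ℝ) + 1) / σ j ≤ 2 * d / δ :=
        div_le_div₀ (by positivity) (by linarith) hδ hσj.le
      calc ‖sp σ t j‖ * (((d : ℝ) + 1) / σ j)
          ≤ ((‖σ‖ + 1) * (1 + ‖t‖)) * (2 * d / δ) := by
            refine mul_le_mul h5 h6 ?_ (by positivity)
            have := (hσ j).le
            positivity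
        _ = 2 * (‖σ‖ + 1) / δ * (1 + ‖t‖) * d := by ring
    calc ‖((kr d M : ℤ) : ℂ)‖ * ∏ j : Fin k, ‖Λ d (sp σ t j)‖
        ≤ 1 * ∏ _j : Fin k, (2 * (‖σ‖ + 1) / δ * (1 + ‖t‖) * d) :=
          mul_le_mul (kr_norm d M) (prod_le_prod (fun _ _ => norm_nonneg _) fun j _ => h2 j)
            (prod_nonneg fun _ _ => norm_nonneg _) zero_le_one
      _ = _ := by simp
  · rw [if_neg hd, norm_zero]
    positivity

theorem al_zero (Λ : ℕ → ℂ → ℂ) (M : ℕ) (s : Fin k → ℂ) : al Λ M s 0 = 0 := by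
  unfold al
  rw [if_neg (fun h => by omega)]

theorem prod_ex (σ t : Fin k → ℝ) (w : ℂ) :
    ∏ J : Finset (Fin k), (w - ex (sp σ t) J) = MC.PP (fp σ t w) := by
  unfold MC.PP ex sp
  refine prod_congr rfl fun J _ => ?_
  rw [fp_zero]
  simp only [fp_succ]
  ring

/-- `F_M` on the fibre. -/
theorem FX_fibre (Λ : ℕ → ℂ → ℂ) (M : ℕ) (σ t : Fin k → ℝ) (w : ℂ) :
    FX Λ M (fp σ t w) = DS (al Λ M (sp σ t)) w * ∏ J : Finset (Fin k), (w - ex (sp σ t) J) := by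
  classical
  rw [prod_ex]
  unfold FX DS
  congr 1
  refine tsum_congr fun d => ?_
  unfold tm al sp
  by_cases hd : IsFund d ∧ 1 < d
  · rw [if_pos hd, if_pos hd, fp_zero]
    simp only [fp_succ]
    ring
  · rw [if_neg hd, if_neg hd, zero_mul]

/-- From the asymptotic formula to the continuation. -/
def S_P : Prop := ∀ (k : ℕ) (Λ : ℕ → ℂ → ℂ), IsCont Λ → ∀ (M : ℕ) (σ : Fin k → ℝ),
  (∀ j, 0 < σ j) → ∀ c : ℝ, c ≤ (k : ℝ) + 1 → Mom Λ M σ c → Fib Λ M σ c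

/-- From the continuation to the asymptotic formula, on the critical line. -/
def S_Q : Prop := ∀ (k : ℕ) (Λ : ℕ → ℂ → ℂ), IsCont Λ → ∀ (M : ℕ) (c : ℝ), c ≤ 1 →
  Fib Λ M (fun _ : Fin k => 1 / 2) c → Mom Λ M (fun _ : Fin k => 1 / 2) c

end Pool.Agent.W5h55.MO
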