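import Pool.Agent.W5h55.MO.One2
import Pool.Agent.W5h55.MO.MDefs

set_option autoImplicit false

/-!
# From the asymptotic formula to the continuation
-/

namespace Pool.Agent.W5h55.MO

open Finset Complex MeasureTheory Pool.Agent.W5h65.MD Pool.Agent.W5h55.MC

theorem pow_add_le {y x : ℝ} (hy : 1 ≤ y) (hx : 0 ≤ x) {m : ℕ} (hm : 1 ≤ m) :
    y ^ m + x ≤ (y + x) ^ m := by
  obtain ⟨n, rfl⟩ : ∃ n, m = n + 1 := ⟨m - 1, by omega⟩
  have h1 : 1 ≤ y ^ n := one_le_pow₀ hy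
  have h2 : y ^ n ≤ (y + x) ^ n := pow_le_pow_left₀ (by linarith) (by linarith) n
  calc y ^ (n + 1) + x ≤ y ^ n * y + x * y ^ n := by
        rw [pow_succ]
        have := mul_le_mul_of_nonneg_left h1 hx
        linarith
    _ = y ^ n * (y + x) := by ring
    _ ≤ (y + x) ^ n * (y + x) := mul_le_mul_of_nonneg_right h2 (by linarith)
    _ = (y + x) ^ (n + 1) := (pow_succ _ _).symm

theorem ex_norm {k : ℕ} (σ t : Fin k → ℝ) (J : Finset (Fin k)) :
    ‖ex (sp σ t) J‖ ≤ (1 + 2 * k + k * ‖σ‖) * (1 + ‖t‖) := by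
  have hk : (0 : ℝ) ≤ k := Nat.cast_nonneg k
  have hJ : (J.card : ℝ) ≤ k := by
    have := card_le_univ J
    rw [Fintype.card_fin] at this
    exact_mod_cast this
  have ht0 := norm_nonneg t
  have hσ0 := norm_nonneg σ
  have h1 : ‖ex (sp σ t) J‖ ≤ ‖(1 : ℂ)‖ + ‖((J.card : ℂ) / 2)‖ + ‖∑ j ∈ J, sp σ t j‖ := by
    unfold ex
    exact (norm_sub_le _ _).trans (add_le_add (norm_add_le _ _) le_rfl)
  have h2 : ‖((J.card : ℂ) / 2)‖ ≤ k := by
    rw [norm_div, Complex.norm_natCast]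
    have : ‖(2 : ℂ)‖ = 2 := by simp
    rw [this]
    have : (0 : ℝ) ≤ J.card := Nat.cast_nonneg _
    linarith
  have h3 : ‖∑ j ∈ J, sp σ t j‖ ≤ k * (‖σ‖ + ‖t‖) := by
    have h4 : ∀ j ∈ J, ‖sp σ t j‖ ≤ ‖σ‖ + ‖t‖ := by
      intro j _
      unfold sp
      have h6 := norm_le_pi_norm t j
      have h7 := norm_le_pi_norm σ j
      have h8 : ‖(σ j : ℂ) + t j * I‖ ≤ ‖σ j‖ + ‖t j‖ := by
        refine (norm_add_le _ _).trans ?_
        rw [norm_mul, Complex.norm_I, mul_one, Complex.norm_real, Complex.norm_real]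
      linarith
    refine (norm_sum_le _ _).trans ((sum_le_sum h4).trans ?_)
    rw [sum_const, nsmul_eq_mul]
    exact mul_le_mul_of_nonneg_right hJ (by positivity)
  rw [norm_one] at h1
  have h5 : 0 ≤ (k : ℝ) * ‖σ‖ * ‖t‖ := by positivity
  have h6 : 0 ≤ (k : ℝ) * ‖t‖ := by positivity
  nlinarith

theorem mom_fib : S_P := by
  classical
  rintro k Λ hΛ M σ hσ c hc ⟨δ, hδ, C, N, hM⟩
  have hk : (0 : ℝ) ≤ k := Nat.cast_nonneg k
  obtain ⟨B, hB0, hB⟩ := al_bound hΛ M hσ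
  obtain ⟨C2, N2, hC2, h2⟩ := FX_right hΛ M hσ
  obtain ⟨C', hC', h1⟩ := one (Finset (Fin k)) (κ := k) (b := c - δ) (b' := c - δ / 2)
    (T := (k : ℝ) + 2) hk (by linarith) (by linarith) N
  set m : ℕ := k + N + 1 with hm
  set n' : ℕ := Fintype.card (Finset (Fin k)) + 1 + N with hn'
  set K0 : ℝ := 1 + B ^ k + (1 + 2 * k + k * ‖σ‖) + |C| with hK0
  have hσ0 := norm_nonneg σ
  have hK01 : 1 ≤ K0 := by
    have := abs_nonneg C
    have : 0 ≤ B ^ k := by positivity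
    have : 0 ≤ 1 + 2 * (k : ℝ) + k * ‖σ‖ := by positivity
    linarith
  set PT : (Fin k → ℝ) → (ℂ → ℂ) → Prop := fun t f =>
    DifferentiableOn ℂ f {w | c - δ < w.re} ∧
    (∀ w : ℂ, (k : ℝ) + 1 < w.re → f w = DS (al Λ M (sp σ t)) w *
      ∏ J : Finset (Fin k), (w - ex (sp σ t) J)) ∧
    ∀ w : ℂ, c - δ / 2 < w.re → w.re ≤ (k : ℝ) + 2 →
      ‖f w‖ ≤ C' * (K0 * (1 + ‖t‖) ^ m + ‖w‖) ^ n' with hPT
  have hex : ∀ᵐ t : Fin k → ℝ, ∃ f, PT t f := by
    filter_upwards [hM] with t ⟨R, hR⟩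
    have ht0 := norm_nonneg t
    have hT1 : 1 ≤ 1 + ‖t‖ := by linarith
    have hp1 : 1 ≤ (1 + ‖t‖) ^ m := one_le_pow₀ hT1
    refine h1 (al Λ M (sp σ t)) (K0 * (1 + ‖t‖) ^ m) (ex (sp σ t)) R ?_ (al_zero _ _ _) ?_ ?_ ?_
    · calc (1 : ℝ) = 1 * 1 := (one_mul 1).symm
        _ ≤ K0 * (1 + ‖t‖) ^ m := mul_le_mul hK01 hp1 zero_le_one (by linarith)
    · intro d
      refine (hB t d).trans ?_
      refine mul_le_mul_of_nonneg_right ?_ (by positivity)
      rw [mul_pow]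
      refine mul_le_mul ?_ (pow_le_pow_right₀ hT1 (by omega)) (by positivity) (by linarith)
      have := abs_nonneg C
      have : 0 ≤ 1 + 2 * (k : ℝ) + k * ‖σ‖ := by positivity
      linarith
    · intro J
      refine (ex_norm σ t J).trans ?_
      refine mul_le_mul ?_ ?_ (by positivity) (by linarith)
      · have := abs_nonneg C
        have : 0 ≤ B ^ k := by positivity
        linarith
      · calc 1 + ‖t‖ = (1 + ‖t‖) ^ 1 := (pow_one _).symm
          _ ≤ (1 + ‖t‖) ^ m := pow_le_pow_right₀ hT1 (by omega)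
    · intro v u hu
      refine (hR v u hu).trans ?_
      refine mul_le_mul_of_nonneg_right ?_ (Real.exp_pos _).le
      have hv := abs_nonneg v
      have e1 : (1 + ‖t‖ + |v|) ^ N ≤ (1 + ‖t‖) ^ N * (1 + |v|) ^ N := by
        rw [← mul_pow]
        refine pow_le_pow_left₀ (by positivity) ?_ _
        nlinarith [mul_nonneg ht0 hv]
      have e2 : |C| ≤ K0 := by
        have : 0 ≤ B ^ k := by positivity
        have : 0 ≤ 1 + 2 * (k : ℝ) + k * ‖σ‖ := by positivity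
        linarith
      calc C * (1 + ‖t‖ + |v|) ^ N ≤ |C| * ((1 + ‖t‖) ^ N * (1 + |v|) ^ N) :=
            mul_le_mul (le_abs_self C) e1 (by positivity) (abs_nonneg C)
        _ ≤ K0 * ((1 + ‖t‖) ^ m * (1 + |v|) ^ N) := by
            refine mul_le_mul e2 (mul_le_mul_of_nonneg_right
              (pow_le_pow_right₀ hT1 (by omega)) (by positivity)) (by positivity) (by linarith)
        _ = _ := by ring
  refine ⟨δ / 2, by positivity, C' * K0 ^ n' + C2, max (m * n') N2,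
    fun t => Classical.epsilon (PT t), ?_⟩
  filter_upwards [hex] with t ht
  have hPTt : PT t (Classical.epsilon (PT t)) := Classical.epsilon_spec ht
  set f : ℂ → ℂ := Classical.epsilon (PT t) with hf
  obtain ⟨f1, f2, f3⟩ := hPTt
  have ht0 := norm_nonneg t
  have hfF : ∀ w : ℂ, (k : ℝ) + 1 < w.re → f w = FX Λ M (fp σ t w) := by
    intro w hw
    rw [FX_fibre, f2 w hw]
  refine ⟨f1.mono fun w hw => ?_, hfF, fun w hw => ?_⟩
  · have hw' : c - δ / 2 < w.re := hw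
    show c - δ < w.re
    linarith
  · have hw0 := norm_nonneg w
    have hone : 1 ≤ 1 + ‖t‖ + ‖w‖ := by linarith
    rcases le_total w.re ((k : ℝ) + 2) with hw2 | hw2
    · refine (f3 w hw hw2).trans ?_
      have e1 : K0 * (1 + ‖t‖) ^ m + ‖w‖ ≤ K0 * (1 + ‖t‖ + ‖w‖) ^ m := by
        have e2 := pow_add_le (y := 1 + ‖t‖) (x := ‖w‖) (by linarith) hw0 (m := m) (by omega)
        have e3 : ‖w‖ ≤ K0 * ‖w‖ := by
          have := mul_le_mul_of_nonneg_right hK01 hw0
          linarith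
        calc K0 * (1 + ‖t‖) ^ m + ‖w‖ ≤ K0 * ((1 + ‖t‖) ^ m + ‖w‖) := by
              rw [mul_add]
              linarith
          _ ≤ _ := mul_le_mul_of_nonneg_left e2 (by linarith)
      calc C' * (K0 * (1 + ‖t‖) ^ m + ‖w‖) ^ n' ≤ C' * (K0 * (1 + ‖t‖ + ‖w‖) ^ m) ^ n' := by
            gcongr
        _ = C' * K0 ^ n' * (1 + ‖t‖ + ‖w‖) ^ (m * n') := by
            rw [mul_pow, pow_mul]
            ring
        _ ≤ (C' * K0 ^ n' + C2) * (1 + ‖t‖ + ‖w‖) ^ max (m * n') N2 :=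
            mul_le_mul (by linarith) (pow_le_pow_right₀ hone (le_max_left _ _)) (by positivity)
              (by positivity)
    · rw [hfF w (by linarith)]
      refine (h2 t w hw2).trans ?_
      refine mul_le_mul ?_ (pow_le_pow_right₀ hone (le_max_right _ _)) (by positivity)
        (by positivity)
      have : 0 ≤ C' * K0 ^ n' := by positivity
      linarith

end Pool.Agent.W5h55.MO
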