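import Pool.Agent.W5h55.MC.Final
import Pool.Agent.W5h55.MO.P
import Pool.Agent.W5h55.MO.Defs3

set_option autoImplicit false

/-!
# The criteria, with the moments
-/

namespace Pool.Agent.W5h55.MO

open Finset Complex MeasureTheory Pool.Agent.W5h65.MD Pool.Agent.W5h55.MC

variable {k : ℕ}

/-- The smoothed moment. -/
noncomputable def moment (Λ : ℕ → ℂ → ℂ) (M : ℕ) (σ t : Fin k → ℝ) (v X : ℝ) : ℂ :=
  open Classical in ∑' d : ℕ, if IsFund d ∧ 1 < d then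
    ((kr d M : ℤ) : ℂ) * (∏ j : Fin k, Λ d ((σ j : ℂ) + t j * I)) * gw v (d / X) else 0

/-- The asymptotic formula. -/
def Moments (Λ : ℕ → ℂ → ℂ) (M : ℕ) (σ : Fin k → ℝ) (c : ℝ) : Prop :=
  ∃ δ > 0, ∃ (C : ℝ) (N : ℕ), ∀ᵐ t : Fin k → ℝ, ∃ R : Finset (Fin k) → ℂ, ∀ v X : ℝ, 1 ≤ X →
    ‖moment Λ M σ t v X - ∑ J : Finset (Fin k),
      R J * mellin (gw v) (1 + (J.card : ℂ) / 2 - ∑ j ∈ J, ((σ j : ℂ) + t j * I)) *
        (X : ℂ) ^ (1 + (J.card : ℂ) / 2 - ∑ j ∈ J, ((σ j : ℂ) + t j * I))‖ ≤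
      C * (1 + ‖t‖ + |v|) ^ N * X ^ (c - δ)

theorem moment_eq (Λ : ℕ → ℂ → ℂ) (M : ℕ) (σ t : Fin k → ℝ) (v : ℝ) {X : ℝ} (hX : 0 < X) :
    moment Λ M σ t v X = SS (al Λ M (sp σ t)) v (Real.log X) := by
  classical
  unfold moment SS
  refine tsum_congr fun d => ?_
  unfold al
  by_cases hd : IsFund d ∧ 1 < d
  · rw [if_pos hd, if_pos hd]
    have hd0 : (0 : ℝ) < d := by
      have := hd.2
      exact_mod_cast (by omega : 0 < d)
    have hdX : 0 < (d : ℝ) / X := div_pos hd0 hX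
    have h1 : gw v (d / X) = Complex.exp (-((Real.log d - Real.log X : ℝ) : ℂ) ^ 2 -
        I * v * ((Real.log d - Real.log X : ℝ) : ℂ)) := by
      unfold gw
      have hlog : Real.log ((d : ℝ) / X) = Real.log d - Real.log X :=
        Real.log_div hd0.ne' hX.ne'
      have hne : (((d : ℝ) / X : ℝ) : ℂ) ≠ 0 := by exact_mod_cast hdX.ne'
      rw [Complex.cpow_def_of_ne_zero hne, ← Complex.ofReal_log hdX.le, hlog, Complex.ofReal_exp,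
        ← Complex.exp_add]
      congr 1
      push_cast
      ring
    rw [h1]
    rfl
  · rw [if_neg hd, if_neg hd, zero_mul]

theorem moments_iff (hMel : S_M) (Λ : ℕ → ℂ → ℂ) (M : ℕ) (σ : Fin k → ℝ) (c : ℝ) :
    Moments Λ M σ c ↔ Mom Λ M σ c := by
  have hpi : (Real.sqrt Real.pi : ℂ) ≠ 0 := by
    exact_mod_cast (Real.sqrt_pos.2 Real.pi_pos).ne'
  constructor
  · rintro ⟨δ, hδ, C, N, h⟩
    refine ⟨δ, hδ, C, N, ?_⟩
    filter_upwards [h] with t ⟨R, hR⟩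
    refine ⟨fun J => R J * (Real.sqrt Real.pi : ℂ), fun v u hu => ?_⟩
    have hX : 1 ≤ Real.exp u := Real.one_le_exp hu
    have h1 := hR v (Real.exp u) hX
    rw [moment_eq Λ M σ t v (Real.exp_pos u), Real.log_exp] at h1
    have h2 : (Real.exp u) ^ (c - δ) = Real.exp ((c - δ) * u) := by
      rw [← Real.exp_mul, mul_comm]
    rw [h2] at h1
    refine le_trans (le_of_eq ?_) h1
    congr 2
    refine sum_congr rfl fun J _ => ?_
    rw [hMel]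
    have h3 : ((Real.exp u : ℝ) : ℂ) ^ (1 + (J.card : ℂ) / 2 - ∑ j ∈ J, ((σ j : ℂ) + t j * I)) =
        Complex.exp (ex (sp σ t) J * u) := by
      have hne : ((Real.exp u : ℝ) : ℂ) ≠ 0 := by exact_mod_cast (Real.exp_pos u).ne'
      rw [Complex.cpow_def_of_ne_zero hne, ← Complex.ofReal_log (Real.exp_pos u).le, Real.log_exp,
        mul_comm]
      rfl
    rw [h3]
    show R J * (Real.sqrt Real.pi : ℂ) * Complex.exp ((ex (sp σ t) J - I * v) ^ 2 / 4) *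
      Complex.exp (ex (sp σ t) J * u) = R J * ((Real.sqrt Real.pi : ℂ) *
      Complex.exp ((ex (sp σ t) J - I * v) ^ 2 / 4)) * Complex.exp (ex (sp σ t) J * u)
    ring
  · rintro ⟨δ, hδ, C, N, h⟩
    refine ⟨δ, hδ, C, N, ?_⟩
    filter_upwards [h] with t ⟨R, hR⟩
    refine ⟨fun J => R J * (Real.sqrt Real.pi : ℂ)⁻¹, fun v X hX => ?_⟩
    have hX0 : 0 < X := by linarith
    have h1 := hR v (Real.log X) (Real.log_nonneg hX)
    rw [← moment_eq Λ M σ t v hX0] at h1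
    have h2 : X ^ (c - δ) = Real.exp ((c - δ) * Real.log X) := by
      rw [Real.rpow_def_of_pos hX0, mul_comm]
    rw [h2]
    refine le_trans (le_of_eq ?_) h1
    congr 2
    refine sum_congr rfl fun J _ => ?_
    rw [hMel]
    have h3 : (X : ℂ) ^ (1 + (J.card : ℂ) / 2 - ∑ j ∈ J, ((σ j : ℂ) + t j * I)) =
        Complex.exp (ex (sp σ t) J * ((Real.log X : ℝ) : ℂ)) := by
      have hne : (X : ℂ) ≠ 0 := by exact_mod_cast hX0.ne'
      rw [Complex.cpow_def_of_ne_zero hne, ← Complex.ofReal_log hX0.le, mul_comm]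
      rfl
    rw [h3]
    show R J * (Real.sqrt Real.pi : ℂ)⁻¹ * ((Real.sqrt Real.pi : ℂ) *
      Complex.exp ((ex (sp σ t) J - I * v) ^ 2 / 4)) *
      Complex.exp (ex (sp σ t) J * ((Real.log X : ℝ) : ℂ)) =
      R J * Complex.exp ((ex (sp σ t) J - I * v) ^ 2 / 4) *
      Complex.exp (ex (sp σ t) J * ((Real.log X : ℝ) : ℂ))
    have h4 : (Real.sqrt Real.pi : ℂ)⁻¹ * (Real.sqrt Real.pi : ℂ) = 1 := inv_mul_cancel₀ hpi
    calc R J * (Real.sqrt Real.pi : ℂ)⁻¹ * ((Real.sqrt Real.pi : ℂ) *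
        Complex.exp ((ex (sp σ t) J - I * v) ^ 2 / 4)) *
        Complex.exp (ex (sp σ t) J * ((Real.log X : ℝ) : ℂ))
        = R J * ((Real.sqrt Real.pi : ℂ)⁻¹ * (Real.sqrt Real.pi : ℂ)) *
          Complex.exp ((ex (sp σ t) J - I * v) ^ 2 / 4) *
          Complex.exp (ex (sp σ t) J * ((Real.log X : ℝ) : ℂ)) := by ring
      _ = _ := by rw [h4, mul_one]

theorem final2 (hMel : S_M) (hQ : S_Q) (k M : ℕ) :
    (∃ Λ : ℕ → ℂ → ℂ, IsCont Λ) ∧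
    ∀ Λ : ℕ → ℂ → ℂ, IsCont Λ →
      (Q1 k M ↔ ∃ U, Extends (FF (k := k) M) U ∧ ∃ p ∈ U, cen p ≤ 1) ∧
      (Q1 k M ↔ Fib Λ M (fun _ : Fin k => 1 / 2) 1) ∧
      (Q1 k M ↔ Moments Λ M (fun _ : Fin k => 1 / 2) 1) ∧
      (∀ σ : Fin k → ℝ, (∀ j, 0 < σ j) → (Fib Λ M σ (1 - (∑ j, (σ j - 1 / 2)) / 2) ∨
        Moments Λ M σ (1 - (∑ j, (σ j - 1 / 2)) / 2)) → Q1 k M) ∧
      ∃ D : Set (Fin (k + 1) → ℝ), Extends (FF (k := k) M) D ∧ Convex ℝ D ∧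
        (∀ U, Extends (FF (k := k) M) U → U ⊆ D) ∧
        (∀ p ∈ D, ∀ j : Fin k, 0 < p j.succ → p j.succ < 1 → refl j p ∈ D) ∧
        (∀ p ∈ D, crit k (cen p) ∈ D) ∧
        (∀ σ : Fin k → ℝ, (∀ j, 0 < σ j) → ∀ c : ℝ,
          ((Fin.cons c σ : Fin (k + 1) → ℝ) ∈ D ↔ Fib Λ M σ c)) ∧
        ∀ c : ℝ, c ≤ 1 → (crit k c ∈ D ↔ Moments Λ M (fun _ : Fin k => 1 / 2) c) := by
  obtain ⟨h1, ⟨D, d1, d2, d3, d4, d5, d6⟩, h3, h4⟩ := final k M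
  have hk : (0 : ℝ) ≤ k := Nat.cast_nonneg k
  have hmf : ∀ (Λ : ℕ → ℂ → ℂ), IsCont Λ → ∀ c : ℝ, c ≤ 1 →
      (Fib Λ M (fun _ : Fin k => 1 / 2) c ↔ Moments Λ M (fun _ : Fin k => 1 / 2) c) := by
    intro Λ hΛ c hc
    rw [moments_iff hMel]
    exact ⟨hQ k Λ hΛ M c hc, mom_fib k Λ hΛ M _ (fun _ => by norm_num) c (by linarith)⟩
  refine ⟨h1, fun Λ hΛ => ⟨h3, (h4 Λ hΛ).1, (h4 Λ hΛ).1.trans (hmf Λ hΛ 1 le_rfl),
    fun σ hσ h => ?_, D, d1, d2, d3, d4, d5, fun σ hσ c => d6 Λ hΛ σ hσ c, fun c hc => ?_⟩⟩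
  · rcases h with h | h
    · exact (h4 Λ hΛ).2 σ hσ h
    · refine (h4 Λ hΛ).2 σ hσ (mom_fib k Λ hΛ M σ hσ _ ?_ ((moments_iff hMel Λ M σ _).1 h))
      have e1 : -((k : ℝ) * (1 / 2)) ≤ ∑ j : Fin k, (σ j - 1 / 2) := by
        calc -((k : ℝ) * (1 / 2)) = ∑ _j : Fin k, (-(1 / 2) : ℝ) := by
              rw [sum_const, card_univ, Fintype.card_fin, nsmul_eq_mul]
              ring
          _ ≤ _ := sum_le_sum fun j _ => by linarith [hσ j]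
      linarith
  · rw [← hmf Λ hΛ c hc, ← d6 Λ hΛ (fun _ => 1 / 2) (fun _ => by norm_num) c]
    rfl

end Pool.Agent.W5h55.MO
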