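import Pool.Agent.W5h55.MO.Defs3

set_option autoImplicit false

/-!
# The Mellin transform of the weight
-/

namespace Pool.Agent.W5h55.MO

open Complex MeasureTheory

theorem mel : S_M := by
  intro v a
  unfold mellin
  have himg : Real.exp '' Set.univ = Set.Ioi 0 := by rw [Set.image_univ, Real.range_exp]
  rw [← himg, integral_image_eq_integral_abs_deriv_smul MeasurableSet.univ
    (fun x _ => (Real.hasDerivAt_exp x).hasDerivWithinAt) Real.exp_injective.injOn,
    Measure.restrict_univ]
  have h1 : ∀ y : ℝ, |Real.exp y| • (((Real.exp y : ℝ) : ℂ) ^ (a - 1) • gw v (Real.exp y)) =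
      cexp (-1 * y ^ 2 + (a - I * v) * y + 0) := by
    intro y
    have hne : ((Real.exp y : ℝ) : ℂ) ≠ 0 := Complex.ofReal_ne_zero.2 (Real.exp_pos y).ne'
    have hlog : Complex.log ((Real.exp y : ℝ) : ℂ) = y := by
      rw [← Complex.ofReal_log (Real.exp_pos y).le, Real.log_exp]
    rw [gw, Complex.cpow_def_of_ne_zero hne, Complex.cpow_def_of_ne_zero hne, hlog, Real.log_exp,
      abs_of_pos (Real.exp_pos y), Complex.real_smul, smul_eq_mul, Complex.ofReal_exp,
      Complex.ofReal_exp, ← Complex.exp_add, ← Complex.exp_add, ← Complex.exp_add]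
    congr 1
    push_cast
    ring
  simp_rw [h1]
  rw [integral_cexp_quadratic (by simp), neg_neg, div_one]
  have h5 : ((Real.pi : ℂ)) ^ (1 / 2 : ℂ) = ((Real.sqrt Real.pi : ℝ) : ℂ) := by
    rw [Real.sqrt_eq_rpow, Complex.ofReal_cpow Real.pi_pos.le]
    norm_num
  rw [h5]
  congr 2
  ring

end Pool.Agent.W5h55.MO
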