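import Pool.Agent.W5h55.MO.Defs2

set_option autoImplicit false

/-!
# For almost all points the subset sums of the coordinates are distinct
-/

namespace Pool.Agent.W5h55.MO

open Finset MeasureTheory

theorem nul : S_N := by
  intro k
  have hpair : ∀ p : Finset (Fin k) × Finset (Fin k), p.1 ≠ p.2 →
      ∀ᵐ t : Fin k → ℝ, ∑ j ∈ p.1, t j ≠ ∑ j ∈ p.2, t j := by
    rintro ⟨J, J'⟩ hne
    simp only at hne ⊢
    set L : (Fin k → ℝ) →ₗ[ℝ] ℝ :=
      (∑ j ∈ J, LinearMap.proj j) - (∑ j ∈ J', LinearMap.proj j) with hL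
    have hLv : ∀ t : Fin k → ℝ, L t = ∑ j ∈ J, t j - ∑ j ∈ J', t j := by
      intro t
      simp [hL]
    have htop : LinearMap.ker L ≠ ⊤ := by
      intro h
      apply hne
      ext j
      have h1 : L (Pi.single j 1) = 0 := by
        have : Pi.single j (1 : ℝ) ∈ LinearMap.ker L := by rw [h]; trivial
        exact this
      rw [hLv] at h1
      have h2 : ∀ K : Finset (Fin k), ∑ i ∈ K, (Pi.single j (1 : ℝ) : Fin k → ℝ) i =
          if j ∈ K then 1 else 0 := by
        intro K
        simp [Pi.single_apply]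
      rw [h2, h2] at h1
      by_cases hJ : j ∈ J <;> by_cases hJ' : j ∈ J' <;> simp_all
    have hnull := Measure.addHaar_submodule (volume : Measure (Fin k → ℝ)) (LinearMap.ker L) htop
    rw [ae_iff]
    refine measure_mono_null (fun t ht => ?_) hnull
    simp only [ne_eq, Set.mem_ofPred_eq, not_not] at ht
    show L t = 0
    rw [hLv, ht, sub_self]
  have hall : ∀ᵐ t : Fin k → ℝ, ∀ p : Finset (Fin k) × Finset (Fin k), p.1 ≠ p.2 →
      ∑ j ∈ p.1, t j ≠ ∑ j ∈ p.2, t j := by
    rw [ae_all_iff]
    intro p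
    by_cases h : p.1 = p.2
    · exact Filter.Eventually.of_forall fun t h' => absurd h h'
    · filter_upwards [hpair p h] with t ht _
      exact ht
  filter_upwards [hall] with t ht
  intro J J' h
  by_contra hne
  exact ht (J, J') hne h

end Pool.Agent.W5h55.MO
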