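import Mathlib
import Pool.Agent.W5h55.MO.Defs

set_option autoImplicit false

/-!
# Moving the line of integration across simple poles
-/

namespace Pool.Agent.W5h55.MO.HH

open Finset Complex MeasureTheory Filter Topology

/-! ### the integral of `exp(w²)/w` on a vertical line -/

theorem exp_sq_int (x r : ℝ) :
    ∫ y : ℝ, Complex.exp ((x + y * I) ^ 2 - (x + y * I) * r) =
      ((Real.sqrt Real.pi * Real.exp (-(1 / 4) * r ^ 2) : ℝ) : ℂ) := by
  have h1 : ∀ y : ℝ, ((x : ℂ) + y * I) ^ 2 - (x + y * I) * r =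
      (-1 : ℂ) * (y : ℂ) ^ 2 + (I * (2 * x - r)) * y + ((x : ℂ) ^ 2 - x * r) := by
    intro y
    linear_combination (y : ℂ) ^ 2 * Complex.I_sq
  simp_rw [h1]
  rw [integral_cexp_quadratic (by simp)]
  have h2 : (x : ℂ) ^ 2 - x * r - (I * (2 * x - r)) ^ 2 / (4 * (-1 : ℂ)) =
      ((-(1 / 4) * r ^ 2 : ℝ) : ℂ) := by
    push_cast
    linear_combination ((2 * (x : ℂ) - r) ^ 2 / 4) * Complex.I_sq
  rw [h2, neg_neg, div_one, Complex.ofReal_mul (Real.sqrt Real.pi), Complex.ofReal_exp,
    Real.sqrt_eq_rpow, Complex.ofReal_cpow Real.pi_pos.le]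
  norm_num

theorem J_pos {x : ℝ} (hx : 0 < x) :
    ∫ y : ℝ, Complex.exp ((x + y * I) ^ 2) / (x + y * I) = Real.pi := by
  have h1 : ∀ y : ℝ, Complex.exp ((x + y * I) ^ 2) / (x + y * I) =
      ∫ r : ℝ in Set.Ioi 0, Complex.exp ((x + y * I) ^ 2 - (x + y * I) * r) := by
    intro y
    have h2 : ∀ r : ℝ, Complex.exp ((x + y * I) ^ 2 - (x + y * I) * r) =
        Complex.exp ((x + y * I) ^ 2) * Complex.exp ((-(x + y * I)) * r) := by
      intro r
      rw [← Complex.exp_add]
      congr 1
      ring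
    simp_rw [h2]
    rw [integral_const_mul, integral_exp_mul_complex_Ioi (by simpa using hx), ofReal_zero,
      mul_zero, Complex.exp_zero, neg_div_neg_eq, one_div, div_eq_mul_inv]
  simp_rw [h1]
  rw [integral_integral_swap]
  · simp_rw [exp_sq_int x]
    rw [integral_complex_ofReal]
    congr 1
    rw [integral_const_mul, integral_gaussian_Ioi]
    have h3 : Real.sqrt (Real.pi / (1 / 4)) = 2 * Real.sqrt Real.pi := by
      rw [show Real.pi / (1 / 4) = 2 ^ 2 * Real.pi by ring, Real.sqrt_mul (by positivity),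
        Real.sqrt_sq (by norm_num)]
    rw [h3]
    have h4 := Real.mul_self_sqrt Real.pi_pos.le
    linarith
  · have h5 : Integrable (fun z : ℝ × ℝ => (Real.exp (x ^ 2) * Real.exp (-1 * z.1 ^ 2)) *
        Real.exp (-x * z.2)) ((volume : Measure ℝ).prod (volume.restrict (Set.Ioi 0))) :=
      ((integrable_exp_neg_mul_sq one_pos).const_mul _).mul_prod
        (integrableOn_exp_mul_Ioi (by linarith) 0)
    refine h5.mono' ?_ ?_
    · refine Continuous.aestronglyMeasurable ?_
      simp only [Function.uncurry_def]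
      fun_prop
    · refine Eventually.of_forall fun z => ?_
      simp only [Function.uncurry_def]
      rw [Complex.norm_exp, ← Real.exp_add, ← Real.exp_add]
      refine le_of_eq ?_
      congr 1
      simp [pow_two]
      ring

theorem J_neg {x : ℝ} (hx : x < 0) :
    ∫ y : ℝ, Complex.exp ((x + y * I) ^ 2) / (x + y * I) = -Real.pi := by
  have h1 := J_pos (x := -x) (by linarith)
  rw [← h1, ← integral_neg, ← integral_neg_eq_self]
  refine integral_congr_ae (Eventually.of_forall fun y => ?_)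
  have h2 : ((x : ℂ) + ((-y : ℝ) : ℂ) * I) = -(((-x : ℝ) : ℂ) + y * I) := by
    push_cast
    ring
  simp only
  rw [h2, neg_sq, div_neg]

theorem J_shift {a : ℂ} {x : ℝ} :
    ∫ y : ℝ, Complex.exp ((x + y * I - a) ^ 2) / (x + y * I - a) =
      ∫ y : ℝ, Complex.exp (((x - a.re : ℝ) + y * I) ^ 2) / ((x - a.re : ℝ) + y * I) := by
  rw [← integral_sub_right_eq_self (fun y : ℝ =>
    Complex.exp (((x - a.re : ℝ) + y * I) ^ 2) / ((x - a.re : ℝ) + y * I)) a.im]
  refine integral_congr_ae (Eventually.of_forall fun y => ?_)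
  have h2 : ((x - a.re : ℝ) : ℂ) + ((y - a.im : ℝ) : ℂ) * I = x + y * I - a := by
    apply Complex.ext <;> simp
  simp only
  rw [h2]

/-! ### Cauchy's theorem for a strip -/

/-- integrability on a vertical line -/
theorem int_line {h : ℂ → ℂ} {x M R0 : ℝ} (hc : Continuous fun y : ℝ => h (x + y * I))
    (hM : ∀ y : ℝ, R0 ≤ |y| → ‖h (x + y * I)‖ ≤ M * Real.exp (-(1 / 16) * y ^ 2)) :
    Integrable fun y : ℝ => h (x + y * I) := by
  obtain ⟨M1, hM1⟩ := (isCompact_Icc (a := -R0) (b := R0)).exists_bound_of_continuousOn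
    hc.continuousOn
  have hb : ∀ y : ℝ, ‖h (x + y * I)‖ ≤
      (|M| + |M1| * Real.exp (1 / 16 * R0 ^ 2)) * Real.exp (-(1 / 16) * y ^ 2) := by
    intro y
    have e1 : 0 < Real.exp (-(1 / 16) * y ^ 2) := Real.exp_pos _
    by_cases hy : R0 ≤ |y|
    · refine (hM y hy).trans ?_
      refine mul_le_mul_of_nonneg_right ?_ e1.le
      have : 0 ≤ |M1| * Real.exp (1 / 16 * R0 ^ 2) := by positivity
      linarith [le_abs_self M]
    · push Not at hy
      have h1 := hM1 y ⟨by linarith [neg_abs_le y], by linarith [le_abs_self y]⟩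
      have h2 : 1 ≤ Real.exp (1 / 16 * R0 ^ 2) * Real.exp (-(1 / 16) * y ^ 2) := by
        rw [← Real.exp_add]
        apply Real.one_le_exp
        have : y ^ 2 ≤ R0 ^ 2 := by
          rw [← sq_abs y]
          exact pow_le_pow_left₀ (abs_nonneg y) hy.le 2
        linarith
      have h3 : |M1| ≤ |M1| * (Real.exp (1 / 16 * R0 ^ 2) * Real.exp (-(1 / 16) * y ^ 2)) :=
        le_mul_of_one_le_right (abs_nonneg _) h2
      have h4 : 0 ≤ |M| * Real.exp (-(1 / 16) * y ^ 2) := by positivity
      rw [add_mul, mul_assoc]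
      linarith [le_abs_self M1]
  refine Integrable.mono' ((integrable_exp_neg_mul_sq (b := 1 / 16) (by norm_num)).const_mul
    (|M| + |M1| * Real.exp (1 / 16 * R0 ^ 2))) hc.aestronglyMeasurable
    (Eventually.of_forall hb)

theorem cauchy_strip {h : ℂ → ℂ} {b b' T M R0 : ℝ} (hb : b < b') (hT : b' < T)
    (hd : DifferentiableOn ℂ h {w | b < w.re})
    (hM : ∀ w : ℂ, b' ≤ w.re → w.re ≤ T → R0 ≤ |w.im| →
      ‖h w‖ ≤ M * Real.exp (-(1 / 16) * w.im ^ 2)) :
    ∫ y : ℝ, h (T + y * I) = ∫ y : ℝ, h (b' + y * I) := by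
  have hline : ∀ x : ℝ, b' ≤ x → x ≤ T → Integrable fun y : ℝ => h (x + y * I) := by
    intro x hx hx'
    refine int_line (M := M) (R0 := R0) ?_ ?_
    · have h1 : ContinuousOn h {w | b < w.re} := hd.continuousOn
      refine h1.comp_continuous (by fun_prop) fun y => ?_
      simp only [Set.mem_setOf_eq, add_re, ofReal_re, mul_re, I_re, mul_zero, ofReal_im, I_im,
        mul_one, sub_self, add_zero]
      linarith
    · intro y hy
      have := hM (x + y * I) (by simpa using hx) (by simpa using hx') (by simpa using hy)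
      simpa using this
  have hRT := intervalIntegral_tendsto_integral (hline T hT.le le_rfl) tendsto_neg_atTop_atBot
    tendsto_id
  have hRb := intervalIntegral_tendsto_integral (hline b' le_rfl hT.le) tendsto_neg_atTop_atBot
    tendsto_id
  have hexp : Tendsto (fun R : ℝ => M * Real.exp (-(1 / 16) * R ^ 2) * |T - b'|) atTop (𝓝 0) := by
    have h1 : Tendsto (fun R : ℝ => -(1 / 16) * R ^ 2) atTop atBot :=
      Tendsto.const_mul_atTop_of_neg (by norm_num) (tendsto_pow_atTop two_ne_zero)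
    have h2 := ((Real.tendsto_exp_atBot.comp h1).const_mul M).mul_const |T - b'|
    simpa using h2
  have hhor : ∀ s : ℝ, |s| = 1 →
      Tendsto (fun R : ℝ => ∫ x : ℝ in b'..T, h (x + (s * R : ℝ) * I)) atTop (𝓝 0) := by
    intro s hs
    refine squeeze_zero_norm' ?_ hexp
    filter_upwards [eventually_ge_atTop (max R0 0)] with R hR
    refine intervalIntegral.norm_integral_le_of_norm_le_const fun x hx => ?_
    rw [Set.uIoc_of_le hT.le] at hx
    have hsR : |s * R| = R := by
      rw [abs_mul, hs, one_mul, abs_of_nonneg ((le_max_right _ _).trans hR)]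
    have := hM (x + (s * R : ℝ) * I) (by simpa using hx.1.le) (by simpa using hx.2)
      (by simpa [hsR] using (le_max_left _ _).trans hR)
    have e1 : ((x : ℂ) + (s * R : ℝ) * I).im = s * R := by simp
    rw [e1, ← sq_abs (s * R), hsR] at this
    exact this
  have hrect : ∀ R : ℝ, (∫ x : ℝ in b'..T, h (x + ((-1) * R : ℝ) * I)) -
      (∫ x : ℝ in b'..T, h (x + (1 * R : ℝ) * I)) +
      I • (∫ y : ℝ in (-R)..R, h (T + y * I)) - I • (∫ y : ℝ in (-R)..R, h (b' + y * I)) = 0 := by
    intro R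
    have h1 := Complex.integral_boundary_rect_eq_zero_of_differentiableOn h
      ((b' : ℂ) + ((-R : ℝ) : ℂ) * I) ((T : ℂ) + (R : ℂ) * I) (hd.mono ?_)
    · simpa using h1
    · rintro z hz
      have h2 := hz.1
      simp only [add_re, ofReal_re, mul_re, I_re, mul_zero, ofReal_im, I_im, mul_one, sub_self,
        add_zero, Set.mem_preimage, Set.uIcc_of_le hT.le] at h2
      show b < z.re
      linarith [h2.1]
  have hlim := (((hhor (-1) (by simp)).sub (hhor 1 (by simp))).add (hRT.const_smul I)).sub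
    (hRb.const_smul I)
  have h0 := tendsto_nhds_unique (hlim.congr fun R => (hrect R)) tendsto_const_nhds
  rw [sub_zero, zero_add, sub_eq_zero] at h0
  exact smul_right_injective ℂ I_ne_zero h0

/-! ### one pole -/

theorem cont_line {g : ℂ → ℂ} {b x : ℝ} (hb : b < x)
    (hd : DifferentiableOn ℂ g {w | b < w.re}) : Continuous fun y : ℝ => g (x + y * I) := by
  refine hd.continuousOn.comp_continuous (by fun_prop) fun y => ?_
  simpa using hb

theorem int_pole {g : ℂ → ℂ} {b b' T M : ℝ} (hb : b < b')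
    (hd : DifferentiableOn ℂ g {w | b < w.re})
    (hM : ∀ w : ℂ, b' ≤ w.re → w.re ≤ T → ‖g w‖ ≤ M * Real.exp (-(1 / 16) * w.im ^ 2))
    {a : ℂ} {x : ℝ} (hx : b' ≤ x) (hx' : x ≤ T) (hxa : x ≠ a.re) :
    Integrable fun y : ℝ => g (x + y * I) / (x + y * I - a) := by
  have hne : ∀ y : ℝ, (x : ℂ) + y * I - a ≠ 0 := by
    intro y h0
    have h1 := congrArg Complex.re h0
    simp only [sub_re, add_re, ofReal_re, mul_re, I_re, mul_zero, ofReal_im, I_im, mul_one,
      sub_self, add_zero, zero_re] at h1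
    exact hxa (by linarith)
  have hpos : 0 < |x - a.re| := abs_pos.2 (sub_ne_zero.2 hxa)
  refine int_line (h := fun w => g w / (w - a)) (x := x) (M := M / |x - a.re|) (R0 := 0) ?_ ?_
  · exact (cont_line (by linarith) hd).div (by fun_prop) hne
  · intro y _
    have h1 := hM (x + y * I) (by simpa using hx) (by simpa using hx')
    have h2 : |x - a.re| ≤ ‖(x : ℂ) + y * I - a‖ := by
      have := Complex.abs_re_le_norm ((x : ℂ) + y * I - a)
      simpa using this
    have e1 : ((x : ℂ) + y * I).im = y := by simp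
    rw [e1] at h1
    rw [norm_div]
    calc ‖g (x + y * I)‖ / ‖(x : ℂ) + y * I - a‖
        ≤ (M * Real.exp (-(1 / 16) * y ^ 2)) / |x - a.re| :=
          div_le_div₀ ((norm_nonneg _).trans h1) h1 hpos h2
      _ = M / |x - a.re| * Real.exp (-(1 / 16) * y ^ 2) := by ring

theorem exp_bound {b' T : ℝ} {a w : ℂ} (h1 : b' ≤ a.re) (h2 : a.re ≤ T) (h3 : b' ≤ w.re)
    (h4 : w.re ≤ T) : ‖Complex.exp ((w - a) ^ 2)‖ ≤
      Real.exp ((T - b') ^ 2 + a.im ^ 2) * Real.exp (-(1 / 16) * w.im ^ 2) := by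
  rw [Complex.norm_exp, ← Real.exp_add]
  apply Real.exp_le_exp.2
  have e1 : ((w - a) ^ 2).re = (w.re - a.re) ^ 2 - (w.im - a.im) ^ 2 := by
    simp [pow_two]
  rw [e1]
  have e2 : (w.re - a.re) ^ 2 ≤ (T - b') ^ 2 := by
    apply sq_le_sq'
    · linarith
    · linarith
  nlinarith [sq_nonneg (w.im - 2 * a.im), sq_nonneg w.im]

theorem pole1 {g : ℂ → ℂ} {b b' T M : ℝ} (hb : b < b')
    (hd : DifferentiableOn ℂ g {w | b < w.re})
    (hM : ∀ w : ℂ, b' ≤ w.re → w.re ≤ T → ‖g w‖ ≤ M * Real.exp (-(1 / 16) * w.im ^ 2))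
    {a : ℂ} (ha : b' < a.re) (ha' : a.re < T) :
    ∫ y : ℝ, g (T + y * I) / (T + y * I - a) =
      (∫ y : ℝ, g (b' + y * I) / (b' + y * I - a)) + 2 * Real.pi * g a := by
  set E : ℂ → ℂ := fun w => Complex.exp ((w - a) ^ 2) with hE
  have hEd : Differentiable ℂ E := by
    rw [hE]
    fun_prop
  have hEM : ∀ w : ℂ, b' ≤ w.re → w.re ≤ T →
      ‖E w‖ ≤ Real.exp ((T - b') ^ 2 + a.im ^ 2) * Real.exp (-(1 / 16) * w.im ^ 2) :=
    fun w h1 h2 => exp_bound ha.le ha'.le h1 h2
  set h : ℂ → ℂ := fun w => g w - g a * E w with hh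
  have hha : h a = 0 := by simp [hh, hE]
  have hhd : DifferentiableOn ℂ h {w | b < w.re} :=
    hd.sub ((differentiableOn_const _).mul hEd.differentiableOn)
  have hopen : IsOpen {w : ℂ | b < w.re} := isOpen_lt continuous_const Complex.continuous_re
  have hsl : DifferentiableOn ℂ (dslope h a) {w | b < w.re} :=
    (Complex.differentiableOn_dslope (hopen.mem_nhds (by
      show b < a.re
      linarith))).2 hhd
  have hds : ∀ w, w ≠ a → dslope h a w = g w / (w - a) - g a * (E w / (w - a)) := by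
    intro w hw
    rw [dslope_of_ne _ hw, slope_def_field, hha, sub_zero, hh]
    simp only
    ring
  have hcs := cauchy_strip (h := dslope h a) (T := T)
    (M := M + ‖g a‖ * Real.exp ((T - b') ^ 2 + a.im ^ 2)) (R0 := |a.im| + 1) hb (ha.trans ha') hsl
    (by
      intro w h1 h2 h3
      have h4 : 1 ≤ ‖w - a‖ := by
        have := Complex.abs_im_le_norm (w - a)
        rw [sub_im] at this
        have h5 := abs_sub_abs_le_abs_sub w.im a.im
        linarith
      have hw : w ≠ a := by
        rintro rfl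
        rw [sub_self, norm_zero] at h4
        linarith
      rw [hds w hw]
      have h6 := hM w h1 h2
      have h7 := hEM w h1 h2
      have e1 : ‖g w / (w - a)‖ ≤ ‖g w‖ := by
        rw [norm_div]
        exact div_le_self (norm_nonneg _) h4
      have e2 : ‖g a * (E w / (w - a))‖ ≤ ‖g a‖ * ‖E w‖ := by
        rw [norm_mul, norm_div]
        exact mul_le_mul_of_nonneg_left (div_le_self (norm_nonneg _) h4) (norm_nonneg _)
      have e3 := mul_le_mul_of_nonneg_left h7 (norm_nonneg (g a))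
      calc ‖g w / (w - a) - g a * (E w / (w - a))‖
          ≤ ‖g w / (w - a)‖ + ‖g a * (E w / (w - a))‖ := norm_sub_le _ _
        _ ≤ M * Real.exp (-(1 / 16) * w.im ^ 2) + ‖g a‖ *
            (Real.exp ((T - b') ^ 2 + a.im ^ 2) * Real.exp (-(1 / 16) * w.im ^ 2)) := by
              linarith
        _ = _ := by ring)
  have hline : ∀ x : ℝ, b' ≤ x → x ≤ T → x ≠ a.re → ∫ y : ℝ, dslope h a (x + y * I) =
      (∫ y : ℝ, g (x + y * I) / (x + y * I - a)) -
        g a * ∫ y : ℝ, E (x + y * I) / (x + y * I - a) := by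
    intro x hx hx' hxa
    rw [← integral_const_mul, ← integral_sub (int_pole hb hd hM hx hx' hxa)
      ((int_pole (g := E) hb hEd.differentiableOn hEM hx hx' hxa).const_mul _)]
    refine integral_congr_ae (Eventually.of_forall fun y => ?_)
    refine hds _ fun h0 => hxa ?_
    have h1 := congrArg Complex.re h0
    simpa using h1
  rw [hline T (ha.trans ha').le le_rfl ha'.ne', hline b' le_rfl (ha.trans ha').le ha.ne,
    show (∫ y : ℝ, E (T + y * I) / (T + y * I - a)) = Real.pi from
      J_shift.trans (J_pos (by linarith)),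
    show (∫ y : ℝ, E (b' + y * I) / (b' + y * I - a)) = -Real.pi from
      J_shift.trans (J_neg (by linarith))] at hcs
  linear_combination hcs

/-! ### the bound for the integrand -/

theorem kk_norm (v u : ℝ) (w : ℂ) :
    ‖KK v u w‖ = Real.exp ((w.re ^ 2 - (w.im - v) ^ 2) / 4 + w.re * u) := by
  rw [KK, Complex.norm_exp]
  congr 1
  have e1 : ((w - I * v) ^ 2 / 4 + w * u) = (((w - I * v) ^ 2 : ℂ) * ((1 / 4 : ℝ) : ℂ) + w * u) := by
    push_cast
    ring
  rw [e1]
  simp [pow_two]
  ring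

theorem g_bound {b b' T C v u : ℝ} {N : ℕ} {f : ℂ → ℂ} (hb : b < b')
    (hf : ∀ w : ℂ, b < w.re → w.re ≤ T → ‖f w‖ ≤ C * (1 + ‖w‖) ^ N) :
    ∃ M : ℝ, ∀ w : ℂ, b' ≤ w.re → w.re ≤ T →
      ‖KK v u w * f w‖ ≤ M * Real.exp (-(1 / 16) * w.im ^ 2) := by
  set X : ℝ := max |b'| |T| with hX
  refine ⟨Real.exp (X ^ 2 / 4 + X * |u| + v ^ 2 / 4) * (|C| * ((N.factorial : ℝ) *
    Real.exp (5 + X))), fun w h1 h2 => ?_⟩
  have hwX : |w.re| ≤ X := by
    rw [abs_le]
    constructor
    · have := neg_abs_le b'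
      have h3 : |b'| ≤ X := le_max_left _ _
      linarith
    · have := le_abs_self T
      have h3 : |T| ≤ X := le_max_right _ _
      linarith
  have hX0 : 0 ≤ X := (abs_nonneg _).trans hwX
  have hw : ‖w‖ ≤ X + |w.im| := (Complex.norm_le_abs_re_add_abs_im w).trans (by linarith)
  have hk : ‖KK v u w‖ ≤ Real.exp (X ^ 2 / 4 + X * |u| + v ^ 2 / 4) *
      Real.exp (-(1 / 8) * w.im ^ 2) := by
    rw [kk_norm, ← Real.exp_add]
    apply Real.exp_le_exp.2
    have e1 : w.re ^ 2 ≤ X ^ 2 := by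
      rw [← sq_abs w.re]
      exact pow_le_pow_left₀ (abs_nonneg _) hwX 2
    have e2 : w.re * u ≤ X * |u| := by
      calc w.re * u ≤ |w.re * u| := le_abs_self _
        _ = |w.re| * |u| := abs_mul _ _
        _ ≤ X * |u| := mul_le_mul_of_nonneg_right hwX (abs_nonneg _)
    nlinarith [sq_nonneg (w.im - 2 * v)]
  have hp : (1 + ‖w‖) ^ N ≤ (N.factorial : ℝ) * Real.exp (5 + X) *
      Real.exp (1 / 16 * w.im ^ 2) := by
    have h0 : 0 ≤ 1 + ‖w‖ := by positivity
    have h3 := Real.pow_div_factorial_le_exp _ h0 N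
    rw [div_le_iff₀ (by positivity)] at h3
    refine h3.trans ?_
    rw [mul_comm, mul_assoc]
    refine mul_le_mul_of_nonneg_left ?_ (by positivity)
    rw [← Real.exp_add]
    apply Real.exp_le_exp.2
    have h4 : |w.im| ^ 2 = w.im ^ 2 := sq_abs _
    nlinarith [sq_nonneg (|w.im| / 4 - 2)]
  have hf' : ‖f w‖ ≤ |C| * ((N.factorial : ℝ) * Real.exp (5 + X) *
      Real.exp (1 / 16 * w.im ^ 2)) := by
    refine (hf w (by linarith) h2).trans ?_
    refine (mul_le_mul_of_nonneg_right (le_abs_self C) (by positivity)).trans ?_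
    exact mul_le_mul_of_nonneg_left hp (abs_nonneg _)
  rw [norm_mul]
  refine (mul_le_mul hk hf' (norm_nonneg _) (by positivity)).trans (le_of_eq ?_)
  have e3 : Real.exp (-(1 / 8) * w.im ^ 2) * Real.exp (1 / 16 * w.im ^ 2) =
      Real.exp (-(1 / 16) * w.im ^ 2) := by
    rw [← Real.exp_add]
    congr 1
    ring
  rw [← e3]
  ring

theorem partial_fractions {ι : Type} [Fintype ι] [DecidableEq ι] [Nonempty ι] {a : ι → ℂ}
    (ha : Function.Injective a) {w : ℂ} (hw : ∀ i, w ≠ a i) :
    1 / ∏ i, (w - a i) = ∑ i, (1 / ∏ i' ∈ univ.erase i, (a i - a i')) * (1 / (w - a i)) := by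
  have h1 := congrArg (Polynomial.eval w) (Lagrange.sum_basis (s := univ) (v := a)
    ha.injOn univ_nonempty)
  rw [Polynomial.eval_finset_sum, Polynomial.eval_one] at h1
  have h2 : ∀ i ∈ (univ : Finset ι), Polynomial.eval w (Lagrange.basis univ a i) =
      (∏ i, (w - a i)) * ((1 / ∏ i' ∈ univ.erase i, (a i - a i')) * (1 / (w - a i))) := by
    intro i hi
    rw [Lagrange.eval_basis_not_at_node hi (hw i), Lagrange.eval_nodal, Lagrange.nodalWeight,
      Finset.prod_inv_distrib, one_div, one_div]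
  rw [Finset.sum_congr rfl h2, ← Finset.mul_sum] at h1
  have h3 : (∏ i, (w - a i)) ≠ 0 := prod_ne_zero_iff.2 fun i _ => sub_ne_zero.2 (hw i)
  rw [div_eq_iff h3, mul_comm]
  exact h1.symm

end Pool.Agent.W5h55.MO.HH

namespace Pool.Agent.W5h55.MO

open Finset Complex MeasureTheory Filter Topology HH

/-- **Moving the line of integration across simple poles.** -/
theorem shift : S_H := by
  intro ι _ _ a b b' T f C N v u hinj hb ha ha' hbT hd hf
  obtain ⟨M, hM⟩ := g_bound (v := v) (u := u) hb hf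
  set g : ℂ → ℂ := fun w => KK v u w * f w with hg
  have hgd : DifferentiableOn ℂ g {w | b < w.re} := by
    refine DifferentiableOn.mul (Differentiable.differentiableOn ?_) hd
    unfold KK
    fun_prop
  rcases isEmpty_or_nonempty ι with hι | hι
  · have h1 := cauchy_strip (h := g) (T := T) (M := M) (R0 := 0) hb hbT hgd
      fun w h1 h2 _ => hM w h1 h2
    simpa [hg] using h1
  · have hline : ∀ x : ℝ, b' ≤ x → x ≤ T → (∀ i, x ≠ (a i).re) →
        ∫ y : ℝ, KK v u (x + y * I) * f (x + y * I) / ∏ i, (x + y * I - a i) =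
          ∑ i, (1 / ∏ i' ∈ univ.erase i, (a i - a i')) *
            ∫ y : ℝ, g (x + y * I) / (x + y * I - a i) := by
      intro x hx hx' hxa
      simp_rw [← integral_const_mul]
      rw [← integral_finset_sum _ fun i _ => (int_pole hb hgd hM hx hx' (hxa i)).const_mul _]
      refine integral_congr_ae (Eventually.of_forall fun y => ?_)
      have h1 := partial_fractions hinj (w := x + y * I) fun i h0 => hxa i (by
        have h1 := congrArg Complex.re h0
        simpa using h1)
      simp only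
      rw [div_eq_mul_one_div, h1, Finset.mul_sum]
      refine Finset.sum_congr rfl fun i _ => ?_
      rw [hg]
      ring
    rw [hline T hbT.le le_rfl fun i => (ha' i).ne', hline b' le_rfl hbT.le fun i => (ha i).ne,
      Finset.mul_sum, ← Finset.sum_add_distrib]
    refine Finset.sum_congr rfl fun i _ => ?_
    rw [pole1 hb hgd hM (ha i) (ha' i), hg]
    ring

end Pool.Agent.W5h55.MO
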