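import Pool.Agent.W5h55.MO.Defs

set_option autoImplicit false

/-!
# Inversion (task I)
-/

namespace Pool.Agent.W5h55.MO

open Finset Complex MeasureTheory

/-- the kernel times `exp (-w l)` as a quadratic exponential -/
theorem KK_quad (T v u l y : ℝ) :
    KK v u (T + y * I) * Complex.exp (-(T + y * I) * l) =
      Complex.exp ((-(1 / 4) : ℂ) * (y : ℂ) ^ 2 +
        (I * ((T - I * v) - 2 * ((l - u : ℝ) : ℂ)) / 2) * y +
          ((T - I * v) ^ 2 / 4 - T * ((l - u : ℝ) : ℂ))) := by
  unfold KK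
  rw [← Complex.exp_add]
  congr 1
  push_cast
  have hI : (I : ℂ) ^ 2 = -1 := I_sq
  linear_combination ((y : ℂ) ^ 2 / 4) * hI

theorem quarter_re : ((-(1 / 4) : ℂ)).re < 0 := by
  norm_num

theorem KK_exp_integrable (T v u l : ℝ) :
    Integrable (fun y : ℝ => KK v u (T + y * I) * Complex.exp (-(T + y * I) * l)) := by
  simp_rw [KK_quad]
  exact integrable_cexp_quadratic' quarter_re _ _

theorem KK_exp_integral (T v u l : ℝ) :
    ∫ y : ℝ, KK v u (T + y * I) * Complex.exp (-(T + y * I) * l) =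
      2 * (Real.sqrt Real.pi : ℂ) *
        Complex.exp (-((l - u : ℝ) : ℂ) ^ 2 - I * v * ((l - u : ℝ) : ℂ)) := by
  simp_rw [KK_quad]
  rw [integral_cexp_quadratic quarter_re]
  congr 1
  · have h1 : ((Real.pi : ℂ) / -(-(1 / 4))) = ((4 * Real.pi : ℝ) : ℂ) := by
      push_cast; ring
    rw [h1]
    have h2 : ((1 / 2 : ℂ)) = ((1 / 2 : ℝ) : ℂ) := by push_cast; ring
    rw [h2, ← Complex.ofReal_cpow (by positivity), ← Real.sqrt_eq_rpow,
      Real.sqrt_mul (by norm_num)]
    have h3 : Real.sqrt 4 = 2 := by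
      rw [show (4 : ℝ) = 2 ^ 2 by norm_num, Real.sqrt_sq (by norm_num)]
    rw [h3]
    push_cast
    ring
  · congr 1
    have hI : (I : ℂ) ^ 2 = -1 := I_sq
    push_cast
    linear_combination ((((T : ℂ) - I * v) - 2 * ((l : ℂ) - u)) ^ 2 / 4) * hI

theorem KK_integrable (T v u : ℝ) : Integrable (fun y : ℝ => KK v u (T + y * I)) := by
  have := KK_exp_integrable T v u 0
  simpa using this

theorem inv : S_I := by
  intro κ α A hκ h0 hα T v u hT
  have hT0 : 0 < T := by linarith
  have hcp : ∀ (d : ℕ), 0 < d → ∀ w : ℂ, (d : ℂ) ^ (-w) = Complex.exp (-w * (Real.log d : ℝ)) := by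
    intro d hd w
    rw [Complex.cpow_def_of_ne_zero (by exact_mod_cast hd.ne'), ← Complex.natCast_log]
    congr 1
    ring
  set F : ℕ → ℝ → ℂ := fun d y => KK v u (T + y * I) * (α d * (d : ℂ) ^ (-(T + y * I : ℂ))) with hF
  have hF2 : ∀ d y, F d y = α d * (KK v u (T + y * I) *
      Complex.exp (-(T + y * I) * (Real.log d : ℝ))) := by
    intro d y
    rcases Nat.eq_zero_or_pos d with hd | hd
    · subst hd
      simp [hF, h0]
    · simp only [hF]
      rw [hcp d hd]
      ring
  have hi : ∀ d, Integrable (F d) := by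
    intro d
    have : F d = fun y : ℝ => α d * (KK v u (T + y * I) *
      Complex.exp (-(T + y * I) * (Real.log d : ℝ))) := funext (hF2 d)
    rw [this]
    exact (KK_exp_integrable T v u _).const_mul _
  have hv : ∀ d, ∫ y, F d y = 2 * (Real.sqrt Real.pi : ℂ) * (α d *
      Complex.exp (-((Real.log d - u : ℝ) : ℂ) ^ 2 - I * v * ((Real.log d - u : ℝ) : ℂ))) := by
    intro d
    simp_rw [hF2]
    rw [integral_const_mul, KK_exp_integral]
    ring
  have hn : ∀ d, ∫ y, ‖F d y‖ = (∫ y : ℝ, ‖KK v u (T + y * I)‖) * (‖α d‖ * (d : ℝ) ^ (-T)) := by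
    intro d
    rw [← integral_mul_const]
    refine integral_congr_ae (Filter.Eventually.of_forall fun y => ?_)
    simp only [hF]
    rw [norm_mul, norm_mul]
    congr 2
    rw [norm_natCast_cpow_of_re_ne_zero d (by simp; linarith)]
    simp
  have hs : Summable fun d => ∫ y, ‖F d y‖ := by
    simp_rw [hn]
    apply Summable.mul_left
    have h1 : Summable fun d : ℕ => A * (d : ℝ) ^ (κ - T) :=
      (Real.summable_nat_rpow.2 (by linarith)).mul_left A
    refine Summable.of_nonneg_of_le (fun d => by positivity) (fun d => ?_) h1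
    rcases Nat.eq_zero_or_pos d with hd | hd
    · subst hd
      rw [h0]
      simp only [norm_zero, Nat.cast_zero, zero_mul]
      rw [Real.zero_rpow (by linarith), mul_zero]
    · have hd' : (0 : ℝ) < d := by exact_mod_cast hd
      calc ‖α d‖ * (d : ℝ) ^ (-T) ≤ A * (d : ℝ) ^ κ * (d : ℝ) ^ (-T) := by
            gcongr
            exact hα d
        _ = A * (d : ℝ) ^ (κ - T) := by
            rw [mul_assoc, ← Real.rpow_add hd', sub_eq_add_neg]
  have h := hasSum_integral_of_summable_integral_norm hi hs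
  have e1 : (fun y : ℝ => KK v u (T + y * I) * DS α (T + y * I)) = fun y => ∑' d, F d y := by
    funext y
    simp only [hF, DS]
    rw [tsum_mul_left]
  calc ∫ y : ℝ, KK v u (T + y * I) * DS α (T + y * I)
      = ∫ y : ℝ, ∑' d, F d y := by rw [e1]
    _ = ∑' d, ∫ y, F d y := h.tsum_eq.symm
    _ = 2 * (Real.sqrt Real.pi : ℂ) * SS α v u := by
        simp_rw [hv]
        rw [tsum_mul_left]
        rfl

end Pool.Agent.W5h55.MO
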