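import Pool.Agent.W5h55.MO.Defs2
import Pool.Agent.W5h55.MO.H
import Pool.Agent.W5h55.MO.I
import Pool.Agent.W5h55.MO.E

set_option autoImplicit false

/-!
# The asymptotic formula for one Dirichlet series
-/

namespace Pool.Agent.W5h55.MO

open Finset Complex MeasureTheory Filter

theorem core {ι : Type} [Fintype ι] [DecidableEq ι] {b b' κ : ℝ} (hb : b < b') (hb' : b' < 1)
    (hκ : 0 ≤ κ) (N : ℕ) : ∃ Z : ℝ, 0 ≤ Z ∧ ∀ (a : ι → ℂ) (α : ℕ → ℂ) (A : ℝ) (f : ℂ → ℂ)
      (C τ : ℝ), Function.Injective a → (∀ i, (a i).re = 1) → α 0 = 0 →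
      (∀ d : ℕ, ‖α d‖ ≤ A * (d : ℝ) ^ κ) → DifferentiableOn ℂ f {w | b < w.re} →
      (∀ w : ℂ, κ + 1 < w.re → f w = DS α w * ∏ i, (w - a i)) →
      (∀ w : ℂ, b < w.re → ‖f w‖ ≤ C * (1 + τ + ‖w‖) ^ N) → 0 ≤ τ → 0 ≤ C → ∀ v u : ℝ,
      ‖SS α v u - ∑ i, ((Real.sqrt Real.pi : ℂ) * f (a i) / ∏ i' ∈ univ.erase i, (a i - a i')) *
        Complex.exp ((a i - I * v) ^ 2 / 4) * Complex.exp (a i * u)‖ ≤
        C * Z * (1 + τ + |v|) ^ N * Real.exp (b' * u) := by
  obtain ⟨Z0, hZ0, hE⟩ := errb b' N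
  have h1b : 0 < 1 - b' := by linarith
  refine ⟨(1 + |b'|) ^ N / (1 - b') ^ Fintype.card ι * Z0, by positivity, ?_⟩
  intro a α A f C τ hinj ha hα0 hα hfd hf hfb hτ hC v u
  have hT : κ + 1 < κ + 2 := by linarith
  have h1 := inv κ α A hκ hα0 hα (κ + 2) v u hT
  have h2 := shift ι a b b' (κ + 2) f (C * (1 + τ) ^ N) N v u hinj hb
    (fun i => by rw [ha]; exact hb') (fun i => by rw [ha]; linarith) (by linarith) hfd
    (fun w h3 _ => by
      refine (hfb w h3).trans ?_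
      rw [mul_assoc, ← mul_pow]
      refine mul_le_mul_of_nonneg_left (pow_le_pow_left₀ (by positivity) ?_ N) hC
      nlinarith [norm_nonneg w])
  have h3 : ∫ y : ℝ, KK v u ((κ + 2 : ℝ) + y * I) * DS α ((κ + 2 : ℝ) + y * I) =
      ∫ y : ℝ, KK v u ((κ + 2 : ℝ) + y * I) * f ((κ + 2 : ℝ) + y * I) /
        ∏ i, ((κ + 2 : ℝ) + y * I - a i) := by
    refine integral_congr_ae (Eventually.of_forall fun y => ?_)
    have hne : ∏ i, (((κ + 2 : ℝ) : ℂ) + y * I - a i) ≠ 0 := by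
      refine prod_ne_zero_iff.2 fun i _ h0 => ?_
      have h4 := congrArg Complex.re h0
      have h5 : (((κ + 2 : ℝ) : ℂ) + y * I - a i).re = κ + 2 - (a i).re := by simp
      rw [h5, ha, Complex.zero_re] at h4
      linarith
    have h5 : (((κ + 2 : ℝ) : ℂ) + y * I).re = κ + 2 := by simp
    simp only
    rw [hf _ (by rw [h5]; exact hT), ← mul_assoc, mul_div_cancel_right₀ _ hne]
  rw [h3] at h1
  rw [h1] at h2
  set s : ℝ := Real.sqrt Real.pi with hs
  have hs1 : 1 ≤ s := by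
    rw [hs, Real.one_le_sqrt]
    linarith [Real.pi_gt_three]
  have hs2 : (s : ℂ) * s = Real.pi := by
    rw [← Complex.ofReal_mul, hs, Real.mul_self_sqrt Real.pi_pos.le]
  have hs0 : (s : ℂ) ≠ 0 := by
    rw [Complex.ofReal_ne_zero]
    linarith
  have hkey : (2 * (s : ℂ)) * (SS α v u - ∑ i, ((s : ℂ) * f (a i) /
      ∏ i' ∈ univ.erase i, (a i - a i')) * Complex.exp ((a i - I * v) ^ 2 / 4) *
        Complex.exp (a i * u)) =
      ∫ y : ℝ, KK v u (b' + y * I) * (f (b' + y * I) / ∏ i, (b' + y * I - a i)) := by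
    have h4 : ∀ i, KK v u (a i) * f (a i) / ∏ i' ∈ univ.erase i, (a i - a i') =
        (f (a i) / ∏ i' ∈ univ.erase i, (a i - a i')) * Complex.exp ((a i - I * v) ^ 2 / 4) *
        Complex.exp (a i * u) := by
      intro i
      rw [KK, Complex.exp_add]
      ring
    have h5 : ∀ i, ((s : ℂ) * f (a i) /
        ∏ i' ∈ univ.erase i, (a i - a i')) * Complex.exp ((a i - I * v) ^ 2 / 4) *
        Complex.exp (a i * u) = s * (KK v u (a i) * f (a i) /
          ∏ i' ∈ univ.erase i, (a i - a i')) := by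
      intro i
      rw [h4]
      ring
    simp_rw [h5]
    rw [← Finset.mul_sum, mul_sub, h2]
    have h6 : (fun y : ℝ => KK v u (b' + y * I) * (f (b' + y * I) / ∏ i, (b' + y * I - a i))) =
        fun y : ℝ => KK v u (b' + y * I) * f (b' + y * I) / ∏ i, (b' + y * I - a i) := by
      funext y
      rw [mul_div_assoc]
    rw [h6]
    linear_combination (-2 * ∑ i, KK v u (a i) * f (a i) / ∏ i' ∈ univ.erase i, (a i - a i')) * hs2
  have hh : ∀ y : ℝ, ‖f (b' + y * I) / ∏ i, (b' + y * I - a i)‖ ≤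
      (C * ((1 + |b'|) ^ N / (1 - b') ^ Fintype.card ι)) * (1 + τ + |y|) ^ N := by
    intro y
    have h7 : (1 - b') ^ Fintype.card ι ≤ ‖∏ i, ((b' : ℂ) + y * I - a i)‖ := by
      rw [norm_prod]
      have h8 : ∀ i ∈ (univ : Finset ι), 1 - b' ≤ ‖(b' : ℂ) + y * I - a i‖ := by
        intro i _
        have h9 := Complex.abs_re_le_norm ((b' : ℂ) + y * I - a i)
        have h10 : ((b' : ℂ) + y * I - a i).re = b' - 1 := by simp [ha]
        rw [h10, abs_sub_comm, abs_of_pos h1b] at h9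
        exact h9
      calc (1 - b') ^ Fintype.card ι = ∏ _i : ι, (1 - b') := by simp
        _ ≤ _ := prod_le_prod (fun _ _ => h1b.le) h8
    have h8 : ‖f (b' + y * I)‖ ≤ C * ((1 + |b'|) ^ N * (1 + τ + |y|) ^ N) := by
      refine (hfb _ (by simpa using hb)).trans ?_
      rw [← mul_pow]
      refine mul_le_mul_of_nonneg_left (pow_le_pow_left₀ (by positivity) ?_ N) hC
      have h9 : ‖(b' : ℂ) + y * I‖ ≤ |b'| + |y| := by
        refine (norm_add_le _ _).trans ?_
        rw [norm_mul, Complex.norm_I, mul_one, Complex.norm_real, Complex.norm_real,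
          Real.norm_eq_abs, Real.norm_eq_abs]
      nlinarith [abs_nonneg b', abs_nonneg y]
    rw [norm_div]
    calc ‖f (b' + y * I)‖ / ‖∏ i, ((b' : ℂ) + y * I - a i)‖
        ≤ (C * ((1 + |b'|) ^ N * (1 + τ + |y|) ^ N)) / (1 - b') ^ Fintype.card ι :=
          div_le_div₀ (by positivity) h8 (by positivity) h7
      _ = _ := by ring
  have hfin := hE v u τ (C * ((1 + |b'|) ^ N / (1 - b') ^ Fintype.card ι))
    (fun y => f (b' + y * I) / ∏ i, (b' + y * I - a i)) hτ (by positivity) hh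
  rw [← hkey, norm_mul] at hfin
  have h11 : 1 ≤ ‖2 * (s : ℂ)‖ := by
    rw [norm_mul, Complex.norm_real, Real.norm_eq_abs, abs_of_pos (by linarith)]
    norm_num
    linarith
  refine (le_mul_of_one_le_left (norm_nonneg _) h11).trans (hfin.trans (le_of_eq ?_))
  ring

end Pool.Agent.W5h55.MO
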