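import Pool.Agent.W5h55.MO.MDefs
import Pool.Agent.W5h55.MO.QCore
import Pool.Agent.W5h55.MO.N

set_option autoImplicit false

/-!
# From the continuation of the fibres to the asymptotic formula
-/

namespace Pool.Agent.W5h55.MO

open Finset Complex MeasureTheory Filter Pool.Agent.W5h65.MD Pool.Agent.W5h55.MC

theorem ex_re {k : ℕ} (t : Fin k → ℝ) (J : Finset (Fin k)) :
    (ex (sp (fun _ : Fin k => 1 / 2) t) J).re = 1 := by
  have h1 : (((J.card : ℕ) : ℂ) / 2).re = (J.card : ℝ) / 2 := by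
    rw [show ((J.card : ℕ) : ℂ) / 2 = (((J.card : ℝ) / 2 : ℝ) : ℂ) by push_cast; ring]
    exact Complex.ofReal_re _
  have h2 : ∀ j : Fin k, (sp (fun _ : Fin k => 1 / 2) t j).re = 1 / 2 := by
    intro j
    simp [sp]
  unfold ex
  rw [Complex.sub_re, Complex.add_re, Complex.one_re, h1, Complex.re_sum,
    Finset.sum_congr rfl (fun j _ => h2 j), Finset.sum_const, nsmul_eq_mul]
  ring

theorem ex_im {k : ℕ} (t : Fin k → ℝ) (J : Finset (Fin k)) :
    (ex (sp (fun _ : Fin k => 1 / 2) t) J).im = -∑ j ∈ J, t j := by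
  have h1 : (((J.card : ℕ) : ℂ) / 2).im = 0 := by
    rw [show ((J.card : ℕ) : ℂ) / 2 = (((J.card : ℝ) / 2 : ℝ) : ℂ) by push_cast; ring]
    exact Complex.ofReal_im _
  have h2 : ∀ j : Fin k, (sp (fun _ : Fin k => 1 / 2) t j).im = t j := by
    intro j
    simp [sp]
  unfold ex
  rw [Complex.sub_im, Complex.add_im, Complex.one_im, h1, Complex.im_sum,
    Finset.sum_congr rfl (fun j _ => h2 j)]
  ring

/-- **From the continuation to the asymptotic formula, on the critical line.** -/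
theorem fib_mom_of (hN : S_N) : S_Q := by
  intro k Λ hΛ M c hc hF
  obtain ⟨δ, hδ, C, N, f, hf⟩ := hF
  obtain ⟨B, _, hal⟩ := al_bound hΛ M (σ := fun _ : Fin k => 1 / 2) (fun _ => by norm_num)
  obtain ⟨Z, _, hcore⟩ := core (ι := Finset (Fin k)) (b := c - δ) (b' := c - δ / 2) (κ := k)
    (by linarith) (by linarith) (by positivity) N
  refine ⟨δ / 2, by positivity, |C| * Z, N, ?_⟩
  filter_upwards [hf, hN k] with t ht hinj
  obtain ⟨hd, hfr, hfb⟩ := ht
  have hinj' : Function.Injective (ex (sp (fun _ : Fin k => 1 / 2) t)) := by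
    intro J J' h
    apply hinj
    have h1 := congrArg Complex.im h
    rw [ex_im, ex_im] at h1
    exact neg_injective h1
  refine ⟨fun J => (Real.sqrt Real.pi : ℂ) * f t (ex (sp (fun _ : Fin k => 1 / 2) t) J) /
    ∏ J' ∈ univ.erase J, (ex (sp (fun _ : Fin k => 1 / 2) t) J -
      ex (sp (fun _ : Fin k => 1 / 2) t) J'), fun v u _ => ?_⟩
  exact hcore (ex (sp (fun _ : Fin k => 1 / 2) t)) (al Λ M (sp (fun _ : Fin k => 1 / 2) t))
    ((B * (1 + ‖t‖)) ^ k) (f t) |C| ‖t‖ hinj' (ex_re t) (al_zero _ _ _) (hal t) hd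
    (fun w hw => (hfr w hw).trans (FX_fibre Λ M _ t w))
    (fun w hw => (hfb w hw).trans
      (mul_le_mul_of_nonneg_right (le_abs_self C) (by positivity)))
    (norm_nonneg t) (abs_nonneg C) v u

theorem fib_mom : S_Q := fib_mom_of nul

end Pool.Agent.W5h55.MO
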