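import Pool.Agent.W5h55.MO.Final2
import Pool.Agent.W5h55.MO.Q
import Pool.Agent.W5h55.MO.M

set_option autoImplicit false

/-!
# The final theorem
-/

namespace Pool.Agent.W5h55.MO

open Finset Complex MeasureTheory Pool.Agent.W5h65.MD Pool.Agent.W5h55.MC

theorem final3 (k M : ℕ) :
    (∃ Λ : ℕ → ℂ → ℂ, IsCont Λ) ∧
    ∀ Λ : ℕ → ℂ → ℂ, IsCont Λ →
      (Q1 k M ↔ ∃ U, Extends (FF (k := k) M) U ∧ ∃ p ∈ U, cen p ≤ 1) ∧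
      (Q1 k M ↔ Fib Λ M (fun _ : Fin k => 1 / 2) 1) ∧
      (Q1 k M ↔ Moments Λ M (fun _ : Fin k => 1 / 2) 1) ∧
      (∀ σ : Fin k → ℝ, (∀ j, 0 < σ j) → (Fib Λ M σ (1 - (∑ j, (σ j - 1 / 2)) / 2) ∨
        Moments Λ M σ (1 - (∑ j, (σ j - 1 / 2)) / 2)) → Q1 k M) ∧
      ∃ D : Set (Fin (k + 1) → ℝ), Extends (FF (k := k) M) D ∧ Convex ℝ D ∧
        (∀ U, Extends (FF (k := k) M) U → U ⊆ D) ∧
        (∀ p ∈ D, ∀ j : Fin k, 0 < p j.succ → p j.succ < 1 → refl j p ∈ D) ∧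
        (∀ p ∈ D, crit k (cen p) ∈ D) ∧
        (∀ σ : Fin k → ℝ, (∀ j, 0 < σ j) → ∀ c : ℝ,
          ((Fin.cons c σ : Fin (k + 1) → ℝ) ∈ D ↔ Fib Λ M σ c)) ∧
        ∀ c : ℝ, c ≤ 1 → (crit k c ∈ D ↔ Moments Λ M (fun _ : Fin k => 1 / 2) c) :=
  final2 mel fib_mom k M

end Pool.Agent.W5h55.MO
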