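import Pool.Agent.W5h55.MO.Defs5
import Pool.Agent.W5h55.MO.I
import Pool.Agent.W5h55.MO.EB

set_option autoImplicit false

/-!
# Inversion for the smoothed step
-/

namespace Pool.Agent.W5h55.MO

open Finset Complex MeasureTheory Filter

namespace IV

theorem trans_Ioi (g : ℝ → ℝ) (X : ℝ) :
    ∫ r in Set.Ioi (0 : ℝ), g (r - X) = ∫ r in Set.Ioi (-X), g r := by
  rw [← integral_indicator measurableSet_Ioi, ← integral_indicator measurableSet_Ioi,
    ← integral_sub_right_eq_self (fun r => (Set.Ioi (-X)).indicator g r) X]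
  refine integral_congr_ae (Eventually.of_forall fun r => ?_)
  simp only [Set.indicator, Set.mem_Ioi]
  have : (-X < r - X) ↔ 0 < r := by constructor <;> intro h <;> linarith
  simp [this]

/-- The basic integral. -/
theorem basic {T : ℝ} (hT : 0 < T) (X : ℝ) :
    ∫ y : ℝ, KK 0 X (T + y * I) / (T + y * I) =
      2 * (Real.sqrt Real.pi : ℂ) * ((∫ r in Set.Ioi (-X), Real.exp (-r ^ 2) : ℝ) : ℂ) := by
  have h1 : ∀ y : ℝ, KK 0 X (T + y * I) / (T + y * I) =
      ∫ r : ℝ in Set.Ioi 0, KK 0 X (T + y * I) * Complex.exp (-(T + y * I) * r) := by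
    intro y
    rw [integral_const_mul, integral_exp_mul_complex_Ioi (by simpa using hT), ofReal_zero,
      mul_zero, Complex.exp_zero, neg_div_neg_eq, one_div, div_eq_mul_inv]
  simp_rw [h1]
  rw [integral_integral_swap]
  · simp_rw [KK_exp_integral T 0 X]
    rw [integral_const_mul, ← trans_Ioi, ← integral_complex_ofReal]
    congr 2
    funext r
    push_cast
    congr 1
    ring
  · have h5 : Integrable (fun z : ℝ × ℝ => ‖KK 0 X (T + z.1 * I)‖ *
        Real.exp (-T * z.2)) ((volume : Measure ℝ).prod (volume.restrict (Set.Ioi 0))) :=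
      (KK_integrable T 0 X).norm.mul_prod (integrableOn_exp_mul_Ioi (by linarith) 0)
    refine h5.mono' ?_ ?_
    · refine Continuous.aestronglyMeasurable ?_
      simp only [Function.uncurry_def, KK]
      fun_prop
    · refine Eventually.of_forall fun z => ?_
      simp only [Function.uncurry_def]
      rw [norm_mul]
      refine le_of_eq ?_
      congr 1
      rw [Complex.norm_exp]
      congr 1
      simp

/-- The same for the kernel of width `η`. -/
theorem basicE {T η : ℝ} (hT : 0 < T) (hη : 0 < η) (u l : ℝ) :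
    ∫ y : ℝ, KE η u (T + y * I) * (Complex.exp (-(T + y * I) * l) / (T + y * I)) =
      2 * Real.pi * (St η (l - u) : ℂ) := by
  have hη' : (η : ℂ) ≠ 0 := by exact_mod_cast hη.ne'
  have h1 := Measure.integral_comp_mul_left (fun y : ℝ =>
    KK 0 ((u - l) / η) ((η * T : ℝ) + y * I) / ((η * T : ℝ) + y * I)) η
  rw [basic (mul_pos hη hT)] at h1
  have h2 : ∀ s : ℝ, KK 0 ((u - l) / η) ((η * T : ℝ) + (η * s : ℝ) * I) /
      ((η * T : ℝ) + (η * s : ℝ) * I) =
      (η : ℂ)⁻¹ * (KE η u (T + s * I) * (Complex.exp (-(T + s * I) * l) / (T + s * I))) := by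
    intro s
    have h3 : (((η * T : ℝ) : ℂ) + (η * s : ℝ) * I) = η * (T + s * I) := by
      push_cast
      ring
    have h4 : KK 0 ((u - l) / η) (η * (T + s * I)) =
        KE η u (T + s * I) * Complex.exp (-(T + s * I) * l) := by
      rw [KK, KE, ← Complex.exp_add]
      congr 1
      push_cast
      field_simp
      ring
    rw [h3, h4, div_eq_mul_inv, div_eq_mul_inv, mul_inv]
    ring
  simp only [h2] at h1
  rw [integral_const_mul, abs_of_pos (inv_pos.2 hη), Complex.real_smul, Complex.ofReal_inv] at h1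
  have h5 := mul_left_cancel₀ (inv_ne_zero hη') h1
  rw [h5, St]
  have h6 : -((u - l) / η) = (l - u) / η := by ring
  rw [h6]
  have hp : 0 < Real.sqrt Real.pi := Real.sqrt_pos.2 Real.pi_pos
  have hp' : (Real.sqrt Real.pi : ℂ) ≠ 0 := by exact_mod_cast hp.ne'
  have h7 : (Real.pi : ℂ) = (Real.sqrt Real.pi : ℂ) * (Real.sqrt Real.pi : ℂ) := by
    rw [← Complex.ofReal_mul, Real.mul_self_sqrt Real.pi_pos.le]
  push_cast
  rw [h7]
  field_simp

/-- Integrability of the kernel. -/
theorem KE_integrable {η : ℝ} (hη : 0 < η) (u b : ℝ) :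
    Integrable fun y : ℝ => KE η u (b + y * I) := by
  have h1 : Integrable fun y : ℝ => Real.exp (-(η * y) ^ 2 / 4) := by
    have h2 := integrable_exp_neg_mul_sq (b := η ^ 2 / 4) (by positivity)
    refine h2.congr (Eventually.of_forall fun y => ?_)
    simp only
    congr 1
    ring
  refine Integrable.mono' (h1.const_mul (Real.exp (η ^ 2 * b ^ 2 / 4) * Real.exp (b * u)))
    (Continuous.aestronglyMeasurable (by unfold KE; fun_prop)) (Eventually.of_forall fun y => ?_)
  rw [ErrEB.norm_KE_line]
  refine le_of_eq ?_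
  ring

end IV

open IV

theorem inve : S_IV := by
  intro κ α A hκ h0 hα T u η hT hη
  have hT0 : 0 < T := by linarith
  have hcp : ∀ (d : ℕ), 0 < d → ∀ w : ℂ, (d : ℂ) ^ (-w) = Complex.exp (-w * (Real.log d : ℝ)) := by
    intro d hd w
    rw [Complex.cpow_def_of_ne_zero (by exact_mod_cast hd.ne'), ← Complex.natCast_log]
    congr 1
    ring
  have hw : ∀ y : ℝ, T ≤ ‖(T : ℂ) + y * I‖ := by
    intro y
    have := Complex.re_le_norm ((T : ℂ) + y * I)
    simpa using this
  have hw0 : ∀ y : ℝ, (T : ℂ) + y * I ≠ 0 := by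
    intro y h
    have := hw y
    rw [h, norm_zero] at this
    linarith
  set F : ℕ → ℝ → ℂ := fun d y =>
    KE η u (T + y * I) * (α d * (d : ℂ) ^ (-(T + y * I : ℂ)) / (T + y * I)) with hF
  have hF2 : ∀ d y, F d y = α d * (KE η u (T + y * I) *
      (Complex.exp (-(T + y * I) * (Real.log d : ℝ)) / (T + y * I))) := by
    intro d y
    rcases Nat.eq_zero_or_pos d with hd | hd
    · subst hd
      simp [hF, h0]
    · simp only [hF]
      rw [hcp d hd]
      ring
  have hb : ∀ d y, ‖F d y‖ ≤ ‖KE η u (T + y * I)‖ * (‖α d‖ * (d : ℝ) ^ (-T) / T) := by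
    intro d y
    simp only [hF]
    rw [norm_mul, norm_div, norm_mul]
    have h1 : ‖(d : ℂ) ^ (-(T + y * I : ℂ))‖ = (d : ℝ) ^ (-T) := by
      rw [norm_natCast_cpow_of_re_ne_zero d (by simp; linarith)]
      simp
    rw [h1]
    gcongr
    exact hw y
  have hi : ∀ d, Integrable (F d) := by
    intro d
    refine Integrable.mono' ((KE_integrable hη u T).norm.mul_const (‖α d‖ * (d : ℝ) ^ (-T) / T))
      ?_ (Eventually.of_forall (hb d))
    have : F d = fun y : ℝ => α d * (KE η u (T + y * I) *
      (Complex.exp (-(T + y * I) * (Real.log d : ℝ)) / (T + y * I))) := funext (hF2 d)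
    rw [this]
    refine Continuous.aestronglyMeasurable ?_
    refine continuous_const.mul (Continuous.mul (by unfold KE; fun_prop) ?_)
    exact Continuous.div (by fun_prop) (by fun_prop) hw0
  have hv : ∀ d, ∫ y, F d y = 2 * Real.pi * (α d * (St η (Real.log d - u) : ℂ)) := by
    intro d
    simp_rw [hF2]
    rw [integral_const_mul, basicE hT0 hη]
    ring
  have hn : ∀ d, ∫ y, ‖F d y‖ ≤
      (∫ y : ℝ, ‖KE η u (T + y * I)‖) * (‖α d‖ * (d : ℝ) ^ (-T) / T) := by
    intro d
    rw [← integral_mul_const]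
    exact integral_mono (hi d).norm ((KE_integrable hη u T).norm.mul_const _) (hb d)
  have hs : Summable fun d => ∫ y, ‖F d y‖ := by
    have h1 : Summable fun d : ℕ => (∫ y : ℝ, ‖KE η u (T + y * I)‖) *
        (A * (d : ℝ) ^ (κ - T) / T) :=
      (((Real.summable_nat_rpow.2 (by linarith)).mul_left A).div_const T).mul_left _
    refine Summable.of_nonneg_of_le (fun d => integral_nonneg fun y => norm_nonneg _)
      (fun d => (hn d).trans ?_) h1
    refine mul_le_mul_of_nonneg_left ?_ (integral_nonneg fun y => norm_nonneg _)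
    refine div_le_div_of_nonneg_right ?_ hT0.le
    rcases Nat.eq_zero_or_pos d with hd | hd
    · subst hd
      rw [h0]
      simp only [norm_zero, Nat.cast_zero, zero_mul]
      rw [Real.zero_rpow (by linarith), mul_zero]
    · have hd' : (0 : ℝ) < d := by exact_mod_cast hd
      calc ‖α d‖ * (d : ℝ) ^ (-T) ≤ A * (d : ℝ) ^ κ * (d : ℝ) ^ (-T) := by
            gcongr
            exact hα d
        _ = A * (d : ℝ) ^ (κ - T) := by
            rw [mul_assoc, ← Real.rpow_add hd', sub_eq_add_neg]
  have h := hasSum_integral_of_summable_integral_norm hi hs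
  have e1 : (fun y : ℝ => KE η u (T + y * I) * (DS α (T + y * I) / (T + y * I))) =
      fun y => ∑' d, F d y := by
    funext y
    simp only [hF, DS]
    rw [tsum_mul_left, tsum_div_const]
  calc ∫ y : ℝ, KE η u (T + y * I) * (DS α (T + y * I) / (T + y * I))
      = ∫ y : ℝ, ∑' d, F d y := by rw [e1]
    _ = ∑' d, ∫ y, F d y := h.tsum_eq.symm
    _ = 2 * Real.pi * SE α η u := by
        simp_rw [hv]
        rw [tsum_mul_left]
        rfl

end Pool.Agent.W5h55.MO
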