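import Pool.Agent.W5h55.MO.Defs5
import Pool.Agent.W5h55.MO.H

set_option autoImplicit false

/-!
# Moving the line of integration, kernel of width `η`
-/

namespace Pool.Agent.W5h55.MO

open Finset Complex MeasureTheory Filter

namespace ShKH

/-- Rescaling of the kernel. -/
theorem KK_scale {η : ℝ} (hη : 0 < η) (u : ℝ) (w : ℂ) : KK 0 (u / η) (η * w) = KE η u w := by
  have hη' : (η : ℂ) ≠ 0 := by exact_mod_cast hη.ne'
  rw [KK, KE]
  congr 1
  push_cast
  field_simp
  ring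

/-- Rescaling of the line of integration. -/
theorem line_scale {ι : Type} [Fintype ι] (a : ι → ℂ) (f : ℂ → ℂ) {η : ℝ} (hη : 0 < η)
    (u x : ℝ) :
    ∫ y : ℝ, KK 0 (u / η) ((η * x : ℝ) + y * I) * f (((η * x : ℝ) + y * I) / η) /
        ∏ i, (((η * x : ℝ) : ℂ) + y * I - η * a i) =
      η * ((η : ℂ) ^ Fintype.card ι)⁻¹ *
        ∫ y : ℝ, KE η u (x + y * I) * f (x + y * I) / ∏ i, (x + y * I - a i) := by
  have hη' : (η : ℂ) ≠ 0 := by exact_mod_cast hη.ne'
  have h1 := Measure.integral_comp_mul_left (fun y : ℝ =>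
    KK 0 (u / η) ((η * x : ℝ) + y * I) * f (((η * x : ℝ) + y * I) / η) /
        ∏ i, (((η * x : ℝ) : ℂ) + y * I - η * a i)) η
  have h2 : ∀ s : ℝ, KK 0 (u / η) ((η * x : ℝ) + (η * s : ℝ) * I) *
      f (((η * x : ℝ) + (η * s : ℝ) * I) / η) /
        ∏ i, (((η * x : ℝ) : ℂ) + (η * s : ℝ) * I - η * a i) =
      ((η : ℂ) ^ Fintype.card ι)⁻¹ * (KE η u (x + s * I) * f (x + s * I) /
        ∏ i, (x + s * I - a i)) := by
    intro s
    have h3 : (((η * x : ℝ) : ℂ) + (η * s : ℝ) * I) = η * (x + s * I) := by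
      push_cast
      ring
    rw [h3, KK_scale hη, mul_div_cancel_left₀ _ hη']
    have h4 : ∏ i, ((η : ℂ) * (x + s * I) - η * a i) =
        (η : ℂ) ^ Fintype.card ι * ∏ i, (x + s * I - a i) := by
      rw [← Finset.card_univ, ← Finset.prod_const, ← Finset.prod_mul_distrib]
      exact Finset.prod_congr rfl fun i _ => by ring
    rw [h4, div_eq_mul_inv, div_eq_mul_inv, mul_inv]
    ring
  simp only [h2] at h1
  rw [integral_const_mul, abs_of_pos (inv_pos.2 hη)] at h1
  rw [mul_assoc, h1, Complex.real_smul, ← mul_assoc]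
  push_cast
  rw [mul_inv_cancel₀ hη', one_mul]

end ShKH

open ShKH

theorem shifte : S_KH := by
  intro ι _ _ a b b' T f C N u η hinj hb ha ha' hbT hη hd hf
  have hη' : (η : ℂ) ≠ 0 := by exact_mod_cast hη.ne'
  have hre : ∀ w : ℂ, (w / η).re = w.re / η := fun w => by simp
  have key := shift ι (fun i => (η : ℂ) * a i) (η * b) (η * b') (η * T) (fun w => f (w / η))
    (|C| * (1 + 1 / η) ^ N) N 0 (u / η)
    (fun i j hij => hinj (mul_left_cancel₀ hη' hij))
    (mul_lt_mul_of_pos_left hb hη)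
    (fun i => by rw [Complex.re_ofReal_mul]; exact mul_lt_mul_of_pos_left (ha i) hη)
    (fun i => by rw [Complex.re_ofReal_mul]; exact mul_lt_mul_of_pos_left (ha' i) hη)
    (mul_lt_mul_of_pos_left hbT hη)
    (by
      refine hd.comp (by fun_prop) fun w hw => ?_
      simp only [Set.mem_setOf_eq] at hw ⊢
      rw [hre, lt_div_iff₀ hη]
      linarith)
    (by
      intro w hw1 hw2
      have h1 := hf (w / η) (by rw [hre, lt_div_iff₀ hη]; linarith)
        (by rw [hre, div_le_iff₀ hη]; linarith)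
      have hn : ‖w / η‖ = ‖w‖ / η := by rw [norm_div, Complex.norm_real, Real.norm_of_nonneg hη.le]
      rw [hn] at h1
      have h2 : 1 + ‖w‖ / η ≤ (1 + 1 / η) * (1 + ‖w‖) := by
        have h3 : 0 ≤ ‖w‖ := norm_nonneg w
        have h4 : 0 < 1 / η := by positivity
        have h5 : ‖w‖ / η = 1 / η * ‖w‖ := by ring
        rw [h5]
        nlinarith
      calc ‖f (w / η)‖ ≤ C * (1 + ‖w‖ / η) ^ N := h1
        _ ≤ |C| * (1 + ‖w‖ / η) ^ N := by
            gcongr
            exact le_abs_self C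
        _ ≤ |C| * ((1 + 1 / η) * (1 + ‖w‖)) ^ N := by gcongr
        _ = _ := by rw [mul_pow]; ring)
  rw [line_scale a f hη u T, line_scale a f hη u b'] at key
  have hsum : ∑ i, KK 0 (u / η) ((η : ℂ) * a i) * f ((η : ℂ) * a i / η) /
      ∏ i' ∈ univ.erase i, ((η : ℂ) * a i - η * a i') =
      η * ((η : ℂ) ^ Fintype.card ι)⁻¹ *
        ∑ i, KE η u (a i) * f (a i) / ∏ i' ∈ univ.erase i, (a i - a i') := by
    rw [Finset.mul_sum]
    refine Finset.sum_congr rfl fun i _ => ?_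
    rw [KK_scale hη, mul_div_cancel_left₀ _ hη']
    have h4 : ∏ i' ∈ univ.erase i, ((η : ℂ) * a i - η * a i') =
        (∏ i' ∈ univ.erase i, (η : ℂ)) * ∏ i' ∈ univ.erase i, (a i - a i') := by
      rw [← Finset.prod_mul_distrib]
      exact Finset.prod_congr rfl fun i _ => by ring
    have h5 : (η : ℂ) ^ Fintype.card ι = η * ∏ i' ∈ univ.erase i, (η : ℂ) := by
      rw [Finset.mul_prod_erase univ (fun _ => (η : ℂ)) (Finset.mem_univ i), Finset.prod_const,
        Finset.card_univ]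
    rw [h4, h5, mul_inv, ← mul_assoc, mul_inv_cancel₀ hη', one_mul, div_eq_mul_inv, div_eq_mul_inv,
      mul_inv]
    ring
  rw [hsum] at key
  have hne : (η : ℂ) * ((η : ℂ) ^ Fintype.card ι)⁻¹ ≠ 0 :=
    mul_ne_zero hη' (inv_ne_zero (pow_ne_zero _ hη'))
  refine mul_left_cancel₀ hne ?_
  rw [key]
  ring

end Pool.Agent.W5h55.MO
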