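import Pool.Agent.W5h55.MO.Defs6

set_option autoImplicit false

/-!
# The Lindelöf bound on the critical line, from the bounds to the right of it
-/

namespace Pool.Agent.W5h55.MO

open Complex Filter Asymptotics Pool.Agent.W5h65.MD Pool.Agent.W5h55.MC

theorem crit_lind : S_L2 := by
  intro Λ hΛ hyp ε hε
  set δ : ℝ := min (ε / 2) (1 / 4) with hδd
  have hδ0 : 0 < δ := lt_min (by linarith) (by norm_num)
  have hδ1 : δ ≤ ε / 2 := min_le_left _ _
  have hδ2 : δ ≤ 1 / 4 := min_le_right _ _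
  obtain ⟨C₁, A, h1⟩ := hyp δ 1 hδ0
  set K : ℝ := |kap (1 / 2 - δ)| with hK
  have hK0 : 0 ≤ K := abs_nonneg _
  set C2 : ℝ := (1 + 2 * K) * |C₁| * 2 ^ A with hC2
  have hC20 : 0 ≤ C2 := by positivity
  refine ⟨C2 * 3 ^ (A + 1), A + 1, by positivity, ?_⟩
  intro d t hd hd1
  have hd0 : (0 : ℝ) < d := by exact_mod_cast (by omega : 0 < d)
  have hd1' : (1 : ℝ) ≤ d := by exact_mod_cast hd1.le
  obtain ⟨hdiff, -⟩ := hΛ d hd hd1
  obtain ⟨hap, hfe⟩ := hΛ.prop hd hd1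
  -- comparison of sizes
  have hnn : ∀ s : ℂ, 1 / 4 ≤ s.re → s.re ≤ 3 / 4 → 1 ≤ ‖s + 2‖ ∧ ‖s‖ ≤ ‖s + 2‖ ∧
      ‖1 - s‖ ≤ ‖s + 2‖ ∧ |s.im| ≤ ‖s + 2‖ := by
    intro s hs1 hs2
    have e1 : (s + 2).re = s.re + 2 := by simp
    have e2 : (s + 2).im = s.im := by simp
    refine ⟨?_, ?_, ?_, ?_⟩
    · have := Complex.re_le_norm (s + 2)
      rw [e1] at this
      linarith
    · rw [Complex.norm_eq_sqrt_sq_add_sq, Complex.norm_eq_sqrt_sq_add_sq]
      apply Real.sqrt_le_sqrt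
      rw [e1, e2]
      nlinarith
    · rw [Complex.norm_eq_sqrt_sq_add_sq, Complex.norm_eq_sqrt_sq_add_sq]
      apply Real.sqrt_le_sqrt
      rw [e1, e2]
      have e3 : (1 - s).re = 1 - s.re := by simp
      have e4 : (1 - s).im = -s.im := by simp
      rw [e3, e4]
      nlinarith
    · have := Complex.abs_im_le_norm (s + 2)
      rwa [e2] at this
  set f : ℂ → ℂ := fun s => Λ d s / (s + 2) ^ (A + 1) with hf
  set a : ℝ := 1 / 2 - δ with ha
  set b : ℝ := 1 / 2 + δ with hb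
  have hne : ∀ s : ℂ, 1 / 4 ≤ s.re → s.re ≤ 3 / 4 → s + 2 ≠ 0 := by
    intro s hs1 hs2 h0
    have := (hnn s hs1 hs2).1
    rw [h0, norm_zero] at this
    linarith
  have hcl : closure (re ⁻¹' Set.Ioo a b) ⊆ re ⁻¹' Set.Icc a b :=
    closure_minimal (Set.preimage_mono Set.Ioo_subset_Icc_self)
      (isClosed_Icc.preimage continuous_re)
  have hfd : DiffContOnCl ℂ f (re ⁻¹' Set.Ioo a b) := by
    apply DifferentiableOn.diffContOnCl
    intro s hs
    have hs' := hcl hs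
    simp only [Set.mem_preimage, Set.mem_Icc] at hs'
    have hs1 : 1 / 4 ≤ s.re := by linarith [hs'.1]
    have hs2 : s.re ≤ 3 / 4 := by linarith [hs'.2]
    have hden : DifferentiableAt ℂ (fun s : ℂ => (s + 2) ^ (A + 1)) s := by fun_prop
    exact (hdiff.differentiableAt.div hden (pow_ne_zero _ (hne s hs1 hs2))).differentiableWithinAt
  have hfn : ∀ s : ℂ, ‖f s‖ = ‖Λ d s‖ / ‖s + 2‖ ^ (A + 1) := by
    intro s
    rw [hf]
    simp only [norm_div, norm_pow]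
  have hdd : (d : ℝ) ^ δ ≤ (d : ℝ) ^ ε := Real.rpow_le_rpow_of_exponent_le hd1' (by linarith)
  have hddd : (d : ℝ) ^ δ * (d : ℝ) ^ δ ≤ (d : ℝ) ^ ε := by
    rw [← Real.rpow_add hd0]
    exact Real.rpow_le_rpow_of_exponent_le hd1' (by linarith)
  have hdδ : 0 ≤ (d : ℝ) ^ δ := Real.rpow_nonneg hd0.le _
  have hdε : 0 ≤ (d : ℝ) ^ ε := Real.rpow_nonneg hd0.le _
  -- the bound at a point to the right
  have hright : ∀ s : ℂ, s.re = b → ∀ N : ℝ, 1 ≤ N → ‖s‖ ≤ N →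
      ‖Λ d s‖ ≤ |C₁| * (2 ^ A * N ^ A) * (d : ℝ) ^ δ := by
    intro s hs N hN hsN
    have h2 := h1 d s hd hd1 (by rw [hs]) (by rw [hs, hb]; linarith)
    refine h2.trans ?_
    have h3 : (1 + ‖s‖) ^ A ≤ 2 ^ A * N ^ A := by
      rw [← mul_pow]
      exact pow_le_pow_left₀ (by positivity) (by linarith) _
    have h4 : 0 ≤ (1 + ‖s‖) ^ A := by positivity
    have h5 : C₁ * (1 + ‖s‖) ^ A ≤ |C₁| * (2 ^ A * N ^ A) := by
      calc C₁ * (1 + ‖s‖) ^ A ≤ |C₁| * (1 + ‖s‖) ^ A :=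
            mul_le_mul_of_nonneg_right (le_abs_self _) h4
        _ ≤ _ := mul_le_mul_of_nonneg_left h3 (abs_nonneg _)
    exact mul_le_mul_of_nonneg_right h5 hdδ
  have hB : ∃ c < Real.pi / (b - a), ∃ B,
      f =O[comap (_root_.abs ∘ im) atTop ⊓ 𝓟 (re ⁻¹' Set.Ioo a b)]
        fun z ↦ Real.exp (B * Real.exp (c * |z.im|)) := by
    refine ⟨0, div_pos Real.pi_pos (by rw [ha, hb]; linarith), 0, ?_⟩
    refine IsBigO.of_bound (4 * (d + 1)) ?_
    refine Filter.Eventually.filter_mono inf_le_right ?_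
    rw [eventually_principal]
    intro s hs
    simp only [Set.mem_preimage, Set.mem_Ioo] at hs
    have hs1 : 1 / 4 ≤ s.re := by linarith [hs.1]
    have hs2 : s.re ≤ 3 / 4 := by linarith [hs.2]
    obtain ⟨k1, k2, -, -⟩ := hnn s hs1 hs2
    simp only [zero_mul, Real.exp_zero, norm_one, mul_one]
    rw [hfn, div_le_iff₀ (by positivity)]
    have h2 := hap s (by linarith)
    refine h2.trans ?_
    have h3 : ((d : ℝ) + 1) / s.re ≤ 4 * (d + 1) := by
      rw [div_le_iff₀ (by linarith)]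
      nlinarith
    have h4 : ‖s + 2‖ ≤ ‖s + 2‖ ^ (A + 1) := by
      calc ‖s + 2‖ = ‖s + 2‖ ^ 1 := (pow_one _).symm
        _ ≤ _ := pow_le_pow_right₀ k1 (by omega)
    calc ‖s‖ * (((d : ℝ) + 1) / s.re) ≤ ‖s + 2‖ ^ (A + 1) * (4 * (d + 1)) :=
          mul_le_mul (k2.trans h4) h3 (by positivity) (by positivity)
      _ = _ := by ring
  have hle_b : ∀ z : ℂ, re z = b → ‖f z‖ ≤ C2 * (d : ℝ) ^ ε := by
    intro s hs
    have hs1 : 1 / 4 ≤ s.re := by rw [hs, hb]; linarith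
    have hs2 : s.re ≤ 3 / 4 := by rw [hs, hb]; linarith
    obtain ⟨k1, k2, -, -⟩ := hnn s hs1 hs2
    rw [hfn, div_le_iff₀ (by positivity)]
    refine (hright s hs _ k1 k2).trans ?_
    have h4 : ‖s + 2‖ ^ A ≤ ‖s + 2‖ ^ (A + 1) := pow_le_pow_right₀ k1 (by omega)
    have h5 : |C₁| * 2 ^ A ≤ C2 := by
      rw [hC2]
      have : 0 ≤ |C₁| * 2 ^ A := by positivity
      nlinarith
    calc |C₁| * (2 ^ A * ‖s + 2‖ ^ A) * (d : ℝ) ^ δ
        = (|C₁| * 2 ^ A) * ‖s + 2‖ ^ A * (d : ℝ) ^ δ := by ring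
      _ ≤ C2 * ‖s + 2‖ ^ (A + 1) * (d : ℝ) ^ ε := by
          apply mul_le_mul _ hdd hdδ (by positivity)
          exact mul_le_mul h5 h4 (by positivity) hC20
      _ = _ := by ring
  have hle_a : ∀ z : ℂ, re z = a → ‖f z‖ ≤ C2 * (d : ℝ) ^ ε := by
    intro s hs
    have hs1 : 1 / 4 ≤ s.re := by rw [hs, ha]; linarith
    have hs2 : s.re ≤ 3 / 4 := by rw [hs, ha]; linarith
    obtain ⟨k1, k2, k3, k4⟩ := hnn s hs1 hs2
    rw [hfn, div_le_iff₀ (by positivity)]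
    rw [hfe s (by linarith) (by linarith), norm_mul, norm_mul]
    have h2 : ‖(d : ℂ) ^ (1 / 2 - s)‖ = (d : ℝ) ^ δ := by
      have h3 : ((d : ℝ) : ℂ) = (d : ℂ) := by simp
      rw [← h3, Complex.norm_cpow_eq_rpow_re_of_pos hd0]
      congr 1
      have : ((1 : ℂ) / 2 - s).re = 1 / 2 - s.re := by
        simp
      rw [this, hs, ha]
      ring
    have h3 : ‖XX s‖ ≤ K * (2 * ‖s + 2‖) := by
      refine (norm_XX (by linarith) (by linarith)).trans ?_
      rw [hs]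
      calc kap (1 / 2 - δ) * (1 + |s.im|) ≤ K * (1 + |s.im|) :=
            mul_le_mul_of_nonneg_right (le_abs_self _) (by positivity)
        _ ≤ _ := mul_le_mul_of_nonneg_left (by linarith) hK0
    have h4 : ‖Λ d (1 - s)‖ ≤ |C₁| * (2 ^ A * ‖s + 2‖ ^ A) * (d : ℝ) ^ δ := by
      refine hright (1 - s) ?_ _ k1 k3
      rw [Complex.sub_re, Complex.one_re, hs, ha, hb]
      ring
    rw [h2]
    have h5 : 2 * K * (|C₁| * 2 ^ A) ≤ C2 := by
      rw [hC2]
      have : 0 ≤ |C₁| * 2 ^ A := by positivity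
      nlinarith
    calc (d : ℝ) ^ δ * ‖XX s‖ * ‖Λ d (1 - s)‖
        ≤ (d : ℝ) ^ δ * (K * (2 * ‖s + 2‖)) * (|C₁| * (2 ^ A * ‖s + 2‖ ^ A) * (d : ℝ) ^ δ) := by
          apply mul_le_mul _ h4 (norm_nonneg _) (by positivity)
          exact mul_le_mul_of_nonneg_left h3 hdδ
      _ = (2 * K * (|C₁| * 2 ^ A)) * ‖s + 2‖ ^ (A + 1) * ((d : ℝ) ^ δ * (d : ℝ) ^ δ) := by ring
      _ ≤ C2 * ‖s + 2‖ ^ (A + 1) * (d : ℝ) ^ ε := by
          apply mul_le_mul _ hddd (by positivity) (by positivity)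
          exact mul_le_mul_of_nonneg_right h5 (by positivity)
      _ = _ := by ring
  set z : ℂ := 1 / 2 + t * I with hz
  have hzre : z.re = 1 / 2 := by simp [hz]
  have hzim : z.im = t := by simp [hz]
  have hmain := PhragmenLindelof.vertical_strip (z := z) hfd hB hle_a hle_b
    (by rw [hzre, ha]; linarith) (by rw [hzre, hb]; linarith)
  obtain ⟨k1, -, -, -⟩ := hnn z (by rw [hzre]; norm_num) (by rw [hzre]; norm_num)
  rw [hfn, div_le_iff₀ (by positivity)] at hmain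
  refine hmain.trans ?_
  have h6 : ‖z + 2‖ ≤ 3 * (1 + |t|) := by
    have h7 : ‖z + 2‖ ≤ |(z + 2).re| + |(z + 2).im| := Complex.norm_le_abs_re_add_abs_im _
    have h8 : (z + 2).re = 5 / 2 := by
      rw [Complex.add_re, hzre]
      norm_num
    have h9 : (z + 2).im = t := by
      rw [Complex.add_im, hzim]
      simp
    rw [h8, h9, abs_of_pos (by norm_num : (0 : ℝ) < 5 / 2)] at h7
    have := abs_nonneg t
    linarith
  have h7 : ‖z + 2‖ ^ (A + 1) ≤ 3 ^ (A + 1) * (1 + |t|) ^ (A + 1) := by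
    rw [← mul_pow]
    exact pow_le_pow_left₀ (by positivity) h6 _
  calc C2 * (d : ℝ) ^ ε * ‖z + 2‖ ^ (A + 1)
      ≤ C2 * (d : ℝ) ^ ε * (3 ^ (A + 1) * (1 + |t|) ^ (A + 1)) :=
        mul_le_mul_of_nonneg_left h7 (by positivity)
    _ = _ := by ring

end Pool.Agent.W5h55.MO
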