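import Pool.Agent.W5h55.MO.Defs5

set_option autoImplicit false

/-!
# The smoothed sum against the sharp one
-/

namespace Pool.Agent.W5h55.MO

open Finset Complex MeasureTheory Filter

namespace SD

/-! ### the smoothed step -/

theorem int_gauss : Integrable fun r : ℝ => Real.exp (-r ^ 2) := by
  simpa using integrable_exp_neg_mul_sq (b := 1) one_pos

theorem integral_gauss : ∫ r : ℝ, Real.exp (-r ^ 2) = Real.sqrt Real.pi := by
  simpa using integral_gaussian 1

theorem tail {z : ℝ} {s : Set ℝ} (hs : MeasurableSet s) (h : ∀ r ∈ s, 0 ≤ z * (r - z)) :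
    ∫ r in s, Real.exp (-r ^ 2) ≤ Real.exp (-z ^ 2) * Real.sqrt Real.pi := by
  have hi : Integrable fun r : ℝ => Real.exp (-z ^ 2) * Real.exp (-(r - z) ^ 2) :=
    (int_gauss.comp_sub_right z).const_mul _
  calc ∫ r in s, Real.exp (-r ^ 2)
      ≤ ∫ r in s, Real.exp (-z ^ 2) * Real.exp (-(r - z) ^ 2) := by
        refine setIntegral_mono_on int_gauss.integrableOn hi.integrableOn hs fun r hr => ?_
        rw [← Real.exp_add]
        refine Real.exp_le_exp.2 ?_
        nlinarith [h r hr]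
    _ ≤ ∫ r : ℝ, Real.exp (-z ^ 2) * Real.exp (-(r - z) ^ 2) :=
        setIntegral_le_integral hi (Eventually.of_forall fun r => by positivity)
    _ = _ := by
        rw [integral_const_mul, integral_sub_right_eq_self (fun r : ℝ => Real.exp (-r ^ 2)) z,
          integral_gauss]

theorem St_bound {η : ℝ} (hη : 0 < η) (y : ℝ) :
    |St η y - if y ≤ 0 then 1 else 0| ≤ Real.exp (-(y / η) ^ 2) := by
  have hp : 0 < Real.sqrt Real.pi := Real.sqrt_pos.2 Real.pi_pos
  set z := y / η with hz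
  have hnn : ∀ s : Set ℝ, 0 ≤ ∫ r in s, Real.exp (-r ^ 2) := fun s =>
    setIntegral_nonneg_of_ae (Eventually.of_forall fun r => (Real.exp_pos _).le)
  by_cases hy : y ≤ 0
  · rw [if_pos hy]
    have hz0 : z ≤ 0 := div_nonpos_of_nonpos_of_nonneg hy hη.le
    have h1 := integral_add_compl (μ := (volume : Measure ℝ)) (s := Set.Ioi z) measurableSet_Ioi
      int_gauss
    rw [integral_gauss, Set.compl_Ioi] at h1
    have h2 := tail (z := z) (s := Set.Iic z) measurableSet_Iic fun r hr => by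
      have : r ≤ z := hr
      nlinarith
    have h3 : St η y - 1 = -((Real.sqrt Real.pi)⁻¹ * ∫ r in Set.Iic z, Real.exp (-r ^ 2)) := by
      rw [St, ← hz]
      have h4 : ∫ r in Set.Ioi z, Real.exp (-r ^ 2) =
        Real.sqrt Real.pi - ∫ r in Set.Iic z, Real.exp (-r ^ 2) := by linarith
      rw [h4, mul_sub, inv_mul_cancel₀ hp.ne']
      ring
    rw [h3, abs_neg, abs_of_nonneg (mul_nonneg (inv_pos.2 hp).le (hnn _)), inv_mul_le_iff₀ hp]
    linarith
  · rw [if_neg hy, sub_zero]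
    push Not at hy
    have hz0 : 0 < z := div_pos hy hη
    have h2 := tail (z := z) (s := Set.Ioi z) measurableSet_Ioi fun r hr => by
      have : z < r := hr
      nlinarith
    rw [St, ← hz, abs_of_nonneg (mul_nonneg (inv_pos.2 hp).le (hnn _)), inv_mul_le_iff₀ hp]
    linarith

/-! ### the sum of `1 / (1 + ((d - X) / σ)²)` -/

/-- the majorant -/
noncomputable def G (X σ x : ℝ) : ℝ :=
  (Set.Icc (X - 1) (X + 1)).indicator (fun _ => (1 : ℝ)) x +
    ((1 + ((x - (X + 1)) / σ) ^ 2)⁻¹ + (1 + ((x - (X - 1)) / σ) ^ 2)⁻¹)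

theorem int_inv {σ : ℝ} (hσ : 0 < σ) (c : ℝ) :
    Integrable (fun x : ℝ => (1 + ((x - c) / σ) ^ 2)⁻¹) ∧
      ∫ x : ℝ, (1 + ((x - c) / σ) ^ 2)⁻¹ = σ * Real.pi := by
  constructor
  · exact (integrable_inv_one_add_sq.comp_div hσ.ne').comp_sub_right c
  · rw [integral_sub_right_eq_self (fun x : ℝ => (1 + (x / σ) ^ 2)⁻¹) c,
      Measure.integral_comp_div (fun x : ℝ => (1 + x ^ 2)⁻¹) σ, integral_univ_inv_one_add_sq,
      abs_of_pos hσ, smul_eq_mul]

theorem int_ind (X : ℝ) :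
    Integrable ((Set.Icc (X - 1) (X + 1)).indicator (fun _ => (1 : ℝ))) :=
  (integrable_indicator_iff measurableSet_Icc).2 (integrableOn_const (by simp))

theorem G_int {σ : ℝ} (hσ : 0 < σ) (X : ℝ) :
    Integrable (G X σ) ∧ ∫ x : ℝ, G X σ x = 2 + 2 * Real.pi * σ := by
  obtain ⟨a1, a2⟩ := int_inv hσ (X + 1)
  obtain ⟨b1, b2⟩ := int_inv hσ (X - 1)
  have hab : Integrable (fun x : ℝ => (1 + ((x - (X + 1)) / σ) ^ 2)⁻¹ +
      (1 + ((x - (X - 1)) / σ) ^ 2)⁻¹) := a1.add b1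
  refine ⟨(int_ind X).add hab, ?_⟩
  unfold G
  rw [integral_add (int_ind X) hab, integral_add a1 b1, a2, b2,
    integral_indicator measurableSet_Icc]
  simp
  ring

theorem G_nonneg (X σ x : ℝ) : 0 ≤ G X σ x := by
  unfold G
  have : 0 ≤ (Set.Icc (X - 1) (X + 1)).indicator (fun _ => (1 : ℝ)) x :=
    Set.indicator_nonneg (fun _ _ => zero_le_one) x
  positivity

theorem G_ge {X σ d x : ℝ} (hσ : 0 < σ) (h1 : d ≤ x) (h2 : x ≤ d + 1) :
    (1 + ((d - X) / σ) ^ 2)⁻¹ ≤ G X σ x := by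
  have key : ∀ c : ℝ, c ^ 2 ≤ (d - X) ^ 2 →
      (1 + ((d - X) / σ) ^ 2)⁻¹ ≤ (1 + (c / σ) ^ 2)⁻¹ := by
    intro c hc
    refine inv_anti₀ (by positivity) ?_
    rw [div_pow, div_pow]
    gcongr
  have hi : 0 ≤ (Set.Icc (X - 1) (X + 1)).indicator (fun _ => (1 : ℝ)) x :=
    Set.indicator_nonneg (fun _ _ => zero_le_one) x
  have p1 : 0 ≤ (1 + ((x - (X + 1)) / σ) ^ 2)⁻¹ := by positivity
  have p2 : 0 ≤ (1 + ((x - (X - 1)) / σ) ^ 2)⁻¹ := by positivity
  unfold G
  rcases lt_or_ge (X + 1) x with h | h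
  · have := key (x - (X + 1)) (by nlinarith)
    linarith
  · rcases lt_or_ge x (X - 1) with h' | h'
    · have := key (x - (X - 1)) (by nlinarith)
      linarith
    · rw [Set.indicator_of_mem (Set.mem_Icc.2 ⟨h', h⟩)]
      have : (1 + ((d - X) / σ) ^ 2)⁻¹ ≤ 1 := by
        refine inv_le_one_of_one_le₀ ?_
        have : 0 ≤ ((d - X) / σ) ^ 2 := sq_nonneg _
        linarith
      linarith

theorem psum {σ : ℝ} (hσ : 0 < σ) (X : ℝ) (n : ℕ) :
    ∑ d ∈ range n, (1 + (((d : ℝ) - X) / σ) ^ 2)⁻¹ ≤ 2 + 2 * Real.pi * σ := by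
  obtain ⟨g1, g2⟩ := G_int hσ X
  have h1 : ∀ d ∈ range n, (1 + (((d : ℝ) - X) / σ) ^ 2)⁻¹ ≤
      ∫ x in ((d : ℕ) : ℝ)..((d + 1 : ℕ) : ℝ), G X σ x := by
    intro d _
    have hle : ((d : ℕ) : ℝ) ≤ ((d + 1 : ℕ) : ℝ) := by push_cast; linarith
    have h2 : ∫ _x in ((d : ℕ) : ℝ)..((d + 1 : ℕ) : ℝ), (1 + (((d : ℝ) - X) / σ) ^ 2)⁻¹ =
        (1 + (((d : ℝ) - X) / σ) ^ 2)⁻¹ := by
      rw [intervalIntegral.integral_const]
      push_cast
      simp
    rw [← h2]
    refine intervalIntegral.integral_mono_on hle (by simp) g1.intervalIntegrable fun x hx => ?_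
    refine G_ge hσ hx.1 ?_
    have := hx.2
    push_cast at this
    exact this
  calc _ ≤ ∑ d ∈ range n, ∫ x in ((d : ℕ) : ℝ)..((d + 1 : ℕ) : ℝ), G X σ x := sum_le_sum h1
    _ = ∫ x in ((0 : ℕ) : ℝ)..((n : ℕ) : ℝ), G X σ x :=
        intervalIntegral.sum_integral_adjacent_intervals fun k _ => g1.intervalIntegrable
    _ ≤ ∫ x : ℝ, G X σ x := by
        rw [intervalIntegral.integral_of_le (by simp)]
        exact setIntegral_le_integral g1 (Eventually.of_forall fun x => G_nonneg X σ x)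
    _ = _ := g2

/-! ### the pointwise bound -/

/-- the constant -/
noncomputable def C0 : ℝ := 64 * Real.exp (16 / 3)

theorem ptw {X η d : ℝ} (hX : 0 < X) (hη : 0 < η) (hη1 : η ≤ 1) (hd : 0 < d) :
    Real.exp (-((Real.log d - Real.log X) / η) ^ 2) ≤
      C0 * ((1 + ((d - X) / (X * η)) ^ 2)⁻¹) ^ 2 := by
  set l := Real.log d - Real.log X with hl
  set s := |l| / η with hs
  have hs0 : 0 ≤ s := by positivity
  have hls : |l| ≤ s := by
    rw [hs, le_div_iff₀ hη]
    nlinarith [abs_nonneg l]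
  have hq : d / X = Real.exp l := by
    rw [hl, Real.exp_sub, Real.exp_log hd, Real.exp_log hX]
  have h1 : |Real.exp l - 1| ≤ |l| * Real.exp |l| := by
    rcases le_total 0 l with h | h
    · have h2 : 0 ≤ Real.exp l - 1 := by linarith [Real.add_one_le_exp l]
      rw [abs_of_nonneg h2, abs_of_nonneg h]
      have h3 := Real.add_one_le_exp (-l)
      have h4 : Real.exp (-l) * Real.exp l = 1 := by rw [← Real.exp_add]; simp
      nlinarith [Real.exp_pos l]
    · have h2 : Real.exp l - 1 ≤ 0 := by linarith [Real.exp_le_one_iff.2 h]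
      rw [abs_of_nonpos h2, abs_of_nonpos h]
      have h3 := Real.add_one_le_exp l
      have h4 : 1 ≤ Real.exp (-l) := Real.one_le_exp (by linarith)
      nlinarith
  have h2 : ((d - X) / (X * η)) ^ 2 ≤ s ^ 2 * Real.exp (2 * s) := by
    have h3 : (d - X) / (X * η) = (Real.exp l - 1) / η := by
      rw [← hq]
      field_simp
    rw [h3, ← sq_abs, abs_div, abs_of_pos hη]
    have h4 : |Real.exp l - 1| / η ≤ s * Real.exp s := by
      rw [div_le_iff₀ hη]
      have h5 : s * Real.exp s * η = |l| * Real.exp s := by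
        rw [hs]
        field_simp
      rw [h5]
      refine h1.trans ?_
      gcongr
    calc (|Real.exp l - 1| / η) ^ 2 ≤ (s * Real.exp s) ^ 2 := by gcongr
      _ = _ := by rw [mul_pow, ← Real.exp_nat_mul]; norm_num
  have h3 : 1 + ((d - X) / (X * η)) ^ 2 ≤ (1 + s ^ 2) * Real.exp (2 * s) := by
    have h4 : 1 ≤ Real.exp (2 * s) := Real.one_le_exp (by linarith)
    nlinarith
  have h4 : 1 + s ^ 2 ≤ 8 * Real.exp (s ^ 2 / 8) := by
    have := Real.add_one_le_exp (s ^ 2 / 8)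
    linarith
  have h5 : (1 + ((d - X) / (X * η)) ^ 2) ^ 2 ≤ C0 * Real.exp (s ^ 2) := by
    calc (1 + ((d - X) / (X * η)) ^ 2) ^ 2 ≤ ((1 + s ^ 2) * Real.exp (2 * s)) ^ 2 := by gcongr
      _ ≤ ((8 * Real.exp (s ^ 2 / 8)) * Real.exp (2 * s)) ^ 2 := by gcongr
      _ = 64 * Real.exp (s ^ 2 / 4 + 4 * s) := by
          rw [mul_pow, mul_pow, ← Real.exp_nat_mul, ← Real.exp_nat_mul, mul_assoc, ← Real.exp_add]
          norm_num
          congr 1 <;> ring
      _ ≤ 64 * Real.exp (16 / 3 + s ^ 2) := by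
          refine mul_le_mul_of_nonneg_left (Real.exp_le_exp.2 ?_) (by norm_num)
          nlinarith [sq_nonneg (s - 8 / 3)]
      _ = _ := by rw [C0, Real.exp_add]; ring
  have hpos : 0 < (1 + ((d - X) / (X * η)) ^ 2) ^ 2 := by positivity
  have h6 : Real.exp (-(l / η) ^ 2) = (Real.exp (s ^ 2))⁻¹ := by
    rw [← Real.exp_neg, hs, div_pow, div_pow, sq_abs]
  rw [h6, inv_pow, ← div_eq_mul_inv, le_div_iff₀ hpos, inv_mul_le_iff₀ (Real.exp_pos _)]
  linarith

theorem rpow_bound {X η d ε : ℝ} (hX : 1 ≤ X) (hη : 0 < η) (hη1 : η ≤ 1) (hd : 0 < d)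
    (hε : 0 ≤ ε) (hε1 : ε ≤ 1) :
    d ^ ε ≤ X ^ ε * (2 * (1 + ((d - X) / (X * η)) ^ 2)) := by
  have hX0 : 0 < X := by linarith
  set t := |d - X| / (X * η) with ht
  have ht0 : 0 ≤ t := by positivity
  have h1 : d ≤ X * (1 + t) := by
    have h2 : |d - X| ≤ X * t := by
      have : X * t = |d - X| / η := by rw [ht]; field_simp
      rw [this, le_div_iff₀ hη]
      nlinarith [abs_nonneg (d - X)]
    linarith [le_abs_self (d - X)]
  calc d ^ ε ≤ (X * (1 + t)) ^ ε := Real.rpow_le_rpow hd.le h1 hε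
    _ = X ^ ε * (1 + t) ^ ε := Real.mul_rpow hX0.le (by linarith)
    _ ≤ X ^ ε * (1 + t) ^ (1 : ℝ) := by
        gcongr
        linarith
    _ = X ^ ε * (1 + t) := by rw [Real.rpow_one]
    _ ≤ _ := by
        refine mul_le_mul_of_nonneg_left ?_ (Real.rpow_nonneg hX0.le _)
        have h3 : ((d - X) / (X * η)) ^ 2 = t ^ 2 := by
          rw [ht, div_pow, div_pow, sq_abs]
        rw [h3]
        nlinarith [sq_nonneg (t - 1)]

end SD

open SD

theorem sdiff : S_SD := by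
  intro ε hε hε1
  have hC0 : 0 < C0 := by unfold C0; positivity
  refine ⟨4 * Real.pi * C0, by positivity, ?_⟩
  intro α A hA hα0 hα u η hu hη hη1
  set X := Real.exp u with hX
  have hX0 : 0 < X := Real.exp_pos u
  have hX1 : 1 ≤ X := Real.one_le_exp hu
  have hlX : Real.log X = u := Real.log_exp u
  set ind : ℕ → ℂ := fun d => if d ∈ Icc 1 ⌊X⌋₊ then 1 else 0 with hind
  set g : ℕ → ℂ := fun d => α d * ((St η (Real.log d - u) : ℂ) - ind d) with hg
  -- the terms
  have hterm : ∀ d : ℕ, ‖g d‖ ≤ 2 * A * C0 * X ^ ε * (1 + (((d : ℝ) - X) / (X * η)) ^ 2)⁻¹ := by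
    intro d
    rcases Nat.eq_zero_or_pos d with h0 | hpos
    · rw [h0, hg]
      simp only [hα0, zero_mul, norm_zero]
      positivity
    have hd : (0 : ℝ) < d := by exact_mod_cast hpos
    have h1 : ind d = ((if Real.log d - u ≤ 0 then (1 : ℝ) else 0 : ℝ) : ℂ) := by
      have h2 : d ∈ Icc 1 ⌊X⌋₊ ↔ Real.log d - u ≤ 0 := by
        rw [mem_Icc, Nat.le_floor_iff hX0.le, sub_nonpos, Real.log_le_iff_le_exp hd]
        exact ⟨fun h => h.2, fun h => ⟨hpos, h⟩⟩
      rw [hind]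
      by_cases h : Real.log d - u ≤ 0
      · simp only [if_pos h, if_pos (h2.2 h)]
        simp
      · simp only [if_neg h, if_neg (fun hh => h (h2.1 hh))]
        simp
    have h2 : ‖g d‖ ≤ (A * (d : ℝ) ^ ε) * Real.exp (-((Real.log d - u) / η) ^ 2) := by
      rw [hg]
      simp only
      rw [norm_mul, h1, ← Complex.ofReal_sub, Complex.norm_real, Real.norm_eq_abs]
      exact mul_le_mul (hα d) (St_bound hη _) (abs_nonneg _) (by positivity)
    have h3 := ptw hX0 hη hη1 hd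
    rw [hlX] at h3
    have h4 := rpow_bound (ε := ε) hX1 hη hη1 hd hε hε1
    have hq : 0 < 1 + (((d : ℝ) - X) / (X * η)) ^ 2 := by positivity
    calc ‖g d‖ ≤ (A * (d : ℝ) ^ ε) * Real.exp (-((Real.log d - u) / η) ^ 2) := h2
      _ ≤ (A * (X ^ ε * (2 * (1 + (((d : ℝ) - X) / (X * η)) ^ 2)))) *
          (C0 * ((1 + (((d : ℝ) - X) / (X * η)) ^ 2)⁻¹) ^ 2) := by gcongr
      _ = 2 * A * C0 * X ^ ε * ((1 + (((d : ℝ) - X) / (X * η)) ^ 2) *
          (1 + (((d : ℝ) - X) / (X * η)) ^ 2)⁻¹) * (1 + (((d : ℝ) - X) / (X * η)) ^ 2)⁻¹ := by ring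
      _ = _ := by rw [mul_inv_cancel₀ hq.ne', mul_one]
  have hpart : ∀ n : ℕ, ∑ d ∈ range n, ‖g d‖ ≤
      2 * A * C0 * X ^ ε * (2 + 2 * Real.pi * (X * η)) := by
    intro n
    calc ∑ d ∈ range n, ‖g d‖ ≤ ∑ d ∈ range n, 2 * A * C0 * X ^ ε *
          (1 + (((d : ℝ) - X) / (X * η)) ^ 2)⁻¹ := sum_le_sum fun d _ => hterm d
      _ = 2 * A * C0 * X ^ ε * ∑ d ∈ range n, (1 + (((d : ℝ) - X) / (X * η)) ^ 2)⁻¹ := by
          rw [mul_sum]
      _ ≤ _ := by
          refine mul_le_mul_of_nonneg_left (psum (by positivity) X n) (by positivity)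
  have hsum : Summable fun d => ‖g d‖ := summable_of_sum_range_le (fun _ => norm_nonneg _) hpart
  have htsum : ∑' d, ‖g d‖ ≤ 2 * A * C0 * X ^ ε * (2 + 2 * Real.pi * (X * η)) :=
    Real.tsum_le_of_sum_range_le (fun _ => norm_nonneg _) hpart
  have hfin : HasSum (fun d => α d * ind d) (SC α X) := by
    have h1 : HasSum (fun d => α d * ind d) (∑ d ∈ Icc 1 ⌊X⌋₊, α d * ind d) := by
      refine hasSum_sum_of_ne_finset_zero fun d hd => ?_
      simp only [hind]
      rw [if_neg hd, mul_zero]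
    have h2 : ∑ d ∈ Icc 1 ⌊X⌋₊, α d * ind d = SC α X := by
      rw [SC]
      refine sum_congr rfl fun d hd => ?_
      simp only [hind, if_pos hd, mul_one]
    rwa [h2] at h1
  have hSE : SE α η u - SC α X = ∑' d, g d := by
    have h1 : HasSum (fun d => g d + α d * ind d) (∑' d, g d + SC α X) :=
      hsum.of_norm.hasSum.add hfin
    have h2 : (fun d => g d + α d * ind d) = fun d : ℕ => α d * (St η (Real.log d - u) : ℂ) := by
      funext d
      simp only [hg]
      ring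
    rw [h2] at h1
    rw [SE, h1.tsum_eq]
    ring
  rw [hSE]
  refine (norm_tsum_le_tsum_norm hsum).trans (htsum.trans ?_)
  have e1 : Real.exp ((1 + ε) * u) = X * X ^ ε := by
    rw [hX, ← Real.exp_mul, ← Real.exp_add]
    congr 1
    ring
  have e2 : Real.exp (ε * u) = X ^ ε := by
    rw [hX, ← Real.exp_mul]
    congr 1
    ring
  rw [e1, e2]
  have hpi : 1 ≤ Real.pi := by linarith [Real.pi_gt_three]
  have hXe : 0 < X ^ ε := Real.rpow_pos_of_pos hX0 _
  have h9 : 0 ≤ A * C0 * X ^ ε * (Real.pi - 1) :=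
    mul_nonneg (by positivity) (by linarith)
  nlinarith [h9]

end Pool.Agent.W5h55.MO
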