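import Pool.Agent.W5h55.MO.Lin
import Pool.Agent.W5h63.MD.HullF

set_option autoImplicit false

/-!
# Two forms of the same question
-/

namespace Pool.Agent.W5h55.MO

open Complex MeasureTheory Pool.Agent.W5h55.MC

/-- The comparison of the two definitions of `F_M`. -/
def S_U : Prop := ∀ (k M : ℕ), 1 ≤ M → ∀ z : (Fin k → ℂ) × ℂ, (∀ j, 1 < (z.1 j).re) →
  1 < z.2.re → Pool.Agent.W5h63.MD.F k M z.1 z.2 = Pool.Agent.W5h65.MD.FM M z

/-- The change of coordinates. -/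
def inv' {α : Type} {k : ℕ} (p : Fin (k + 1) → α) : (Fin k → α) × α := (fun j => p j.succ, p 0)

theorem inv'_cons {α : Type} {k : ℕ} (p : (Fin k → α) × α) :
    inv' (Fin.cons p.2 p.1 : Fin (k + 1) → α) = p := by
  unfold inv'
  simp

theorem cons_inv' {α : Type} {k : ℕ} (p : Fin (k + 1) → α) :
    (Fin.cons (inv' p).2 (inv' p).1 : Fin (k + 1) → α) = p := by
  funext i
  refine Fin.cases ?_ (fun j => ?_) i
  · simp [inv']
  · simp [inv']

theorem inv'_cont {k : ℕ} : Continuous (inv' : (Fin (k + 1) → ℝ) → (Fin k → ℝ) × ℝ) := by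
  unfold inv'
  exact Continuous.prodMk (continuous_pi fun j => continuous_apply _) (continuous_apply _)

theorem inv'_diff {k : ℕ} : Differentiable ℂ (inv' : (Fin (k + 1) → ℂ) → (Fin k → ℂ) × ℂ) := by
  unfold inv'
  fun_prop

theorem q1C_of_q1 (hU : S_U) {k M : ℕ} (hM : 1 ≤ M) (h : MC.Q1 k M) :
    Pool.Agent.W5h63.MD.Q1C k M := by
  obtain ⟨U, ⟨hUo, hUc, hR, G, hd, heq, hb⟩, hcr⟩ := h
  have hUe : {p : (Fin k → ℝ) × ℝ | (Fin.cons p.2 p.1 : Fin (k + 1) → ℝ) ∈ U} = inv' '' U := by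
    ext p
    constructor
    · intro hp
      exact ⟨_, hp, inv'_cons p⟩
    · rintro ⟨q, hq, rfl⟩
      show (Fin.cons (inv' q).2 (inv' q).1 : Fin (k + 1) → ℝ) ∈ U
      rw [cons_inv']
      exact hq
  refine ⟨{p : (Fin k → ℝ) × ℝ | (Fin.cons p.2 p.1 : Fin (k + 1) → ℝ) ∈ U},
    ⟨hUo.preimage cmb_cont, by rw [hUe]; exact hUc.image _ inv'_cont.continuousOn,
      fun p hp => ?_, ?_⟩, fun z => G (Fin.cons z.2 z.1), ⟨?_, fun z hz => ?_⟩,
    fun K hK hKc => ?_⟩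
  · refine hR _ fun i => ?_
    refine Fin.cases ?_ (fun j => ?_) i
    · simpa using hp.2
    · simpa using hp.1 j
  · show (Fin.cons 1 (fun _ => 1 / 2) : Fin (k + 1) → ℝ) ∈ U
    exact hcr
  · refine hd.comp cmb_diff.differentiableOn fun z hz => ?_
    show (fun i => ((Fin.cons z.2 z.1 : Fin (k + 1) → ℂ) i).re) ∈ U
    rw [cmb_re]
    exact hz
  · have hz1 : ∀ j, 1 < (z.1 j).re := hz.1
    have hz2 : 1 < z.2.re := hz.2
    show G (Fin.cons z.2 z.1) = _
    rw [heq _ (fun i => ?_), hU k M hM z hz1 hz2]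
    · unfold FF
      simp
    · refine Fin.cases ?_ (fun j => ?_) i
      · simpa using hz2
      · simpa using hz1 j
  · have hKc' : IsCompact ((fun p : (Fin k → ℝ) × ℝ => (Fin.cons p.2 p.1 : Fin (k + 1) → ℝ)) '' K) :=
      hKc.image cmb_cont
    obtain ⟨C, N, h1⟩ := hb _ (by
      rintro _ ⟨p, hp, rfl⟩
      exact hK hp) hKc'
    refine ⟨|C|, N, fun z hz => ?_⟩
    have h2 := h1 (Fin.cons z.2 z.1) (by
      rw [cmb_re]
      exact ⟨_, hz, rfl⟩)
    refine h2.trans ?_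
    calc C * (1 + ‖fun i => ((Fin.cons z.2 z.1 : Fin (k + 1) → ℂ) i).im‖) ^ N
        ≤ |C| * (1 + ‖fun i => ((Fin.cons z.2 z.1 : Fin (k + 1) → ℂ) i).im‖) ^ N :=
          mul_le_mul_of_nonneg_right (le_abs_self C) (by positivity)
      _ ≤ |C| * (1 + ‖Pool.Agent.W5h63.MD.imP z‖) ^ N := by
          refine mul_le_mul_of_nonneg_left (pow_le_pow_left₀ (by positivity) ?_ N) (abs_nonneg C)
          have h3 := cmb_im z
          have h4 : ‖Pool.Agent.W5h65.MD.imz z‖ = ‖Pool.Agent.W5h63.MD.imP z‖ := rfl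
          linarith

theorem q1_of_q1C (hU : S_U) {k M : ℕ} (hM : 1 ≤ M) (h : Pool.Agent.W5h63.MD.Q1C k M) :
    MC.Q1 k M := by
  obtain ⟨Ω, ⟨hΩo, hΩc, hR, hpt⟩, H, ⟨hd, heq⟩, hb⟩ := h
  have hΩe : inv' ⁻¹' Ω = (fun p : (Fin k → ℝ) × ℝ => (Fin.cons p.2 p.1 : Fin (k + 1) → ℝ)) '' Ω := by
    ext p
    constructor
    · intro hp
      exact ⟨_, hp, cons_inv' p⟩
    · rintro ⟨q, hq, rfl⟩
      show inv' (Fin.cons q.2 q.1 : Fin (k + 1) → ℝ) ∈ Ω
      rw [inv'_cons]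
      exact hq
  refine ⟨inv' ⁻¹' Ω, ⟨hΩo.preimage inv'_cont, by rw [hΩe]; exact hΩc.image _ cmb_cont.continuousOn,
    fun p hp => hR ⟨fun j => hp j.succ, hp 0⟩, fun z => H (inv' z), ?_, fun z hz => ?_,
    fun K hK hKc => ?_⟩, ?_⟩
  · exact hd.comp inv'_diff.differentiableOn fun z hz => hz
  · show H (inv' z) = _
    rw [heq (inv' z) ⟨fun j => hz j.succ, hz 0⟩, hU k M hM (inv' z) (fun j => hz j.succ) (hz 0)]
    rfl
  · have hKc' : IsCompact (inv' '' K) := hKc.image inv'_cont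
    obtain ⟨C, N, h1⟩ := hb _ (by
      rintro _ ⟨p, hp, rfl⟩
      exact hK hp) hKc'
    refine ⟨|C|, N, fun z hz => ?_⟩
    have h2 := h1 (inv' z) ⟨_, hz, rfl⟩
    refine h2.trans ?_
    calc C * (1 + ‖Pool.Agent.W5h63.MD.imP (inv' z)‖) ^ N
        ≤ |C| * (1 + ‖Pool.Agent.W5h63.MD.imP (inv' z)‖) ^ N :=
          mul_le_mul_of_nonneg_right (le_abs_self C) (by positivity)
      _ ≤ |C| * (1 + ‖fun i => (z i).im‖) ^ N := by
          refine mul_le_mul_of_nonneg_left (pow_le_pow_left₀ (by positivity) ?_ N) (abs_nonneg C)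
          have h3 : ‖Pool.Agent.W5h63.MD.imP (inv' z)‖ ≤ ‖fun i => (z i).im‖ := by
            refine max_le ?_ ?_
            · refine (pi_norm_le_iff_of_nonneg (norm_nonneg _)).2 fun j => ?_
              exact norm_le_pi_norm (fun i => (z i).im) j.succ
            · exact norm_le_pi_norm (fun i => (z i).im) 0
          linarith
  · exact hpt

end Pool.Agent.W5h55.MO
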