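import Pool.Agent.W5h55.MO.FSh
import Pool.Agent.W5h55.MO.U2
import Pool.Agent.W5h55.MO.KH
import Pool.Agent.W5h55.MO.SD
import Pool.Agent.W5h55.MO.L2
import Pool.Agent.W5h55.MO.IV

set_option autoImplicit false

/-!
# The global equivalence
-/

namespace Pool.Agent.W5h55.MO

open Finset Complex MeasureTheory Pool.Agent.W5h65.MD Pool.Agent.W5h55.MC

theorem q1_of_sharp {Λ : ℕ → ℂ → ℂ} (hΛ : IsCont Λ) {k M : ℕ}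
    (h : SharpMoments Λ M (fun _ : Fin k => 1 / 2) 1) : MC.Q1 k M := by
  obtain ⟨_, h2⟩ := final4 k M
  obtain ⟨_, _, _, a4, _⟩ := h2 Λ hΛ
  refine a4 (fun _ => 1 / 2) (fun _ => by norm_num) (Or.inr (Or.inr ?_))
  have e : (1 : ℝ) - (∑ _j : Fin k, ((1 / 2 : ℝ) - 1 / 2)) / 2 = 1 := by simp
  rw [e]
  exact h

theorem sharp_of_q1 (hinf : ∀ n : ℕ, ∃ k : ℕ, n ≤ k ∧ MC.Q1 k 1)
    {Λ : ℕ → ℂ → ℂ} (hΛ : IsCont Λ) {k M : ℕ} (h : MC.Q1 k M) :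
    SharpMoments Λ M (fun _ : Fin k => 1 / 2) 1 := by
  obtain ⟨_, h2⟩ := final4 k M
  obtain ⟨_, a2, _, _, _⟩ := h2 Λ hΛ
  exact sharpMoments_of (fib_sharp inve shifte erre sdiff hΛ (lind_crit crit_lind hinf hΛ) M
    (a2.1 h))

/-- The twists can be dropped (the theorem of `W5h63`). -/
theorem all_of_inf (hU : S_U) (hinf : ∀ n : ℕ, ∃ k : ℕ, n ≤ k ∧ MC.Q1 k 1) (k M : ℕ)
    (hM : 1 ≤ M) : MC.Q1 k M := by
  obtain ⟨k', hk', hQ⟩ := hinf (k + 1)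
  obtain ⟨j, rfl⟩ := Nat.exists_eq_add_of_le hk'
  have h1 : Pool.Agent.W5h63.MD.Q1Unif k 1 :=
    Pool.Agent.W5h63.MD.main le_rfl (Pool.Agent.W5h63.MD.Q1_down le_rfl j
      (Pool.Agent.W5h63.MD.Q1_of_Q1C (q1C_of_q1 hU le_rfl hQ)))
  have h2 := Pool.Agent.W5h63.MD.Q1C_of_Q1 (Pool.Agent.W5h63.MD.Q1_of_unif hM h1)
  rw [one_mul] at h2
  exact q1_of_q1C hU hM h2

theorem global (hU : S_U) {Λ : ℕ → ℂ → ℂ} (hΛ : IsCont Λ) :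
    [∀ k M : ℕ, 1 ≤ M → MC.Q1 k M,
     ∀ n : ℕ, ∃ k : ℕ, n ≤ k ∧ SharpMoments Λ 1 (fun _ : Fin k => 1 / 2) 1,
     ∀ k M : ℕ, 1 ≤ M → SharpMoments Λ M (fun _ : Fin k => 1 / 2) 1].TFAE := by
  tfae_have 1 → 3 := fun h k M hM =>
    sharp_of_q1 (fun n => ⟨n, le_rfl, h n 1 le_rfl⟩) hΛ (h k M hM)
  tfae_have 3 → 2 := fun h n => ⟨n, le_rfl, h n 1 le_rfl⟩
  tfae_have 2 → 1 := fun h k M hM => all_of_inf hU (fun n => by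
    obtain ⟨k, hk, h1⟩ := h n
    exact ⟨k, hk, q1_of_sharp hΛ h1⟩) k M hM
  tfae_finish

end Pool.Agent.W5h55.MO
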