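import Pool.Agent.W5h65.MD.D1
import Pool.Agent.W5h63.MD.Def

set_option autoImplicit false

namespace Pool.Agent.W5h55.MO

open Finset

theorem fund_iff (d : ℕ) : Pool.Agent.W5h63.MD.IsFund d ↔ Pool.Agent.W5h65.MD.IsFund d := by
  constructor
  · rintro (h | ⟨h1, h2, h3⟩)
    · exact Or.inl h
    · exact Or.inr ⟨d / 4, by omega, h2, h3⟩
  · rintro (h | ⟨m, rfl, h2, h3⟩)
    · exact Or.inl h
    · have e : 4 * m / 4 = m := by omega
      exact Or.inr ⟨by omega, by rw [e]; exact h2, by rw [e]; exact h3⟩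

theorem kron_eq {d n : ℕ} (hd : Pool.Agent.W5h65.MD.IsFund d) (hn : 1 ≤ n) :
    Pool.Agent.W5h63.MD.kron d n = Pool.Agent.W5h65.MD.kr d n := by
  have hn0 : n ≠ 0 := by omega
  obtain ⟨v, hv⟩ : ∃ v, v = n.factorization 2 := ⟨_, rfl⟩
  obtain ⟨m, hm⟩ : ∃ m, m = ordCompl[2] n := ⟨_, rfl⟩
  have hnm : n = 2 ^ v * m := by
    rw [hv, hm]
    exact (Nat.ordProj_mul_ordCompl_eq_self n 2).symm
  have hmo : Odd m := by
    rw [hm]
    rw [← Nat.not_even_iff_odd, even_iff_two_dvd]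
    exact Nat.not_dvd_ordCompl Nat.prime_two hn0
  unfold Pool.Agent.W5h63.MD.kron Pool.Agent.W5h65.MD.kr
  rw [← hm, ← hv]
  rcases hd with ⟨h1, h2⟩ | ⟨e, rfl, h2, h3⟩
  · have hdo : Odd d := Nat.odd_iff.2 (by omega)
    rw [if_pos hdo, hnm]
    push_cast
    rw [jacobiSym.mul_left, jacobiSym.pow_left, jacobiSym.at_two hdo,
      jacobiSym.quadratic_reciprocity_one_mod_four h1 hmo]
  · have hdo : ¬ Odd (4 * e) := by
      rw [Nat.not_odd_iff_even]
      exact ⟨2 * e, by ring⟩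
    rw [if_neg hdo]
    have h8 : ZMod.χ₈ ((4 * e : ℕ) : ZMod 8) = 0 := by
      have : ((4 * e : ℕ) : ZMod 8) = 0 ∨ ((4 * e : ℕ) : ZMod 8) = 4 := by
        rcases Nat.even_or_odd e with ⟨f, hf⟩ | ⟨f, hf⟩
        · left
          rw [hf, show 4 * (f + f) = 8 * f by ring]
          push_cast
          have : (8 : ZMod 8) = 0 := by decide
          rw [this, zero_mul]
        · right
          rw [hf, show 4 * (2 * f + 1) = 8 * f + 4 by ring]
          push_cast
          have : (8 : ZMod 8) = 0 := by decide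
          rw [this, zero_mul, zero_add]
      rcases this with h | h <;> rw [h] <;> decide
    rw [h8]
    by_cases hv0 : v = 0
    · have hno : Odd n := by rw [hnm, hv0, pow_zero, one_mul]; exact hmo
      rw [if_pos hno, hv0, pow_zero, one_mul, hnm, hv0, pow_zero, one_mul]
    · have hno : ¬ Odd n := by
        rw [Nat.not_odd_iff_even, hnm]
        exact ((Nat.even_pow.2 ⟨even_two, hv0⟩)).mul_right m
      rw [if_neg hno, zero_pow hv0, zero_mul]

theorem Ld_eq63 {d : ℕ} (hd : Pool.Agent.W5h65.MD.IsFund d) {s : ℂ} (hs : 1 < s.re) :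
    Pool.Agent.W5h63.MD.Ld d s = Pool.Agent.W5h65.MD.LL d s := by
  unfold Pool.Agent.W5h63.MD.Ld Pool.Agent.W5h65.MD.LL LSeries
  refine tsum_congr fun n => ?_
  by_cases hn : n = 0
  · subst hn
    rw [LSeries.term_zero]
    have h0 : -s ≠ 0 := by
      intro h
      have := congrArg Complex.re h
      simp at this
      linarith
    rw [Nat.cast_zero, Complex.zero_cpow h0, mul_zero]
  · rw [LSeries.term_of_ne_zero hn, kron_eq hd (by omega), Complex.cpow_neg, div_eq_mul_inv]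

theorem FM_eq63 (k M : ℕ) (hM : 1 ≤ M) (z : (Fin k → ℂ) × ℂ) (h1 : ∀ j, 1 < (z.1 j).re)
    (_h2 : 1 < z.2.re) :
    Pool.Agent.W5h63.MD.F k M z.1 z.2 = Pool.Agent.W5h65.MD.FM M z := by
  classical
  unfold Pool.Agent.W5h63.MD.F Pool.Agent.W5h65.MD.FM
  have hA : Pool.Agent.W5h63.MD.A k M z.1 z.2 = Pool.Agent.W5h65.MD.AM M z.1 z.2 := by
    unfold Pool.Agent.W5h63.MD.A Pool.Agent.W5h65.MD.AM
    have e := tsum_subtype {d : ℕ | Pool.Agent.W5h63.MD.IsFund d}
      (fun d : ℕ => (Pool.Agent.W5h63.MD.kron d M : ℂ) * (d : ℂ) ^ (-z.2) *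
        ∏ j, Pool.Agent.W5h63.MD.Ld d (z.1 j))
    refine Eq.trans e (tsum_congr fun d => ?_)
    by_cases hd : Pool.Agent.W5h65.MD.IsFund d
    · rw [Set.indicator_of_mem (show d ∈ {d : ℕ | Pool.Agent.W5h63.MD.IsFund d} from
        (fund_iff d).2 hd), if_pos hd, kron_eq hd hM]
      congr 1
      exact prod_congr rfl fun j _ => Ld_eq63 hd (h1 j)
    · rw [Set.indicator_of_notMem (show d ∉ {d : ℕ | Pool.Agent.W5h63.MD.IsFund d} from
        fun h => hd ((fund_iff d).1 h)), if_neg hd]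
  rw [hA]
  rfl

end Pool.Agent.W5h55.MO
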