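import Pool.Agent.W5h55.MO.Final5
import Pool.Agent.W5h55.MO.UX

set_option autoImplicit false

/-!
# The final theorem
-/

namespace Pool.Agent.W5h55.MO

open Pool.Agent.W5h65.MD Pool.Agent.W5h55.MC

/-- The equivalence of Q1 for all `k`, `M` with the asymptotic formula for the moments. -/
theorem global6 {Λ : ℕ → ℂ → ℂ} (hΛ : IsCont Λ) :
    [∀ k M : ℕ, 1 ≤ M → MC.Q1 k M,
     ∀ n : ℕ, ∃ k : ℕ, n ≤ k ∧ SharpMoments Λ 1 (fun _ : Fin k => 1 / 2) 1,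
     ∀ k M : ℕ, 1 ≤ M → SharpMoments Λ M (fun _ : Fin k => 1 / 2) 1].TFAE :=
  global (fun k M hM z h1 h2 => FM_eq63 k M hM z h1 h2) hΛ

end Pool.Agent.W5h55.MO
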