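import Pool.Agent.W5h55.MO.A
import Pool.Agent.W5h55.MO.B
import Pool.Agent.W5h55.MO.D

set_option autoImplicit false

/-!
# From asymptotic formulas to continuation: one variable
-/

namespace Pool.Agent.W5h55.MO

open Finset Complex MeasureTheory Filter Topology

theorem half_open (b : ℝ) : IsOpen {w : ℂ | b < w.re} := isOpen_lt continuous_const continuous_re

theorem half_eq {b ρ : ℝ} {f g : ℂ → ℂ} (hf : DifferentiableOn ℂ f {w | b < w.re})
    (hg : DifferentiableOn ℂ g {w | b < w.re}) (h : ∀ w : ℂ, b < w.re → ρ < w.re → f w = g w) :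
    ∀ w : ℂ, b < w.re → f w = g w := by
  have h1 := hf.analyticOnNhd (half_open b)
  have h2 := hg.analyticOnNhd (half_open b)
  have hc : IsPreconnected {w : ℂ | b < w.re} := by
    refine Convex.isPreconnected ?_
    exact convex_halfSpace_re_gt b
  have hz : (((max b ρ + 1 : ℝ)) : ℂ) ∈ {w : ℂ | b < w.re} := by
    show b < (((max b ρ + 1 : ℝ)) : ℂ).re
    rw [Complex.ofReal_re]
    have := le_max_left b ρ
    linarith
  have hz' : (((max b ρ + 1 : ℝ)) : ℂ) ∈ {w : ℂ | ρ < w.re} := by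
    show ρ < (((max b ρ + 1 : ℝ)) : ℂ).re
    rw [Complex.ofReal_re]
    have := le_max_right b ρ
    linarith
  have h3 := h1.eqOn_of_preconnected_of_eventuallyEq h2 hc hz (by
    filter_upwards [(half_open b).mem_nhds hz, (half_open ρ).mem_nhds hz'] with w hw1 hw2
    exact h w hw1 hw2)
  exact fun w hw => h3 hw

theorem DS_eq {α : ℕ → ℂ} (h0 : α 0 = 0) : DS α = LSeries α := by
  funext w
  unfold DS LSeries
  refine tsum_congr fun d => ?_
  rcases eq_or_ne d 0 with rfl | hd
  · rw [h0, zero_mul, LSeries.term_zero]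
  · rw [LSeries.term_of_ne_zero hd, Complex.cpow_neg, div_eq_mul_inv]

theorem DS_diff {κ A : ℝ} {α : ℕ → ℂ} (h0 : α 0 = 0) (h : ∀ d : ℕ, ‖α d‖ ≤ A * (d : ℝ) ^ κ) :
    DifferentiableOn ℂ (DS α) {w | κ + 1 < w.re} := by
  rw [DS_eq h0]
  refine (LSeries_differentiableOn α).mono fun w hw => ?_
  have h1 := LSeries.abscissaOfAbsConv_le_of_le_const_mul_rpow (f := α) (x := κ)
    ⟨A, fun n _ => h n⟩
  have h2 : (((κ + 1 : ℝ)) : EReal) < ((w.re : ℝ) : EReal) := EReal.coe_lt_coe_iff.2 hw
  refine lt_of_le_of_lt h1 ?_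
  simpa using h2

theorem DS_norm {κ A : ℝ} {α : ℕ → ℂ} (hA : 0 ≤ A) (h0 : α 0 = 0)
    (h : ∀ d : ℕ, ‖α d‖ ≤ A * (d : ℝ) ^ κ) {w : ℂ} (hw : κ + 2 ≤ w.re) :
    ‖DS α w‖ ≤ A * ∑' d : ℕ, (d : ℝ) ^ (-(2 : ℝ)) := by
  unfold DS
  have hs : Summable (fun d : ℕ => (d : ℝ) ^ (-(2 : ℝ))) := Real.summable_nat_rpow.2 (by norm_num)
  rw [← tsum_mul_left]
  refine tsum_of_norm_bounded (hs.mul_left A).hasSum fun d => ?_
  rcases Nat.eq_zero_or_pos d with rfl | hd
  · rw [h0, zero_mul, norm_zero]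
    positivity
  · have hd1 : (1 : ℝ) ≤ d := by exact_mod_cast hd
    rw [norm_mul, Complex.norm_natCast_cpow_of_pos hd]
    calc ‖α d‖ * (d : ℝ) ^ (-w).re ≤ (A * (d : ℝ) ^ κ) * (d : ℝ) ^ (-w).re := by
          gcongr
          exact h d
      _ = A * (d : ℝ) ^ (κ + (-w).re) := by
          rw [Real.rpow_add (by linarith)]
          ring
      _ ≤ A * (d : ℝ) ^ (-(2 : ℝ)) := by
          refine mul_le_mul_of_nonneg_left (Real.rpow_le_rpow_of_exponent_le hd1 ?_) hA
          rw [Complex.neg_re]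
          linarith

variable {ι : Type} [Fintype ι] [DecidableEq ι]

/-- The remainder. -/
noncomputable def Er (α : ℕ → ℂ) (a c : ι → ℂ) (v u : ℝ) : ℂ :=
  SS α v u - if 0 ≤ u then ∑ i, c i * Complex.exp (a i * u) else 0

theorem pole_int {a w : ℂ} (h : a.re < w.re) :
    Integrable (fun u : ℝ => (if 0 ≤ u then Complex.exp (a * u) else 0) * Complex.exp (-w * u)) ∧
    ∫ u : ℝ, (if 0 ≤ u then Complex.exp (a * u) else 0) * Complex.exp (-w * u) = 1 / (w - a) := by
  have e : (fun u : ℝ => (if 0 ≤ u then Complex.exp (a * u) else 0) * Complex.exp (-w * u)) =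
      (Set.Ici (0 : ℝ)).indicator (fun u : ℝ => Complex.exp ((a - w) * u)) := by
    funext u
    by_cases hu : 0 ≤ u
    · rw [if_pos hu, Set.indicator_of_mem (show u ∈ Set.Ici (0 : ℝ) from hu), ← Complex.exp_add]
      congr 1
      ring
    · rw [if_neg hu, Set.indicator_of_notMem (show u ∉ Set.Ici (0 : ℝ) from hu), zero_mul]
  have hre : (a - w).re < 0 := by
    rw [Complex.sub_re]
    linarith
  rw [e]
  constructor
  · rw [integrable_indicator_iff measurableSet_Ici, integrableOn_Ici_iff_integrableOn_Ioi]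
    exact integrableOn_exp_mul_complex_Ioi hre 0
  · rw [integral_indicator measurableSet_Ici, integral_Ici_eq_integral_Ioi,
      integral_exp_mul_complex_Ioi hre]
    have hne : w - a ≠ 0 := by
      intro h0
      have := congrArg Complex.re h0
      rw [Complex.sub_re, Complex.zero_re] at this
      linarith
    have hne' : a - w ≠ 0 := by
      intro h0
      apply hne
      rw [← neg_sub, h0, neg_zero]
    simp only [Complex.ofReal_zero, mul_zero, Complex.exp_zero]
    rw [div_eq_div_iff hne' hne]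
    ring

/-- The function `H`. -/
noncomputable def HH (α : ℕ → ℂ) (a c : ι → ℂ) (v : ℝ) (w : ℂ) : ℂ :=
  ∫ u : ℝ, Er α a c v u * Complex.exp (-w * u)

/-- The product of the `w - a i`. -/
noncomputable def Pr (a : ι → ℂ) (w : ℂ) : ℂ := ∏ i, (w - a i)

/-- The polar polynomial. -/
noncomputable def Qr (a c : ι → ℂ) (w : ℂ) : ℂ := ∑ i, c i * ∏ i' ∈ univ.erase i, (w - a i')

theorem Pr_diff (a : ι → ℂ) : Differentiable ℂ (Pr a) := by
  intro w
  unfold Pr
  exact (HasFDerivAt.finsetProd (u := univ) (g := fun (i : ι) (w : ℂ) => w - a i)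
    fun i _ => (show DifferentiableAt ℂ (fun w : ℂ => w - a i) w by fun_prop).hasFDerivAt).differentiableAt

theorem Qr_diff (a c : ι → ℂ) : Differentiable ℂ (Qr a c) := by
  intro w
  unfold Qr
  refine DifferentiableAt.fun_sum fun i _ => ?_
  refine DifferentiableAt.const_mul ?_ _
  exact (HasFDerivAt.finsetProd (u := univ.erase i) (g := fun (i' : ι) (w : ℂ) => w - a i')
    fun i' _ => (show DifferentiableAt ℂ (fun w : ℂ => w - a i') w by fun_prop).hasFDerivAt).differentiableAt

theorem Pr_norm (a : ι → ℂ) {A : ℝ} (ha : ∀ i, ‖a i‖ ≤ A) (w : ℂ) :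
    ‖Pr a w‖ ≤ (‖w‖ + A) ^ Fintype.card ι := by
  unfold Pr
  rw [norm_prod]
  calc ∏ i, ‖w - a i‖ ≤ ∏ _i : ι, (‖w‖ + A) :=
        prod_le_prod (fun _ _ => norm_nonneg _) fun i _ => (norm_sub_le _ _).trans
          (add_le_add le_rfl (ha i))
    _ = _ := by simp

theorem HH_eq {α : ℕ → ℂ} {v : ℝ} {w : ℂ} (a c : ι → ℂ)
    (hS : Integrable (fun u : ℝ => SS α v u * Complex.exp (-w * u)))
    (hS' : ∫ u : ℝ, SS α v u * Complex.exp (-w * u) =
      (Real.sqrt Real.pi : ℂ) * Complex.exp ((w - I * v) ^ 2 / 4) * DS α w)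
    (ha : ∀ i, (a i).re < w.re) :
    Pr a w * HH α a c v w + Qr a c w =
      (Real.sqrt Real.pi : ℂ) * Complex.exp ((w - I * v) ^ 2 / 4) * DS α w * Pr a w := by
  have h1 : HH α a c v w = (Real.sqrt Real.pi : ℂ) * Complex.exp ((w - I * v) ^ 2 / 4) * DS α w -
      ∑ i, c i * (1 / (w - a i)) := by
    have e : (fun u : ℝ => Er α a c v u * Complex.exp (-w * u)) = fun u : ℝ =>
        SS α v u * Complex.exp (-w * u) - ∑ i, c i *
          ((if 0 ≤ u then Complex.exp (a i * u) else 0) * Complex.exp (-w * u)) := by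
      funext u
      unfold Er
      by_cases hu : 0 ≤ u
      · simp only [if_pos hu]
        rw [sub_mul, sum_mul]
        congr 1
        refine sum_congr rfl fun i _ => ?_
        ring
      · simp only [if_neg hu, sub_zero, zero_mul, mul_zero, sum_const_zero]
    have h2 : ∀ i, Integrable (fun u : ℝ => c i *
        ((if 0 ≤ u then Complex.exp (a i * u) else 0) * Complex.exp (-w * u))) := fun i =>
      (pole_int (ha i)).1.const_mul _
    unfold HH
    rw [e, integral_sub hS (integrable_finsetSum _ fun i _ => h2 i), hS',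
      integral_finsetSum _ fun i _ => h2 i]
    congr 1
    refine sum_congr rfl fun i _ => ?_
    rw [integral_const_mul, (pole_int (ha i)).2]
  have h3 : ∀ i, w - a i ≠ 0 := by
    intro i h0
    have := congrArg Complex.re h0
    rw [Complex.sub_re, Complex.zero_re] at this
    linarith [ha i]
  have h4 : Pr a w * ∑ i, c i * (1 / (w - a i)) = Qr a c w := by
    unfold Pr Qr
    rw [mul_sum]
    refine sum_congr rfl fun i _ => ?_
    rw [← mul_prod_erase univ (fun i => w - a i) (mem_univ i)]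
    field_simp [h3 i]
  rw [h1, mul_sub, h4]
  ring

end Pool.Agent.W5h55.MO
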