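import Pool.Agent.W5h55.MO.One

set_option autoImplicit false

/-!
# From asymptotic formulas to continuation: one variable (conclusion)
-/

namespace Pool.Agent.W5h55.MO

open Finset Complex MeasureTheory Filter Topology

theorem sqrt_pi_ne : (Real.sqrt Real.pi : ℂ) ≠ 0 := by
  exact_mod_cast (Real.sqrt_pos.2 Real.pi_pos).ne'

theorem one (ι : Type) [Fintype ι] [DecidableEq ι] {κ b b' T : ℝ} (hκ : 0 ≤ κ) (hb : b < b')
    (hbκ : b < κ + 1) (N : ℕ) : ∃ C' : ℝ, 0 ≤ C' ∧ ∀ (α : ℕ → ℂ) (A : ℝ) (a R : ι → ℂ),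
    1 ≤ A → α 0 = 0 → (∀ d : ℕ, ‖α d‖ ≤ A * (d : ℝ) ^ κ) → (∀ i, ‖a i‖ ≤ A) →
    (∀ v u : ℝ, 0 ≤ u → ‖SS α v u - ∑ i, R i * Complex.exp ((a i - I * v) ^ 2 / 4) *
      Complex.exp (a i * u)‖ ≤ A * (1 + |v|) ^ N * Real.exp (b * u)) →
    ∃ f : ℂ → ℂ, DifferentiableOn ℂ f {w | b < w.re} ∧
      (∀ w : ℂ, κ + 1 < w.re → f w = DS α w * ∏ i, (w - a i)) ∧
      ∀ w : ℂ, b' < w.re → w.re ≤ T → ‖f w‖ ≤ C' * (A + ‖w‖) ^ (Fintype.card ι + 1 + N) := by
  obtain ⟨Z, hZ, hg⟩ := gauss κ hκ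
  set n : ℕ := Fintype.card ι with hn
  set T1 : ℝ := max (max T b') (κ + 2) with hT1
  have hT1a : κ + 2 ≤ T1 := le_max_right _ _
  have hT1b : b' ≤ T1 := (le_max_right T b').trans (le_max_left _ _)
  have hT1T : T ≤ T1 := (le_max_left T b').trans (le_max_left _ _)
  set X : ℝ := |b'| + |T| + |T1| with hX
  have hX0 : 0 ≤ X := by positivity
  set G0 : ℝ := Real.sqrt Real.pi * Real.exp (X ^ 2 / 4) with hG0
  have hG00 : 0 ≤ G0 := by positivity
  have hbb : 0 < b' - b := by linarith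
  set K1 : ℝ := 1 / (b' - b) + Z * G0 with hK1
  have hK10 : 0 ≤ K1 := by positivity
  set Z3 : ℝ := ∑' d : ℕ, (d : ℝ) ^ (-(2 : ℝ)) with hZ3
  have hZ30 : 0 ≤ Z3 := tsum_nonneg fun _ => by positivity
  set K4 : ℝ := Real.sqrt Real.pi * Real.exp (T1 ^ 2 / 4) * Z3 with hK4
  have hK40 : 0 ≤ K4 := by positivity
  set K3 : ℝ := |T1| + n + 1 with hK3
  have hK30 : 0 ≤ K3 := by positivity
  set K2 : ℝ := X + n + 1 with hK2
  have hK21 : 1 ≤ K2 := by
    have : (0 : ℝ) ≤ n := Nat.cast_nonneg n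
    linarith
  refine ⟨K1 + n * (K3 ^ n * (K4 + K1)) * K2 ^ n, by positivity, ?_⟩
  intro α A a R hA h0 hα ha hR
  have hA0 : 0 ≤ A := by linarith
  obtain ⟨hm, hneg, hint⟩ := hg α A hA0 h0 hα
  set c : ℝ → ι → ℂ := fun v i => R i * Complex.exp ((a i - I * v) ^ 2 / 4) with hc
  have hmeas : ∀ v, Measurable (Er α a (c v) v) := by
    intro v
    unfold Er
    refine (hm v).sub (Measurable.ite measurableSet_Ici ?_ measurable_const)
    exact Finset.measurable_sum _ fun i _ => by fun_prop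
  have hL := fun v => lapl b (Er α a (c v) v) (A * (1 + |v|) ^ N) (A * Z) (hmeas v)
    (fun u hu => by
      unfold Er
      rw [if_pos hu]
      exact hR v u hu)
    (fun u hu => by
      unfold Er
      rw [if_neg (not_le.2 hu), sub_zero]
      exact hneg v u hu.le)
  have hHd : ∀ v, DifferentiableOn ℂ (HH α a (c v) v) {w | b < w.re} := fun v => (hL v).1
  have hHn : ∀ v (w : ℂ), b' ≤ w.re → |w.re| ≤ X →
      ‖HH α a (c v) v w‖ ≤ A * (1 + |v|) ^ N * K1 := by
    intro v w hw hwX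
    refine ((hL v).2 w (by linarith)).2.trans ?_
    have e1 : A * (1 + |v|) ^ N / (w.re - b) ≤ A * (1 + |v|) ^ N * (1 / (b' - b)) := by
      rw [div_eq_mul_one_div]
      refine mul_le_mul_of_nonneg_left ?_ (by positivity)
      exact one_div_le_one_div_of_le hbb (by linarith)
    have e2 : w.re ^ 2 ≤ X ^ 2 := by
      rw [← sq_abs w.re]
      exact pow_le_pow_left₀ (abs_nonneg _) hwX 2
    have e3 : A * Z * (Real.sqrt Real.pi * Real.exp (w.re ^ 2 / 4)) ≤ A * Z * G0 := by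
      rw [hG0]
      gcongr
    have e4 : A * Z * G0 ≤ A * (1 + |v|) ^ N * (Z * G0) := by
      have : 1 ≤ (1 + |v|) ^ N := one_le_pow₀ (by linarith [abs_nonneg v])
      calc A * Z * G0 = A * 1 * (Z * G0) := by ring
        _ ≤ A * (1 + |v|) ^ N * (Z * G0) := by gcongr
    rw [hK1, mul_add]
    linarith
  -- the functions
  set F : ℝ → ℂ → ℂ := fun v w => (Real.sqrt Real.pi : ℂ)⁻¹ *
    Complex.exp (-((w - I * v) ^ 2 / 4)) * (Pr a w * HH α a (c v) v w + Qr a (c v) w) with hF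
  have hFd : ∀ v, DifferentiableOn ℂ (F v) {w | b < w.re} := by
    intro v
    refine DifferentiableOn.mul (Differentiable.differentiableOn (by fun_prop)) ?_
    exact ((Pr_diff a).differentiableOn.mul (hHd v)).add (Qr_diff a (c v)).differentiableOn
  have hkey : ∀ v (w : ℂ), κ + 1 < w.re → Pr a w * HH α a (c v) v w + Qr a (c v) w =
      (Real.sqrt Real.pi : ℂ) * Complex.exp ((w - I * v) ^ 2 / 4) * DS α w * Pr a w := by
    intro v
    refine half_eq (b := κ + 1) (ρ := A)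
      (f := fun w => Pr a w * HH α a (c v) v w + Qr a (c v) w)
      (g := fun w => (Real.sqrt Real.pi : ℂ) * Complex.exp ((w - I * v) ^ 2 / 4) * DS α w * Pr a w)
      ?_ ?_ fun w hw1 hw2 => ?_
    · have hbig : DifferentiableOn ℂ (fun w => Pr a w * HH α a (c v) v w + Qr a (c v) w)
          {w : ℂ | b < w.re} :=
        ((Pr_diff a).differentiableOn.mul (hHd v)).add (Qr_diff a (c v)).differentiableOn
      exact hbig.mono fun w hw => lt_trans hbκ hw
    · refine DifferentiableOn.mul (DifferentiableOn.mul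
        (Differentiable.differentiableOn (by fun_prop)) (DS_diff h0 hα))
        (Pr_diff a).differentiableOn
    · obtain ⟨e1, e2⟩ := hint v w hw1
      refine HH_eq a (c v) e1 e2 fun i => ?_
      exact lt_of_le_of_lt ((Complex.re_le_norm _).trans (ha i)) hw2
  have hFeq : ∀ v (w : ℂ), κ + 1 < w.re → F v w = DS α w * Pr a w := by
    intro v w hw
    show (Real.sqrt Real.pi : ℂ)⁻¹ * Complex.exp (-((w - I * v) ^ 2 / 4)) *
      (Pr a w * HH α a (c v) v w + Qr a (c v) w) = _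
    rw [hkey v w hw]
    have e1 : Complex.exp (-((w - I * v) ^ 2 / 4)) * Complex.exp ((w - I * v) ^ 2 / 4) = 1 := by
      rw [← Complex.exp_add, neg_add_cancel, Complex.exp_zero]
    calc (Real.sqrt Real.pi : ℂ)⁻¹ * Complex.exp (-((w - I * v) ^ 2 / 4)) *
        ((Real.sqrt Real.pi : ℂ) * Complex.exp ((w - I * v) ^ 2 / 4) * DS α w * Pr a w)
        = ((Real.sqrt Real.pi : ℂ)⁻¹ * (Real.sqrt Real.pi : ℂ)) *
          (Complex.exp (-((w - I * v) ^ 2 / 4)) * Complex.exp ((w - I * v) ^ 2 / 4)) *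
          (DS α w * Pr a w) := by ring
      _ = _ := by rw [e1, inv_mul_cancel₀ sqrt_pi_ne, one_mul, one_mul]
  have hFv : ∀ v (w : ℂ), b < w.re → F 0 w = F v w := fun v =>
    half_eq (ρ := κ + 1) (hFd 0) (hFd v) fun w _ hw => by rw [hFeq 0 w hw, hFeq v w hw]
  refine ⟨F 0, hFd 0, fun w hw => hFeq 0 w hw, fun w hw1 hw2 => ?_⟩
  -- the bound
  rw [hFv w.im w (by linarith)]
  set v : ℝ := w.im with hv
  set Y : ℝ := A + ‖w‖ with hY
  have hw0 := norm_nonneg w
  have hY1 : 1 ≤ Y := by linarith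
  have hvY : 1 + |v| ≤ Y := by
    have := Complex.abs_im_le_norm w
    rw [hY]
    linarith
  have hAY : A ≤ Y := by linarith
  have hwX : |w.re| ≤ X := by
    have e1 : |w.re| ≤ |b'| + |T| := by
      rcases abs_cases w.re with ⟨h1, -⟩ | ⟨h1, -⟩
      · rw [h1]
        have := le_abs_self T
        have := abs_nonneg b'
        linarith
      · rw [h1]
        have := neg_abs_le b'
        have := abs_nonneg T
        linarith
    have := abs_nonneg T1
    linarith
  have hvN : (1 + |v|) ^ N ≤ Y ^ N := pow_le_pow_left₀ (by positivity) hvY N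
  have hHHw : ∀ w' : ℂ, b' ≤ w'.re → |w'.re| ≤ X → ‖HH α a (c v) v w'‖ ≤ K1 * Y ^ (1 + N) := by
    intro w' h1 h2
    refine (hHn v w' h1 h2).trans ?_
    calc A * (1 + |v|) ^ N * K1 ≤ Y * Y ^ N * K1 := by gcongr
      _ = _ := by
        rw [pow_add, pow_one]
        ring
  have hPw : ‖Pr a w‖ ≤ Y ^ n := by
    refine (Pr_norm a ha w).trans (le_of_eq ?_)
    rw [hY, add_comm]
  -- the nodes
  set x : Fin n → ℂ := fun m => (T1 : ℂ) + ((v + m : ℝ) : ℂ) * I with hx
  have hxre : ∀ m, (x m).re = T1 := fun m => by simp [hx]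
  have hxn : ∀ m, ‖x m‖ + A ≤ K3 * Y := by
    intro m
    have e1 : ‖x m‖ ≤ |T1| + (|v| + n) := by
      have h1 : ‖x m‖ ≤ ‖(T1 : ℂ)‖ + ‖((v + m : ℝ) : ℂ) * I‖ := norm_add_le _ _
      rw [norm_mul, Complex.norm_I, mul_one, Complex.norm_real, Complex.norm_real,
        Real.norm_eq_abs, Real.norm_eq_abs] at h1
      have h2 : |v + m| ≤ |v| + n := by
        refine (abs_add_le _ _).trans ?_
        rw [Nat.abs_cast]
        have : (m : ℝ) ≤ n := by exact_mod_cast m.2.le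
        linarith
      linarith
    have e2 : |v| ≤ ‖w‖ := Complex.abs_im_le_norm w
    have e3 : (0 : ℝ) ≤ |T1| + n := by positivity
    calc ‖x m‖ + A ≤ (|T1| + n) * 1 + (A + ‖w‖) := by linarith
      _ ≤ (|T1| + n) * Y + Y := by
          have := mul_le_mul_of_nonneg_left hY1 e3
          linarith
      _ = _ := by rw [hK3]; ring
  have hPx : ∀ m, ‖Pr a (x m)‖ ≤ K3 ^ n * Y ^ n := by
    intro m
    refine (Pr_norm a ha (x m)).trans ?_
    rw [← mul_pow]
    exact pow_le_pow_left₀ (by positivity) (hxn m) _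
  have hQx : ∀ m, ‖Qr a (c v) (x m)‖ ≤ K3 ^ n * (K4 + K1) * Y ^ (n + 1 + N) := by
    intro m
    have h1 := hkey v (x m) (by rw [hxre]; linarith)
    have h2 : Qr a (c v) (x m) = Pr a (x m) * ((Real.sqrt Real.pi : ℂ) *
        Complex.exp ((x m - I * v) ^ 2 / 4) * DS α (x m) - HH α a (c v) v (x m)) := by
      linear_combination h1
    have h3 : ‖Complex.exp ((x m - I * v) ^ 2 / 4)‖ ≤ Real.exp (T1 ^ 2 / 4) := by
      rw [Complex.norm_exp]
      refine Real.exp_le_exp.2 ?_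
      have e : (x m - I * v) ^ 2 / 4 = (((T1 ^ 2 - (m : ℝ) ^ 2) / 4 : ℝ) : ℂ) +
          ((T1 * m / 2 : ℝ) : ℂ) * I := by
        rw [hx]
        push_cast
        ring_nf
        simp only [I_sq]
        ring
      rw [e, Complex.add_re, Complex.ofReal_re, Complex.re_ofReal_mul, Complex.I_re, mul_zero,
        add_zero]
      have : 0 ≤ (m : ℝ) ^ 2 := by positivity
      linarith
    have h4 : ‖DS α (x m)‖ ≤ A * Z3 := DS_norm hA0 h0 hα (by rw [hxre]; exact hT1a)
    have h5 : ‖HH α a (c v) v (x m)‖ ≤ K1 * Y ^ (1 + N) := by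
      refine hHHw _ (by rw [hxre]; exact hT1b) ?_
      rw [hxre, hX]
      have := abs_nonneg b'
      have := abs_nonneg T
      linarith
    have h6 : ‖(Real.sqrt Real.pi : ℂ)‖ = Real.sqrt Real.pi := by
      rw [Complex.norm_real, Real.norm_eq_abs, abs_of_nonneg (Real.sqrt_nonneg _)]
    have h7 : ‖(Real.sqrt Real.pi : ℂ) * Complex.exp ((x m - I * v) ^ 2 / 4) * DS α (x m)‖ ≤
        K4 * Y ^ (1 + N) := by
      rw [norm_mul, norm_mul, h6]
      calc Real.sqrt Real.pi * ‖Complex.exp ((x m - I * v) ^ 2 / 4)‖ * ‖DS α (x m)‖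
          ≤ Real.sqrt Real.pi * Real.exp (T1 ^ 2 / 4) * (A * Z3) := by gcongr
        _ = K4 * A := by rw [hK4]; ring
        _ ≤ K4 * Y ^ (1 + N) := by
            refine mul_le_mul_of_nonneg_left (hAY.trans ?_) hK40
            calc Y = Y ^ 1 := (pow_one Y).symm
              _ ≤ Y ^ (1 + N) := pow_le_pow_right₀ hY1 (by omega)
    rw [h2, norm_mul]
    calc ‖Pr a (x m)‖ * ‖(Real.sqrt Real.pi : ℂ) * Complex.exp ((x m - I * v) ^ 2 / 4) *
          DS α (x m) - HH α a (c v) v (x m)‖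
        ≤ (K3 ^ n * Y ^ n) * (K4 * Y ^ (1 + N) + K1 * Y ^ (1 + N)) :=
          mul_le_mul (hPx m) ((norm_sub_le _ _).trans (add_le_add h7 h5)) (norm_nonneg _)
            (by positivity)
      _ = _ := by
          rw [show n + 1 + N = n + (1 + N) by ring, pow_add Y n]
          ring
  have hdist : ∀ m m', m ≠ m' → 1 ≤ ‖x m - x m'‖ := by
    intro m m' hmm
    have e : x m - x m' = (((m : ℝ) - (m' : ℝ) : ℝ) : ℂ) * I := by
      rw [hx]
      push_cast
      ring
    rw [e, norm_mul, Complex.norm_I, mul_one, Complex.norm_real, Real.norm_eq_abs]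
    have h1 : ((m : ℕ) : ℤ) - ((m' : ℕ) : ℤ) ≠ 0 := by
      intro h
      apply hmm
      ext
      omega
    have h2 : (1 : ℤ) ≤ |((m : ℕ) : ℤ) - ((m' : ℕ) : ℤ)| := Int.one_le_abs h1
    have h3 : ((1 : ℤ) : ℝ) ≤ ((|((m : ℕ) : ℤ) - ((m' : ℕ) : ℤ)| : ℤ) : ℝ) := by exact_mod_cast h2
    push_cast at h3
    exact h3
  have hwx : ∀ m, ‖w - x m‖ ≤ K2 := by
    intro m
    have e : w - x m = ((w.re - T1 : ℝ) : ℂ) - ((m : ℝ) : ℂ) * I := by
      apply Complex.ext
      · simp [hx]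
      · simp [hx, hv]
    rw [e]
    refine (norm_sub_le _ _).trans ?_
    rw [norm_mul, Complex.norm_I, mul_one, Complex.norm_real, Complex.norm_real,
      Real.norm_eq_abs, Real.norm_eq_abs, Nat.abs_cast]
    have h1 : |w.re - T1| ≤ |w.re| + |T1| := abs_sub _ _
    have h2 : (m : ℝ) ≤ n := by exact_mod_cast m.2.le
    have h3 : |w.re| + |T1| ≤ X := by
      have e1 : |w.re| ≤ |b'| + |T| := by
        rcases abs_cases w.re with ⟨h1, -⟩ | ⟨h1, -⟩
        · rw [h1]
          have := le_abs_self T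
          have := abs_nonneg b'
          linarith
        · rw [h1]
          have := neg_abs_le b'
          have := abs_nonneg T
          linarith
      rw [hX]
      linarith
    rw [hK2]
    linarith
  have hQ : ‖Qr a (c v) w‖ ≤ n * (K3 ^ n * (K4 + K1)) * K2 ^ n * Y ^ (n + 1 + N) := by
    refine (intp ι a (c v) x hdist w).trans ?_
    calc ∑ m, ‖∑ i, c v i * ∏ i' ∈ univ.erase i, (x m - a i')‖ * ∏ m' ∈ univ.erase m, ‖w - x m'‖
        ≤ ∑ _m : Fin n, (K3 ^ n * (K4 + K1) * Y ^ (n + 1 + N)) * K2 ^ n := by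
          refine sum_le_sum fun m _ => ?_
          refine mul_le_mul (hQx m) ?_ (prod_nonneg fun _ _ => norm_nonneg _) (by positivity)
          calc ∏ m' ∈ univ.erase m, ‖w - x m'‖ ≤ ∏ _m' ∈ univ.erase m, K2 :=
                prod_le_prod (fun _ _ => norm_nonneg _) fun m' _ => hwx m'
            _ = K2 ^ (univ.erase m).card := by simp
            _ ≤ K2 ^ n := by
                refine pow_le_pow_right₀ hK21 ?_
                rw [card_erase_of_mem (mem_univ m), card_univ, Fintype.card_fin]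
                omega
      _ = _ := by
          rw [sum_const, card_univ, Fintype.card_fin, nsmul_eq_mul]
          ring
  have hwv : w - I * v = ((w.re : ℝ) : ℂ) := by
    apply Complex.ext
    · simp
    · simp [hv]
  have hexp : ‖(Real.sqrt Real.pi : ℂ)⁻¹ * Complex.exp (-((w - I * v) ^ 2 / 4))‖ ≤ 1 := by
    rw [norm_mul, norm_inv, Complex.norm_real, Real.norm_eq_abs,
      abs_of_nonneg (Real.sqrt_nonneg _), Complex.norm_exp, hwv]
    have e1 : (-((((w.re : ℝ)) : ℂ) ^ 2 / 4)).re = -(w.re ^ 2 / 4) := by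
      rw [← Complex.ofReal_pow]
      have : (-(((w.re ^ 2 : ℝ) : ℂ) / 4)) = ((-(w.re ^ 2 / 4) : ℝ) : ℂ) := by push_cast; ring
      rw [this, Complex.ofReal_re]
    rw [e1]
    have e2 : Real.exp (-(w.re ^ 2 / 4)) ≤ 1 := by
      rw [Real.exp_le_one_iff]
      have : 0 ≤ w.re ^ 2 := by positivity
      linarith
    have e3 : (Real.sqrt Real.pi)⁻¹ ≤ 1 := by
      refine inv_le_one_of_one_le₀ ?_
      rw [Real.one_le_sqrt]
      linarith [Real.pi_gt_three]
    calc (Real.sqrt Real.pi)⁻¹ * Real.exp (-(w.re ^ 2 / 4)) ≤ 1 * 1 :=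
          mul_le_mul e3 e2 (Real.exp_pos _).le zero_le_one
      _ = 1 := one_mul 1
  show ‖(Real.sqrt Real.pi : ℂ)⁻¹ * Complex.exp (-((w - I * v) ^ 2 / 4)) *
    (Pr a w * HH α a (c v) v w + Qr a (c v) w)‖ ≤ _
  rw [norm_mul]
  have hsum : ‖Pr a w * HH α a (c v) v w + Qr a (c v) w‖ ≤
      (K1 + n * (K3 ^ n * (K4 + K1)) * K2 ^ n) * Y ^ (n + 1 + N) := by
    have h1 : ‖Pr a w * HH α a (c v) v w‖ ≤ K1 * Y ^ (n + 1 + N) := by
      rw [norm_mul]
      calc ‖Pr a w‖ * ‖HH α a (c v) v w‖ ≤ Y ^ n * (K1 * Y ^ (1 + N)) :=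
            mul_le_mul hPw (hHHw w hw1.le hwX) (norm_nonneg _) (by positivity)
        _ = _ := by
            rw [show n + 1 + N = n + (1 + N) by ring, pow_add Y n]
            ring
    refine (norm_add_le _ _).trans ?_
    rw [add_mul]
    exact add_le_add h1 hQ
  calc ‖(Real.sqrt Real.pi : ℂ)⁻¹ * Complex.exp (-((w - I * v) ^ 2 / 4))‖ *
        ‖Pr a w * HH α a (c v) v w + Qr a (c v) w‖
      ≤ 1 * ((K1 + n * (K3 ^ n * (K4 + K1)) * K2 ^ n) * Y ^ (n + 1 + N)) :=
        mul_le_mul hexp hsum (norm_nonneg _) zero_le_one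
    _ = _ := one_mul _

end Pool.Agent.W5h55.MO
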