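import Pool.Agent.W5h55.MO.SD1
import Pool.Agent.W5h55.MO.EB

set_option autoImplicit false

/-!
# The asymptotic formula for sums with a sharp cutoff, one Dirichlet series
-/

namespace Pool.Agent.W5h55.MO

open Finset Complex MeasureTheory Filter

theorem score (hIV : S_IV) (hKH : S_KH) (hEB : S_EB) (hSD : S_SD) {ι : Type} [Fintype ι]
    [DecidableEq ι] [Nonempty ι] {b b' κ L : ℝ} (hb0 : 0 < b) (hb : b < b') (hb' : b' < 1)
    (hκ : 0 ≤ κ) (hL : 0 ≤ L) (N : ℕ) : ∃ δ' > 0, ∃ ε : ℝ, 0 < ε ∧ ∃ Z : ℝ, 0 ≤ Z ∧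
      ∀ (a : ι → ℂ) (α : ℕ → ℂ) (A A' : ℝ) (f : ℂ → ℂ) (C τ : ℝ), Function.Injective a →
      (∀ i, (a i).re = 1) → (∀ i, |(a i).im| ≤ L * τ) → α 0 = 0 →
      (∀ d : ℕ, ‖α d‖ ≤ A' * (d : ℝ) ^ κ) → 0 ≤ A → (∀ d : ℕ, ‖α d‖ ≤ A * (d : ℝ) ^ ε) →
      DifferentiableOn ℂ f {w | b < w.re} →
      (∀ w : ℂ, κ + 1 < w.re → f w = DS α w * ∏ i, (w - a i)) →
      (∀ w : ℂ, b < w.re → ‖f w‖ ≤ C * (1 + τ + ‖w‖) ^ N) → 0 ≤ τ → 0 ≤ C → ∀ u : ℝ, 0 ≤ u →
      ‖SC α (Real.exp u) - ∑ i, (f (a i) / a i / ∏ i' ∈ univ.erase i, (a i - a i')) *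
        Complex.exp (a i * u)‖ ≤
        (A + C) * Z * (1 + τ) ^ (N + 2) * Real.exp ((1 - δ') * u) := by
  obtain ⟨η0, hη0⟩ : ∃ η0 : ℝ, η0 = (1 - b') / (2 * (N + 1)) := ⟨_, rfl⟩
  have hN1 : (1 : ℝ) ≤ (N : ℝ) + 1 := by
    have : (0 : ℝ) ≤ N := Nat.cast_nonneg N
    linarith
  have hη0p : 0 < η0 := by
    rw [hη0]
    refine div_pos (by linarith) (by positivity)
  have hη0e : η0 * (N + 1) = (1 - b') / 2 := by
    rw [hη0]
    field_simp
  have hη0s : η0 ≤ (1 - b') / 2 := by nlinarith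
  obtain ⟨Z1, hZ1, hE⟩ := hEB b' N
  obtain ⟨Z2, hZ2, hS⟩ := hSD (η0 / 2) (by positivity) (by linarith)
  have h1b : 0 < 1 - b' := by linarith
  have hb'0 : 0 < b' := hb0.trans hb
  set n := Fintype.card ι with hn
  set Z3 : ℝ := (1 + b') ^ N / ((1 - b') ^ n * b') * Z1 with hZ3
  set Z4 : ℝ := ((n : ℝ) / η0) ^ (n - 1) * ((1 / b) * (3 + L) ^ (N + 2)) with hZ4
  have hZ3p : 0 ≤ Z3 := by positivity
  have hZ4p : 0 ≤ Z4 := by positivity
  refine ⟨η0 / 2, by positivity, η0 / 2, by positivity, 2 * Z2 + Z3 + Z4, by positivity, ?_⟩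
  intro a α A A' f C τ hinj ha hai hα0 hα hA hαε hfd hf hfb hτ hC u hu
  -- the width
  obtain ⟨η, hη⟩ : ∃ η : ℝ, η = Real.exp (-(η0 * u)) := ⟨_, rfl⟩
  have hηp : 0 < η := by rw [hη]; exact Real.exp_pos _
  have hη1 : η ≤ 1 := by
    rw [hη, Real.exp_le_one_iff]
    nlinarith
  have hT : κ + 1 < κ + 2 := by linarith
  -- the integrand
  have hf1d : DifferentiableOn ℂ (fun w => f w / w) {w | b < w.re} := by
    refine hfd.div differentiableOn_id fun w hw h0 => ?_
    have h1 : b < w.re := hw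
    rw [show w = 0 from h0, Complex.zero_re] at h1
    linarith
  have hf1b : ∀ w : ℂ, b < w.re → ‖f w / w‖ ≤ C * (1 / b) * (1 + τ + ‖w‖) ^ N := by
    intro w hw
    rw [norm_div, div_eq_mul_one_div]
    have e7 : 1 / ‖w‖ ≤ 1 / b := by
      refine one_div_le_one_div_of_le hb0 ?_
      exact hw.le.trans ((le_abs_self _).trans (Complex.abs_re_le_norm w))
    calc ‖f w‖ * (1 / ‖w‖) ≤ (C * (1 + τ + ‖w‖) ^ N) * (1 / b) :=
          mul_le_mul (hfb w hw) e7 (by positivity) (by positivity)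
      _ = _ := by ring
  have h1 := hIV κ α A' hκ hα0 hα (κ + 2) u η hT hηp
  have h2 := hKH ι a b b' (κ + 2) (fun w => f w / w) (C * (1 / b) * (1 + τ) ^ N) N u η hinj hb
    (fun i => by rw [ha]; exact hb') (fun i => by rw [ha]; linarith) (by linarith) hηp hf1d
    (fun w h3 _ => by
      refine (hf1b w h3).trans ?_
      rw [mul_assoc (C * (1 / b)), ← mul_pow]
      refine mul_le_mul_of_nonneg_left (pow_le_pow_left₀ (by positivity) ?_ N) (by positivity)
      nlinarith [norm_nonneg w])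
  have h3 : ∫ y : ℝ, KE η u ((κ + 2 : ℝ) + y * I) *
      (DS α ((κ + 2 : ℝ) + y * I) / ((κ + 2 : ℝ) + y * I)) =
      ∫ y : ℝ, KE η u ((κ + 2 : ℝ) + y * I) *
        (fun w => f w / w) ((κ + 2 : ℝ) + y * I) / ∏ i, ((κ + 2 : ℝ) + y * I - a i) := by
    refine integral_congr_ae (Eventually.of_forall fun y => ?_)
    have hne : ∏ i, (((κ + 2 : ℝ) : ℂ) + y * I - a i) ≠ 0 := by
      refine prod_ne_zero_iff.2 fun i _ h0 => ?_
      have h4 := congrArg Complex.re h0
      have h5 : (((κ + 2 : ℝ) : ℂ) + y * I - a i).re = κ + 2 - (a i).re := by simp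
      rw [h5, ha, Complex.zero_re] at h4
      linarith
    have h5 : (((κ + 2 : ℝ) : ℂ) + y * I).re = κ + 2 := by simp
    have h6 : (((κ + 2 : ℝ) : ℂ) + y * I) ≠ 0 := by
      intro h0
      have h4 := congrArg Complex.re h0
      rw [h5, Complex.zero_re] at h4
      linarith
    simp only
    rw [hf _ (by rw [h5]; exact hT)]
    field_simp
  rw [h3] at h1
  rw [h1] at h2
  -- the error term on the line `b'`
  have hh : ∀ y : ℝ, ‖(f (b' + y * I) / (b' + y * I)) / ∏ i, (b' + y * I - a i)‖ ≤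
      (C * ((1 + b') ^ N / ((1 - b') ^ n * b'))) * (1 + τ + |y|) ^ N := by
    intro y
    have h7 : (1 - b') ^ n ≤ ‖∏ i, ((b' : ℂ) + y * I - a i)‖ := by
      rw [norm_prod]
      have h8 : ∀ i ∈ (univ : Finset ι), 1 - b' ≤ ‖(b' : ℂ) + y * I - a i‖ := by
        intro i _
        have h9 := Complex.abs_re_le_norm ((b' : ℂ) + y * I - a i)
        have h10 : ((b' : ℂ) + y * I - a i).re = b' - 1 := by simp [ha]
        rw [h10, abs_sub_comm, abs_of_pos h1b] at h9
        exact h9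
      calc (1 - b') ^ n = ∏ _i : ι, (1 - b') := by simp [hn]
        _ ≤ _ := prod_le_prod (fun _ _ => h1b.le) h8
    have h8 : ‖f (b' + y * I)‖ ≤ C * ((1 + b') ^ N * (1 + τ + |y|) ^ N) := by
      refine (hfb _ (by simpa using hb)).trans ?_
      rw [← mul_pow]
      refine mul_le_mul_of_nonneg_left (pow_le_pow_left₀ (by positivity) ?_ N) hC
      have h9 : ‖(b' : ℂ) + y * I‖ ≤ b' + |y| := by
        refine (norm_add_le _ _).trans ?_
        rw [norm_mul, Complex.norm_I, mul_one, Complex.norm_real, Complex.norm_real,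
          Real.norm_eq_abs, Real.norm_eq_abs, abs_of_pos hb'0]
      nlinarith [abs_nonneg y, mul_nonneg hb'0.le hτ, mul_nonneg hb'0.le (abs_nonneg y)]
    have h9 : b' ≤ ‖(b' : ℂ) + y * I‖ := by
      have := Complex.abs_re_le_norm ((b' : ℂ) + y * I)
      have h10 : ((b' : ℂ) + y * I).re = b' := by simp
      rw [h10, abs_of_pos hb'0] at this
      exact this
    rw [norm_div, norm_div, div_div]
    calc ‖f (b' + y * I)‖ / (‖(b' : ℂ) + y * I‖ * ‖∏ i, ((b' : ℂ) + y * I - a i)‖)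
        ≤ (C * ((1 + b') ^ N * (1 + τ + |y|) ^ N)) / (b' * (1 - b') ^ n) :=
          div_le_div₀ (by positivity) h8 (by positivity)
            (mul_le_mul h9 h7 (by positivity) (norm_nonneg _))
      _ = _ := by
          rw [mul_comm b']
          ring
  have hfin := hE u τ (C * ((1 + b') ^ N / ((1 - b') ^ n * b'))) η
    (fun y => (f (b' + y * I) / (b' + y * I)) / ∏ i, (b' + y * I - a i)) hτ (by positivity)
    hηp hη1 hh
  have hmd := main_diff (b := b) (ρ := η0) N hinj ha hai hη0p (by linarith) hb0 hL hτ hC hfd hfb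
    hu hηp hη1
  have hsd := hS α A hA hα0 hαε u η hu hηp hη1
  -- exponents
  have hτ1 : (1 : ℝ) ≤ 1 + τ := by linarith
  have ex1 : η * Real.exp ((1 + η0 / 2) * u) = Real.exp ((1 - η0 / 2) * u) := by
    rw [hη, ← Real.exp_add]
    congr 1
    ring
  have ex2 : Real.exp (η0 / 2 * u) ≤ Real.exp ((1 - η0 / 2) * u) :=
    Real.exp_le_exp.2 (mul_le_mul_of_nonneg_right (by linarith) hu)
  have ex3 : Real.exp (b' * u) * (1 / η) ^ (N + 1) ≤ Real.exp ((1 - η0 / 2) * u) := by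
    have e1 : (1 / η) ^ (N + 1) = Real.exp ((1 - b') / 2 * u) := by
      rw [hη, one_div, ← Real.exp_neg, neg_neg, ← Real.exp_nat_mul]
      congr 1
      push_cast
      rw [← hη0e]
      ring
    rw [e1, ← Real.exp_add]
    refine Real.exp_le_exp.2 ?_
    nlinarith
  have ex4 : η ^ 2 * Real.exp ((1 + η0) * u) ≤ Real.exp ((1 - η0 / 2) * u) := by
    rw [hη, ← Real.exp_nat_mul, ← Real.exp_add]
    refine Real.exp_le_exp.2 ?_
    push_cast
    nlinarith
  set E : ℝ := Real.exp ((1 - η0 / 2) * u) with hEdef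
  have hEp : 0 < E := Real.exp_pos _
  -- the three errors
  have er1 : ‖SE α η u - SC α (Real.exp u)‖ ≤ A * (2 * Z2) * E := by
    refine hsd.trans ?_
    calc A * Z2 * (η * Real.exp ((1 + η0 / 2) * u) + Real.exp (η0 / 2 * u))
        ≤ A * Z2 * (E + E) := by
          refine mul_le_mul_of_nonneg_left ?_ (by positivity)
          rw [ex1]
          linarith
      _ = _ := by ring
  have er2 : ‖∫ y : ℝ, KE η u (b' + y * I) *
      ((f (b' + y * I) / (b' + y * I)) / ∏ i, (b' + y * I - a i))‖ ≤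
      C * Z3 * (1 + τ) ^ N * E := by
    refine hfin.trans ?_
    calc C * ((1 + b') ^ N / ((1 - b') ^ n * b')) * Z1 * (1 + τ) ^ N * Real.exp (b' * u) *
          (1 / η) ^ (N + 1) = C * Z3 * (1 + τ) ^ N * (Real.exp (b' * u) * (1 / η) ^ (N + 1)) := by
          rw [hZ3]
          ring
      _ ≤ _ := mul_le_mul_of_nonneg_left ex3 (by positivity)
  have er3 : ‖∑ i, (KE η u (a i) - Complex.exp (a i * u)) * (f (a i) / a i) /
      ∏ i' ∈ univ.erase i, (a i - a i')‖ ≤ C * Z4 * (1 + τ) ^ (N + 2) * E := by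
    refine hmd.trans ?_
    calc ((n : ℝ) / η0) ^ (n - 1) * (C * (1 / b) * (3 + L) ^ (N + 2) * (1 + τ) ^ (N + 2) *
          η ^ 2 * Real.exp ((1 + η0) * u))
        = C * Z4 * (1 + τ) ^ (N + 2) * (η ^ 2 * Real.exp ((1 + η0) * u)) := by
          rw [hZ4]
          ring
      _ ≤ _ := mul_le_mul_of_nonneg_left ex4 (by positivity)
  have hkey : SC α (Real.exp u) - ∑ i, (f (a i) / a i / ∏ i' ∈ univ.erase i, (a i - a i')) *
      Complex.exp (a i * u) = -(SE α η u - SC α (Real.exp u)) +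
      (1 / (2 * Real.pi) : ℂ) * (∫ y : ℝ, KE η u (b' + y * I) *
        ((f (b' + y * I) / (b' + y * I)) / ∏ i, (b' + y * I - a i))) +
      ∑ i, (KE η u (a i) - Complex.exp (a i * u)) * (f (a i) / a i) /
        ∏ i' ∈ univ.erase i, (a i - a i') := by
    have e1 : (fun y : ℝ => KE η u (b' + y * I) *
        ((f (b' + y * I) / (b' + y * I)) / ∏ i, (b' + y * I - a i))) =
        fun y : ℝ => KE η u (b' + y * I) * (fun w => f w / w) (b' + y * I) /
          ∏ i, (b' + y * I - a i) := by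
      funext y
      simp only
      rw [mul_div_assoc]
    have e2 : ∑ i, (KE η u (a i) - Complex.exp (a i * u)) * (f (a i) / a i) /
        ∏ i' ∈ univ.erase i, (a i - a i') =
        ∑ i, KE η u (a i) * (fun w => f w / w) (a i) / ∏ i' ∈ univ.erase i, (a i - a i') -
        ∑ i, (f (a i) / a i / ∏ i' ∈ univ.erase i, (a i - a i')) * Complex.exp (a i * u) := by
      rw [← Finset.sum_sub_distrib]
      refine sum_congr rfl fun i _ => ?_
      simp only
      ring
    have hpi : (Real.pi : ℂ) ≠ 0 := by exact_mod_cast Real.pi_ne_zero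
    rw [e1, e2]
    have e3 : SE α η u = (1 / (2 * Real.pi) : ℂ) * (2 * Real.pi * SE α η u) := by
      field_simp
    rw [h2] at e3
    rw [mul_add] at e3
    have e4 : (1 / (2 * Real.pi) : ℂ) * (2 * Real.pi *
        ∑ i, KE η u (a i) * (fun w => f w / w) (a i) / ∏ i' ∈ univ.erase i, (a i - a i')) =
        ∑ i, KE η u (a i) * (fun w => f w / w) (a i) / ∏ i' ∈ univ.erase i, (a i - a i') := by
      field_simp
    rw [e4] at e3
    linear_combination e3
  rw [hkey]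
  have hpi1 : ‖(1 / (2 * Real.pi) : ℂ)‖ ≤ 1 := by
    have : (1 / (2 * Real.pi) : ℂ) = ((1 / (2 * Real.pi) : ℝ) : ℂ) := by push_cast; ring
    rw [this, Complex.norm_real, Real.norm_eq_abs, abs_of_pos (by positivity)]
    rw [div_le_one (by positivity)]
    linarith [Real.pi_gt_three]
  have hP : (1 : ℝ) ≤ (1 + τ) ^ (N + 2) := one_le_pow₀ hτ1
  have hP' : (1 + τ) ^ N ≤ (1 + τ) ^ (N + 2) := pow_le_pow_right₀ hτ1 (by omega)
  refine (norm_add_le _ _).trans ?_
  refine (add_le_add (norm_add_le _ _) le_rfl).trans ?_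
  rw [norm_neg, norm_mul]
  have er2' := mul_le_mul hpi1 er2 (norm_nonneg _) zero_le_one
  have fin1 : A * (2 * Z2) * E ≤ A * (2 * Z2) * (1 + τ) ^ (N + 2) * E := by
    have := mul_le_mul_of_nonneg_left hP (show 0 ≤ A * (2 * Z2) * E by positivity)
    nlinarith
  have fin2 : 1 * (C * Z3 * (1 + τ) ^ N * E) ≤ C * Z3 * (1 + τ) ^ (N + 2) * E := by
    rw [one_mul]
    gcongr
  have fin3 : A * (2 * Z2) * (1 + τ) ^ (N + 2) * E + C * Z3 * (1 + τ) ^ (N + 2) * E +
      C * Z4 * (1 + τ) ^ (N + 2) * E ≤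
      (A + C) * (2 * Z2 + Z3 + Z4) * (1 + τ) ^ (N + 2) * E := by
    have : 0 ≤ (A * (Z3 + Z4) + C * (2 * Z2)) * (1 + τ) ^ (N + 2) * E := by positivity
    nlinarith
  linarith

end Pool.Agent.W5h55.MO
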