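import Pool.Agent.W5h55.MO.DD

set_option autoImplicit false

/-!
# The main terms for the kernel of width `η`
-/

namespace Pool.Agent.W5h55.MO

open Finset Complex MeasureTheory Filter

theorem exp_sub_one_le {z : ℂ} (hz : z.re ≤ 1) : ‖Complex.exp z - 1‖ ≤ 4 * ‖z‖ := by
  by_cases h : ‖z‖ ≤ 1
  · have h1 := Complex.norm_exp_sub_one_le h
    linarith [norm_nonneg z]
  · push Not at h
    have h1 : ‖Complex.exp z - 1‖ ≤ ‖Complex.exp z‖ + ‖(1 : ℂ)‖ := norm_sub_le _ _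
    have h2 : ‖Complex.exp z‖ ≤ 3 := by
      rw [Complex.norm_exp]
      exact (Real.exp_le_exp.2 hz).trans (by linarith [Real.exp_one_lt_d9])
    rw [norm_one] at h1
    linarith

theorem strip_convex (L : ℝ) : Convex ℝ {w : ℂ | w.re = 1 ∧ |w.im| ≤ L} := by
  rintro x ⟨hx1, hx2⟩ y ⟨hy1, hy2⟩ p q hp hq hpq
  refine ⟨?_, ?_⟩
  · simp only [Complex.add_re, Complex.real_smul, Complex.mul_re, Complex.ofReal_re,
      Complex.ofReal_im, hx1, hy1]
    linarith
  · have e : (p • x + q • y).im = p * x.im + q * y.im := by simp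
    rw [e]
    calc |p * x.im + q * y.im| ≤ |p * x.im| + |q * y.im| := abs_add_le _ _
      _ = p * |x.im| + q * |y.im| := by
          rw [abs_mul, abs_mul, abs_of_nonneg hp, abs_of_nonneg hq]
      _ ≤ p * L + q * L := by gcongr
      _ = L := by rw [← add_mul, hpq, one_mul]

theorem main_diff {ι : Type} [Fintype ι] [DecidableEq ι] [Nonempty ι] {b ρ L τ C : ℝ} (N : ℕ)
    {a : ι → ℂ} (hinj : Function.Injective a) (ha : ∀ i, (a i).re = 1)
    (hai : ∀ i, |(a i).im| ≤ L * τ) (hρ : 0 < ρ) (hρ1 : ρ ≤ 1 - b) (hb : 0 < b) (hL : 0 ≤ L)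
    (hτ : 0 ≤ τ) (hC : 0 ≤ C) {f : ℂ → ℂ} (hfd : DifferentiableOn ℂ f {w | b < w.re})
    (hfb : ∀ w : ℂ, b < w.re → ‖f w‖ ≤ C * (1 + τ + ‖w‖) ^ N) {u η : ℝ} (hu : 0 ≤ u)
    (hη : 0 < η) (hη1 : η ≤ 1) :
    ‖∑ i, (KE η u (a i) - Complex.exp (a i * u)) * (f (a i) / a i) /
      ∏ i' ∈ univ.erase i, (a i - a i')‖ ≤
      ((Fintype.card ι : ℝ) / ρ) ^ (Fintype.card ι - 1) *
        (C * (1 / b) * (3 + L) ^ (N + 2) * (1 + τ) ^ (N + 2) * η ^ 2 *
          Real.exp ((1 + ρ) * u)) := by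
  have hmem : ∀ w ∈ Metric.thickening ρ {w : ℂ | w.re = 1 ∧ |w.im| ≤ L * τ},
      1 - ρ < w.re ∧ w.re < 1 + ρ ∧ ‖w‖ ≤ 2 + L * τ := by
    intro w hw
    obtain ⟨z, ⟨hz1, hz2⟩, hwz⟩ := Metric.mem_thickening_iff.1 hw
    rw [dist_eq_norm] at hwz
    have h1 := (Complex.abs_re_le_norm (w - z)).trans_lt hwz
    rw [Complex.sub_re, hz1, abs_lt] at h1
    have h2 : ‖z‖ ≤ 1 + L * τ := by
      have := Complex.norm_le_abs_re_add_abs_im z
      rw [hz1, abs_one] at this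
      linarith
    have h3 : ‖w‖ ≤ ‖w - z‖ + ‖z‖ := by
      have := norm_add_le (w - z) z
      rwa [sub_add_cancel] at this
    exact ⟨by linarith, by linarith, by linarith⟩
  have h := dd ι a {w : ℂ | w.re = 1 ∧ |w.im| ≤ L * τ} ρ
    (C * (1 / b) * (3 + L) ^ (N + 2) * (1 + τ) ^ (N + 2) * η ^ 2 * Real.exp ((1 + ρ) * u))
    (fun w => (KE η u w - Complex.exp (w * u)) * (f w / w)) hinj (strip_convex _)
    (fun i => ⟨ha i, hai i⟩) hρ ?_ ?_
  · exact h
  · refine DifferentiableOn.mul ?_ (DifferentiableOn.div (hfd.mono fun w hw => ?_)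
      differentiableOn_id fun w hw h0 => ?_)
    · refine Differentiable.differentiableOn ?_
      unfold KE
      fun_prop
    · have := (hmem w hw).1
      show b < w.re
      linarith
    · have h1 := (hmem w hw).1
      rw [show w = 0 from h0, Complex.zero_re] at h1
      linarith
  · intro w hw
    obtain ⟨h1, h2, h3⟩ := hmem w hw
    have hbw : b < w.re := by linarith
    have hρ2 : ρ < 1 := by linarith
    have hw3 : ‖w‖ ≤ (3 + L) * (1 + τ) := by nlinarith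
    have e1 : KE η u w - Complex.exp (w * u) =
        (Complex.exp ((η : ℂ) ^ 2 * w ^ 2 / 4) - 1) * Complex.exp (w * u) := by
      rw [KE, Complex.exp_add]
      ring
    have e2 : ((η : ℂ) ^ 2 * w ^ 2 / 4).re ≤ 1 := by
      have e3 : ((η : ℂ) ^ 2 * w ^ 2 / 4).re = η ^ 2 * (w.re ^ 2 - w.im ^ 2) / 4 := by
        have : (η : ℂ) ^ 2 * w ^ 2 / 4 = ((η ^ 2 / 4 : ℝ) : ℂ) * w ^ 2 := by push_cast; ring
        rw [this, Complex.re_ofReal_mul, pow_two w, Complex.mul_re]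
        ring
      rw [e3]
      have e4 : η ^ 2 ≤ 1 := pow_le_one₀ hη.le hη1
      have e5 : w.re ^ 2 ≤ 4 := by nlinarith
      have e6 : w.re ^ 2 - w.im ^ 2 ≤ 4 := by nlinarith [sq_nonneg w.im]
      have e7 : η ^ 2 * (w.re ^ 2 - w.im ^ 2) ≤ η ^ 2 * 4 :=
        mul_le_mul_of_nonneg_left e6 (by positivity)
      linarith
    have e3 := exp_sub_one_le e2
    have e4 : ‖(η : ℂ) ^ 2 * w ^ 2 / 4‖ = η ^ 2 * ‖w‖ ^ 2 / 4 := by
      rw [norm_div, norm_mul, norm_pow, norm_pow, Complex.norm_real, Real.norm_eq_abs,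
        abs_of_pos hη]
      norm_num
    rw [e4] at e3
    have e5 : ‖Complex.exp (w * u)‖ ≤ Real.exp ((1 + ρ) * u) := by
      rw [Complex.norm_exp, Complex.re_mul_ofReal]
      exact Real.exp_le_exp.2 (mul_le_mul_of_nonneg_right h2.le hu)
    have e6 : ‖f w / w‖ ≤ C * ((3 + L) * (1 + τ)) ^ N * (1 / b) := by
      rw [norm_div, div_eq_mul_one_div]
      have e7 : 1 / ‖w‖ ≤ 1 / b := by
        refine one_div_le_one_div_of_le hb ?_
        exact hbw.le.trans ((le_abs_self _).trans (Complex.abs_re_le_norm w))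
      refine mul_le_mul ((hfb w hbw).trans ?_) e7 (by positivity) (by positivity)
      refine mul_le_mul_of_nonneg_left (pow_le_pow_left₀ (by positivity) ?_ N) hC
      nlinarith
    rw [e1, norm_mul, norm_mul]
    have e7 : ‖w‖ ^ 2 ≤ ((3 + L) * (1 + τ)) ^ 2 := pow_le_pow_left₀ (norm_nonneg _) hw3 2
    calc ‖Complex.exp ((η : ℂ) ^ 2 * w ^ 2 / 4) - 1‖ * ‖Complex.exp (w * u)‖ * ‖f w / w‖
        ≤ (η ^ 2 * ((3 + L) * (1 + τ)) ^ 2) * Real.exp ((1 + ρ) * u) *
          (C * ((3 + L) * (1 + τ)) ^ N * (1 / b)) := by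
          refine mul_le_mul (mul_le_mul (e3.trans ?_) e5 (norm_nonneg _) (by positivity)) e6
            (norm_nonneg _) (by positivity)
          nlinarith [sq_nonneg η]
      _ = _ := by rw [mul_pow, mul_pow, pow_add, pow_add]; ring

end Pool.Agent.W5h55.MO
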