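import Pool.Agent.W5h65.MD.D1
import Pool.Agent.W5h63.MD.Def

/-! The two definitions of the function `F_M` (of `Pool.Agent.W5h63.MD` and of
`Pool.Agent.W5h65.MD`) agree in the region of absolute convergence. -/

set_option autoImplicit false

namespace Pool.Agent.W5h55.MO

open Finset

lemma isFund_iff65 (d : ℕ) :
    Pool.Agent.W5h63.MD.IsFund d ↔ Pool.Agent.W5h65.MD.IsFund d := by
  unfold Pool.Agent.W5h63.MD.IsFund Pool.Agent.W5h65.MD.IsFund
  constructor
  · rintro (h | ⟨h1, h2, h3⟩)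
    · exact Or.inl h
    · exact Or.inr ⟨d / 4, by omega, h2, h3⟩
  · rintro (h | ⟨m, h1, h2, h3⟩)
    · exact Or.inl h
    · right
      have : d / 4 = m := by omega
      rw [this]
      exact ⟨by omega, h2, h3⟩

lemma kron_eq65 {d n : ℕ} (hd : Pool.Agent.W5h65.MD.IsFund d) (hn : n ≠ 0) :
    Pool.Agent.W5h63.MD.kron d n = Pool.Agent.W5h65.MD.kr d n := by
  unfold Pool.Agent.W5h63.MD.kron Pool.Agent.W5h65.MD.kr
  have hno : Odd (ordCompl[2] n) := by
    rw [← Nat.not_even_iff_odd, even_iff_two_dvd]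
    exact Nat.not_dvd_ordCompl Nat.prime_two hn
  have hfac : n = 2 ^ n.factorization 2 * ordCompl[2] n := (Nat.ordProj_mul_ordCompl_eq_self n 2).symm
  rcases hd with ⟨h1, _⟩ | ⟨m, h1, _⟩
  · have hdo : Odd d := by rw [Nat.odd_iff]; omega
    rw [if_pos hdo]
    have e1 : jacobiSym (n : ℤ) d = jacobiSym ((2 : ℤ) ^ n.factorization 2 * (ordCompl[2] n : ℕ)) d := by
      congr 1
      exact_mod_cast hfac
    rw [e1, jacobiSym.mul_left, jacobiSym.pow_left, jacobiSym.at_two hdo,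
      jacobiSym.quadratic_reciprocity_one_mod_four h1 hno]
  · have hde : ¬ Odd d := by rw [Nat.odd_iff]; omega
    rw [if_neg hde]
    split_ifs with hn2
    · have h0 : n.factorization 2 = 0 := by
        rw [Nat.factorization_eq_zero_iff]
        right; left
        rw [← even_iff_two_dvd, Nat.not_even_iff_odd]
        exact hn2
      rw [h0]
      simp
    · have h0 : n.factorization 2 ≠ 0 := by
        intro h
        rw [Nat.factorization_eq_zero_iff] at h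
        rcases h with h | h | h
        · exact h Nat.prime_two
        · rw [Nat.not_odd_iff_even, even_iff_two_dvd] at hn2
          exact h hn2
        · exact hn h
      have hχ : ZMod.χ₈ (d : ZMod 8) = 0 := by
        rw [ZMod.χ₈_nat_eq_if_mod_eight]
        rw [if_pos (by omega)]
      rw [hχ, zero_pow h0, zero_mul]

lemma Ld_eq65 {d : ℕ} (hd : Pool.Agent.W5h65.MD.IsFund d) {s : ℂ} (hs : 1 < s.re) :
    Pool.Agent.W5h63.MD.Ld d s = Pool.Agent.W5h65.MD.LL d s := by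
  unfold Pool.Agent.W5h63.MD.Ld Pool.Agent.W5h65.MD.LL LSeries
  refine tsum_congr fun n => ?_
  rcases eq_or_ne n 0 with rfl | hn
  · rw [LSeries.term_zero]
    push_cast
    rw [Pool.Agent.W5h65.MD.zero_cpow_neg hs, mul_zero]
  · rw [LSeries.term_of_ne_zero hn, kron_eq65 hd hn, Complex.cpow_neg, div_eq_mul_inv]

theorem A_eq65 (k M : ℕ) (hM : 1 ≤ M) (s : Fin k → ℂ) (w : ℂ) (h1 : ∀ j, 1 < (s j).re) :
    Pool.Agent.W5h63.MD.A k M s w = Pool.Agent.W5h65.MD.AM M s w := by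
  classical
  unfold Pool.Agent.W5h63.MD.A Pool.Agent.W5h65.MD.AM
  have e1 : ∀ d : {d : ℕ // Pool.Agent.W5h63.MD.IsFund d},
      (Pool.Agent.W5h63.MD.kron d M : ℂ) * ((d : ℕ) : ℂ) ^ (-w) *
        ∏ j, Pool.Agent.W5h63.MD.Ld d (s j) =
      (fun d : ℕ => ((Pool.Agent.W5h65.MD.kr d M : ℤ) : ℂ) * (d : ℂ) ^ (-w) *
        ∏ j, Pool.Agent.W5h65.MD.LL d (s j)) d := by
    rintro ⟨d, hd⟩
    have hd' := (isFund_iff65 d).1 hd
    simp only
    rw [kron_eq65 hd' (by omega)]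
    congr 1
    exact Finset.prod_congr rfl fun j _ => Ld_eq65 hd' (h1 j)
  rw [tsum_congr e1]
  have e2 := tsum_subtype {d : ℕ | Pool.Agent.W5h63.MD.IsFund d}
    (fun d : ℕ => ((Pool.Agent.W5h65.MD.kr d M : ℤ) : ℂ) * (d : ℂ) ^ (-w) *
        ∏ j, Pool.Agent.W5h65.MD.LL d (s j))
  refine e2.trans (tsum_congr fun d => ?_)
  rw [Set.indicator_apply]
  have hmem : d ∈ {d : ℕ | Pool.Agent.W5h63.MD.IsFund d} ↔ Pool.Agent.W5h65.MD.IsFund d :=
    isFund_iff65 d
  by_cases hd : Pool.Agent.W5h65.MD.IsFund d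
  · rw [if_pos hd, if_pos (hmem.2 hd)]
  · rw [if_neg hd, if_neg (fun h => hd (hmem.1 h))]

theorem FM_eq63 (k M : ℕ) (hM : 1 ≤ M) (z : (Fin k → ℂ) × ℂ) (h1 : ∀ j, 1 < (z.1 j).re)
    (_h2 : 1 < z.2.re) :
    Pool.Agent.W5h63.MD.F k M z.1 z.2 = Pool.Agent.W5h65.MD.FM M z := by
  unfold Pool.Agent.W5h63.MD.F Pool.Agent.W5h65.MD.FM
  rw [A_eq65 k M hM z.1 z.2 h1]
  rfl

end Pool.Agent.W5h55.MO
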