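import Pool.Agent.W5h55.MO.Final6

set_option autoImplicit false

/-!
# The uniform version
-/

namespace Pool.Agent.W5h55.MO

open Finset Complex MeasureTheory Filter Pool.Agent.W5h65.MD Pool.Agent.W5h55.MC

variable {k : ℕ}

/-- A bound far to the right, uniform in `M`. -/
theorem FX_rightU {Λ : ℕ → ℂ → ℂ} (hΛ : IsCont Λ) {σ : Fin k → ℝ} (hσ : ∀ j, 0 < σ j) :
    ∃ (C : ℝ) (N : ℕ), 0 ≤ C ∧ ∀ (M : ℕ) (t : Fin k → ℝ) (w : ℂ), (k : ℝ) + 2 ≤ w.re →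
      ‖FX Λ M (fp σ t w)‖ ≤ C * (1 + ‖t‖ + ‖w‖) ^ N := by
  obtain ⟨δ, hδ, h1⟩ := exists_gap (fun _ => (0 : ℝ)) σ hσ
  set B : ℝ := 2 * (‖σ‖ + 1) / δ with hB
  have hB0 : 0 ≤ B := by positivity
  set S : ℝ := ∑' d : ℕ, (d : ℝ) ^ (-(2 : ℝ)) with hS
  have hS0 : 0 ≤ S := tsum_nonneg fun _ => by positivity
  refine ⟨B ^ k * S * (((k : ℝ) + 3) * (1 + ‖σ‖)) ^ (2 ^ k), k + 2 ^ k, by positivity,
    fun M t w hw => ?_⟩
  have ht0 := norm_nonneg t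
  have hw0 := norm_nonneg w
  have hσ0 := norm_nonneg σ
  have h2 : ∀ d : ℕ, ‖tm Λ M (fp σ t w) d‖ ≤ (d : ℝ) ^ (-(2 : ℝ)) * (B ^ k * (1 + ‖t‖) ^ k) := by
    intro d
    rcases Nat.lt_or_ge d 1 with hd0 | hd0
    · have : tm Λ M (fp σ t w) d = 0 := by
        classical
        unfold tm
        rw [if_neg (fun h => by omega)]
      rw [this, norm_zero]
      positivity
    have hd0' : (1 : ℝ) ≤ d := by exact_mod_cast hd0
    have h3 := tm_norm_le (Λ := Λ) (M := M) (d := d) (z := fp σ t w) (a := (k : ℝ) + 2)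
      (B := B * d * (1 + ‖t‖)) (by rwa [fp_zero]) (fun j hd1 hd2 => ?_) (by positivity)
    · refine h3.trans (le_of_eq ?_)
      rw [mul_pow, mul_pow]
      have h4 : (d : ℝ) ^ (-((k : ℝ) + 2)) * (d : ℝ) ^ k = (d : ℝ) ^ (-(2 : ℝ)) := by
        rw [← Real.rpow_natCast, ← Real.rpow_add (by linarith)]
        congr 1
        ring
      rw [← h4]
      ring
    · have hre : (fp σ t w j.succ).re = σ j := by
        rw [fp_succ]
        simp
      have hσj : δ < σ j := by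
        have := h1 j
        linarith
      refine ((hΛ.prop hd1 hd2).1 _ (by rw [hre]; exact hσ j)).trans ?_
      rw [hre]
      have h5 : ‖fp σ t w j.succ‖ ≤ (‖σ‖ + 1) * (1 + ‖t‖) := by
        rw [fp_succ]
        have h6 := norm_le_pi_norm t j
        have h7 := norm_le_pi_norm σ j
        have h8 : ‖(σ j : ℂ) + t j * I‖ ≤ ‖σ j‖ + ‖t j‖ := by
          refine (norm_add_le _ _).trans ?_
          rw [norm_mul, Complex.norm_I, mul_one, Complex.norm_real, Complex.norm_real]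
        nlinarith [mul_nonneg hσ0 ht0]
      have h6 : ((d : ℝ) + 1) / σ j ≤ 2 * d / δ :=
        div_le_div₀ (by positivity) (by linarith) hδ hσj.le
      calc ‖fp σ t w j.succ‖ * (((d : ℝ) + 1) / σ j)
          ≤ ((‖σ‖ + 1) * (1 + ‖t‖)) * (2 * d / δ) := by
            refine mul_le_mul h5 h6 ?_ (by positivity)
            have := (hσ j).le
            positivity
        _ = B * d * (1 + ‖t‖) := by
            rw [hB]
            ring
  have h3 : ‖∑' d, tm Λ M (fp σ t w) d‖ ≤ S * (B ^ k * (1 + ‖t‖) ^ k) := by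
    rw [hS, ← tsum_mul_right]
    exact tsum_of_norm_bounded ((summ_rpow (by norm_num)).mul_right _).hasSum h2
  have h4 : ‖PP (fp σ t w)‖ ≤ (((k : ℝ) + 3) * (1 + ‖σ‖)) ^ (2 ^ k) *
      (1 + ‖t‖ + ‖w‖) ^ (2 ^ k) := by
    refine (PP_norm _).trans ?_
    rw [mul_pow, mul_assoc]
    refine mul_le_mul_of_nonneg_left ?_ (by positivity)
    rw [← mul_pow]
    refine pow_le_pow_left₀ (by positivity) ?_ _
    have := norm_fp σ t w
    nlinarith [mul_nonneg hσ0 ht0, mul_nonneg hσ0 hw0]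
  have h5 : (1 + ‖t‖) ^ k ≤ (1 + ‖t‖ + ‖w‖) ^ k :=
    pow_le_pow_left₀ (by positivity) (by linarith) _
  unfold FX
  rw [norm_mul]
  calc ‖∑' d, tm Λ M (fp σ t w) d‖ * ‖PP (fp σ t w)‖
      ≤ (S * (B ^ k * (1 + ‖t‖ + ‖w‖) ^ k)) * ((((k : ℝ) + 3) * (1 + ‖σ‖)) ^ (2 ^ k) *
        (1 + ‖t‖ + ‖w‖) ^ (2 ^ k)) := by
        refine mul_le_mul (h3.trans ?_) h4 (norm_nonneg _) (by positivity)
        gcongr
    _ = _ := by
        rw [pow_add]
        ring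


/-- The fibres, uniformly in `M`. -/
def FibU (Λ : ℕ → ℂ → ℂ) (k : ℕ) : Prop :=
  ∃ δ > 0, ∃ (C : ℝ) (N : ℕ) (f : ℕ → (Fin k → ℝ) → ℂ → ℂ), 0 ≤ C ∧ ∀ M : ℕ, 1 ≤ M →
    ∀ t : Fin k → ℝ, DifferentiableOn ℂ (f M t) {w | 1 - δ < w.re} ∧
    (∀ w : ℂ, (k : ℝ) + 1 < w.re → f M t w = FX Λ M (fp (fun _ => 1 / 2) t w)) ∧
    ∀ w : ℂ, 1 - δ < w.re → ‖f M t w‖ ≤ C * (M : ℝ) ^ N * (1 + ‖t‖ + ‖w‖) ^ N

end Pool.Agent.W5h55.MO
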