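import Pool.Agent.W5h55.MO.Un

set_option autoImplicit false

/-!
# The fibres, uniformly in `M`
-/

namespace Pool.Agent.W5h55.MO

open Finset Complex MeasureTheory Filter Pool.Agent.W5h65.MD Pool.Agent.W5h55.MC
  Pool.Agent.W5h55.BT

theorem fibU_of_unif (hU0 : S_U) {Λ : ℕ → ℂ → ℂ} (hΛ : IsCont Λ) {k : ℕ}
    (h : Pool.Agent.W5h63.MD.Q1Unif k 1) : FibU Λ k := by
  obtain ⟨Ω, ⟨hΩo, hΩc, hreg, hpt⟩, H, hH, hb⟩ := h
  obtain ⟨U, hUdef⟩ : ∃ U : Set (Fin (k + 1) → ℝ), U = inv' ⁻¹' Ω := ⟨_, rfl⟩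
  have hUo : IsOpen U := by rw [hUdef]; exact hΩo.preimage inv'_cont
  have hUc : Convex ℝ U := by
    rw [hUdef]
    intro x hx y hy a b ha hb hab
    have e : inv' (a • x + b • y) = a • inv' x + b • inv' y := rfl
    show inv' (a • x + b • y) ∈ Ω
    rw [e]
    exact hΩc hx hy ha hb hab
  have hUQ : ∀ p : Fin (k + 1) → ℝ, (∀ i, 1 < p i) → p ∈ U := by
    intro p hp
    rw [hUdef]
    exact hreg ⟨fun j => hp j.succ, hp 0⟩
  have hUup : ∀ c1 c2 : ℝ, c1 ≤ c2 → (Fin.cons c1 (fun _ => 1 / 2) : Fin (k + 1) → ℝ) ∈ U →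
      (Fin.cons c2 (fun _ => 1 / 2) : Fin (k + 1) → ℝ) ∈ U := by
    intro c1 c2 h12 h1
    have h2 := up hUo hUc hUQ h1 (v := (Fin.cons (c2 - c1) (fun _ => 0) : Fin (k + 1) → ℝ))
      (fun i => by
        refine Fin.cases ?_ (fun j => ?_) i
        · simpa using h12
        · simp)
    convert h2 using 1
    funext i
    refine Fin.cases ?_ (fun j => ?_) i
    · simp
    · simp
  have hcont : Continuous (fun x : ℝ => (Fin.cons x (fun _ => 1 / 2) : Fin (k + 1) → ℝ)) := by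
    refine continuous_pi fun i => ?_
    refine Fin.cases ?_ (fun i => ?_) i
    · simp only [Fin.cons_zero]
      exact continuous_id
    · simp only [Fin.cons_succ]
      exact continuous_const
  have h1U : (Fin.cons 1 (fun _ => 1 / 2) : Fin (k + 1) → ℝ) ∈ U := by
    rw [hUdef]
    exact hpt
  obtain ⟨ε, hε, hball⟩ := Metric.isOpen_iff.1 (hUo.preimage hcont) 1 h1U
  obtain ⟨δ, hδ⟩ : ∃ δ : ℝ, δ = ε / 2 := ⟨_, rfl⟩
  have hδ0 : 0 < δ := by rw [hδ]; positivity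
  have hcδ : (Fin.cons (1 - δ) (fun _ => 1 / 2) : Fin (k + 1) → ℝ) ∈ U := by
    refine hball (show 1 - δ ∈ Metric.ball 1 ε from ?_)
    rw [Metric.mem_ball, Real.dist_eq]
    have : 1 - δ - 1 = -δ := by ring
    rw [this, abs_neg, abs_of_pos hδ0]
    linarith
  have hmem : ∀ (t : Fin k → ℝ) (w : ℂ), 1 - δ < w.re → fp (fun _ => 1 / 2) t w ∈ Tube U := by
    intro t w hw
    rw [mem_Tube, re'_fp]
    exact hUup _ _ hw.le hcδ
  -- holomorphy
  have hGd : ∀ M : ℕ, 1 ≤ M → DifferentiableOn ℂ (fun z => H M (inv' z)) (Tube U) := by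
    intro M hM
    have h1 := (hH M hM).1
    refine h1.comp inv'_diff.differentiableOn fun z hz => ?_
    rw [hUdef] at hz
    exact hz
  -- the series
  have hGW : ∀ M : ℕ, 1 ≤ M → ∀ z ∈ Tube (U ∩ W1 k), H M (inv' z) = FX Λ M z := by
    intro M hM
    have hx : (fun _ => (k : ℝ) + 2 : Fin (k + 1) → ℝ) ∈ MC.QQ k ∩ W1 k := by
      have hk : (0 : ℝ) ≤ k := Nat.cast_nonneg k
      refine ⟨fun i => ?_, fun j => ?_, ?_⟩
      · show (1 : ℝ) < k + 2
        linarith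
      · show (0 : ℝ) < k + 2
        linarith
      · show (k : ℝ) + 1 < k + 2
        linarith
    refine eqOn_of_eqOn (hUo.inter (isOpen_W1 k)) (hUc.inter (convex_W1 k))
      ((isOpen_QQ k).inter (isOpen_W1 k)) (fun p hp => ⟨hUQ p hp.1, hp.2⟩) hx
      (fun z hz => diffAt hUo (hGd M hM) hz.1)
      (fun z hz => diffAt (isOpen_W1 k) (LB.holo hΛ (LB_W1 hΛ M)) hz.2) fun z hz => ?_
    have hz1 : ∀ i, 1 < (z i).re := hz.1
    have h2 := (hH M hM).2 (inv' z) ⟨fun j => hz1 j.succ, hz1 0⟩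
    rw [h2, one_mul, hU0 k M hM (inv' z) (fun j => hz1 j.succ) (hz1 0), FX_eq_FM hΛ M hz1]
    rfl
  -- the bounds
  have hK : IsCompact ((fun x : ℝ => (Fin.cons x (fun _ => 1 / 2) : Fin (k + 1) → ℝ)) ''
      Set.Icc (1 - δ) ((k : ℝ) + 2)) := isCompact_Icc.image hcont
  obtain ⟨C1, N1, h1⟩ := hb (inv' '' ((fun x : ℝ => (Fin.cons x (fun _ => 1 / 2) :
      Fin (k + 1) → ℝ)) '' Set.Icc (1 - δ) ((k : ℝ) + 2))) (by
    rintro _ ⟨_, ⟨x, hx, rfl⟩, rfl⟩
    have h2 := hUup _ _ hx.1 hcδ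
    rw [hUdef] at h2
    exact h2) (hK.image inv'_cont)
  obtain ⟨C2, N2, hC2, h2⟩ := FX_rightU (k := k) hΛ (σ := fun _ => 1 / 2) (fun _ => by norm_num)
  have hW : ∀ (t : Fin k → ℝ) (w : ℂ), (k : ℝ) + 1 < w.re → 1 - δ < w.re →
      fp (fun _ => 1 / 2) t w ∈ Tube (U ∩ W1 k) := by
    intro t w hw hw2
    refine ⟨hmem t w hw2, ?_⟩
    show re' (fp (fun _ => 1 / 2) t w) ∈ W1 k
    rw [re'_fp]
    refine ⟨fun j => ?_, ?_⟩
    · simp
    · simpa using hw
  have hk : (0 : ℝ) ≤ k := Nat.cast_nonneg k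
  refine ⟨δ, hδ0, |C1| + C2, max N1 N2, fun M t w => H M (inv' (fp (fun _ => 1 / 2) t w)),
    by positivity, fun M hM t => ⟨fun w hw => ?_, fun w hw => ?_, fun w hw => ?_⟩⟩
  · refine DifferentiableAt.differentiableWithinAt ?_
    exact DifferentiableAt.comp (g := fun z => H M (inv' z)) (f := fp (fun _ => 1 / 2) t) w
      (diffAt hUo (hGd M hM) (hmem t w hw)) (differentiable_fp _ t w)
  · exact hGW M hM _ (hW t w hw (by linarith))
  · have ht0 := norm_nonneg t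
    have hw0 := norm_nonneg w
    have hone : 1 ≤ 1 + ‖t‖ + ‖w‖ := by linarith
    have hM1 : (1 : ℝ) ≤ M := by exact_mod_cast hM
    have hMN : (1 : ℝ) ≤ (M : ℝ) ^ max N1 N2 := one_le_pow₀ hM1
    show ‖H M (inv' (fp (fun _ => 1 / 2) t w))‖ ≤ _
    rcases le_total ((k : ℝ) + 2) w.re with hw2 | hw2
    · rw [hGW M hM _ (hW t w (by linarith) hw)]
      refine (h2 M t w hw2).trans ?_
      have e1 : C2 ≤ (|C1| + C2) * (M : ℝ) ^ max N1 N2 := by
        have := abs_nonneg C1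
        nlinarith
      exact mul_le_mul e1 (pow_le_pow_right₀ hone (le_max_right _ _)) (by positivity)
        (by positivity)
    · have h3 : inv' (fp (fun _ => 1 / 2) t w) ∈ Pool.Agent.W5h63.MD.tube (inv' ''
          ((fun x : ℝ => (Fin.cons x (fun _ => 1 / 2) : Fin (k + 1) → ℝ)) ''
            Set.Icc (1 - δ) ((k : ℝ) + 2))) := by
        refine ⟨_, ⟨w.re, ⟨hw.le, hw2⟩, rfl⟩, ?_⟩
        show inv' _ = Pool.Agent.W5h63.MD.reP (inv' (fp (fun _ => 1 / 2) t w))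
        have e2 : Pool.Agent.W5h63.MD.reP (inv' (fp (fun _ => 1 / 2) t w)) =
            inv' (re' (fp (fun _ => 1 / 2) t w)) := rfl
        rw [e2, re'_fp]
      refine (h1 M hM _ h3).trans ?_
      have h4 : ‖Pool.Agent.W5h63.MD.imP (inv' (fp (fun _ => 1 / 2) t w))‖ ≤ ‖t‖ + ‖w‖ := by
        refine le_trans ?_ (norm_im'_fp (fun _ => 1 / 2) t w)
        refine max_le ?_ ?_
        · refine (pi_norm_le_iff_of_nonneg (norm_nonneg _)).2 fun j => ?_
          exact norm_le_pi_norm (im' (fp (fun _ => 1 / 2) t w)) j.succ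
        · exact norm_le_pi_norm (im' (fp (fun _ => 1 / 2) t w)) 0
      have h5 : (1 + ‖Pool.Agent.W5h63.MD.imP (inv' (fp (fun _ => 1 / 2) t w))‖) ^ N1 ≤
          (1 + ‖t‖ + ‖w‖) ^ max N1 N2 := by
        refine (pow_le_pow_left₀ (by positivity) (by linarith) N1).trans
          (pow_le_pow_right₀ hone (le_max_left _ _))
      calc C1 * (M : ℝ) ^ N1 * (1 + ‖Pool.Agent.W5h63.MD.imP (inv' (fp (fun _ => 1 / 2) t w))‖) ^ N1
          ≤ (|C1| + C2) * (M : ℝ) ^ max N1 N2 *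
            (1 + ‖Pool.Agent.W5h63.MD.imP (inv' (fp (fun _ => 1 / 2) t w))‖) ^ N1 := by
            refine mul_le_mul_of_nonneg_right ?_ (by positivity)
            refine mul_le_mul ?_ (pow_le_pow_right₀ hM1 (le_max_left _ _)) (by positivity)
              (by positivity)
            linarith [le_abs_self C1]
        _ ≤ _ := mul_le_mul_of_nonneg_left h5 (by positivity)

end Pool.Agent.W5h55.MO
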